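import Pool.Agent.Helper93.JD.Cluster

set_option autoImplicit false

namespace Pool.Agent.Helper93.JD

open Finset

variable {d m : ℕ}

lemma card_fiber_real {α β : Type*} [DecidableEq β] (S : Finset α) (T : Finset β) (f : α → β)
    (hf : ∀ x ∈ S, f x ∈ T) {K : ℝ}
    (hK : ∀ y ∈ T, ((S.filter (fun x => f x = y)).card : ℝ) ≤ K) :
    (S.card : ℝ) ≤ K * T.card := by
  rw [Finset.card_eq_sum_card_fiberwise hf]
  push_cast
  calc ∑ b ∈ T, ((S.filter (fun x => f x = b)).card : ℝ) ≤ ∑ _b ∈ T, K := Finset.sum_le_sum hK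
    _ = K * T.card := by simp [mul_comm]

/-- Counting anchors `P - r(P) + θ + κ k` in a box. -/
lemma card_anchor_le (F : (Fin d → ℤ) → Fin d → ℝ) {κ G h : ℝ} (hκ : 0 < κ) (hG : 0 ≤ G)
    (hh : 0 ≤ h) (S : Finset ((Fin d → ℤ) × (Fin d → ℤ))) (y : Fin d → ℝ)
    (hP : ∀ p ∈ S, ∀ i, |F p.1 i + κ * p.2 i - p.1 i| ≤ G)
    (hS : ∀ p ∈ S, ∀ i, |F p.1 i + κ * p.2 i - y i| ≤ h) :
    (S.card : ℝ) ≤ (2 * h / κ + 1) ^ d * (2 * (h + G) + 1) ^ d := by
  classical
  have h1 := card_fiber_real S (S.image Prod.fst) Prod.fst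
    (fun x hx => Finset.mem_image_of_mem _ hx) (K := (2 * h / κ + 1) ^ d) (by
      intro P _
      have h2 : (S.filter (fun x => x.1 = P)).card =
          ((S.filter (fun x => x.1 = P)).image Prod.snd).card := by
        rw [Finset.card_image_of_injOn]
        intro x hx x' hx' hxx
        have e1 := (Finset.mem_filter.mp (Finset.mem_coe.mp hx)).2
        have e2 := (Finset.mem_filter.mp (Finset.mem_coe.mp hx')).2
        exact Prod.ext (e1.trans e2.symm) hxx
      rw [h2]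
      have h3 := card_box_le (fun i => (y i - F P i) / κ) (h / κ) (by positivity)
        ((S.filter (fun x => x.1 = P)).image Prod.snd) (by
          intro k hk i
          obtain ⟨x, hx, rfl⟩ := Finset.mem_image.mp hk
          rw [Finset.mem_filter] at hx
          obtain ⟨hxS, hx1⟩ := hx
          have h4 := hS x hxS i
          rw [hx1] at h4
          have h5 : (x.2 i : ℝ) - (y i - F P i) / κ = (F P i + κ * x.2 i - y i) / κ := by
            field_simp; ring
          rw [h5, abs_div, abs_of_pos hκ]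
          exact div_le_div_of_nonneg_right h4 hκ.le)
      refine h3.trans (le_of_eq ?_)
      rw [mul_div_assoc])
  refine h1.trans (mul_le_mul_of_nonneg_left ?_ (by positivity))
  refine card_box_le y (h + G) (by positivity) _ ?_
  intro P hP' i
  obtain ⟨x, hx, rfl⟩ := Finset.mem_image.mp hP'
  have h2 := hP x hx i
  have h3 := hS x hx i
  have h4 : (x.1 i : ℝ) - y i = (F x.1 i + κ * x.2 i - y i) - (F x.1 i + κ * x.2 i - x.1 i) := by
    ring
  rw [h4]
  exact (abs_sub _ _).trans (add_le_add h3 h2)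

lemma card_anchor_le' (F : (Fin d → ℤ) → Fin d → ℝ) {κ G h : ℝ} (hκ : 0 < κ) (hG : 0 ≤ G)
    (hh : 0 ≤ h) (Mη : ℕ) (S : Finset ((Fin d → ℤ) × (Fin d → ℤ))) (y : Fin d → ℝ)
    (hM : ∀ p ∈ S, p.2 ∈ Fintype.piFinset fun _ : Fin d => Finset.Ico (0 : ℤ) Mη)
    (hP : ∀ p ∈ S, ∀ i, |F p.1 i + κ * p.2 i - p.1 i| ≤ G)
    (hS : ∀ p ∈ S, ∀ i, |F p.1 i + κ * p.2 i - y i| ≤ h) :
    (S.card : ℝ) ≤ (Mη : ℝ) ^ d * (2 * (h + G) + 1) ^ d := by
  classical
  have h1 := card_fiber_real S (S.image Prod.fst) Prod.fst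
    (fun x hx => Finset.mem_image_of_mem _ hx) (K := (Mη : ℝ) ^ d) (by
      intro P _
      have h2 : (S.filter (fun x => x.1 = P)).card =
          ((S.filter (fun x => x.1 = P)).image Prod.snd).card := by
        rw [Finset.card_image_of_injOn]
        intro x hx x' hx' hxx
        have e1 := (Finset.mem_filter.mp (Finset.mem_coe.mp hx)).2
        have e2 := (Finset.mem_filter.mp (Finset.mem_coe.mp hx')).2
        exact Prod.ext (e1.trans e2.symm) hxx
      rw [h2]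
      have h3 : ((S.filter (fun x => x.1 = P)).image Prod.snd).card ≤
          (Fintype.piFinset fun _ : Fin d => Finset.Ico (0 : ℤ) Mη).card := by
        refine Finset.card_le_card ?_
        intro k hk
        obtain ⟨x, hx, rfl⟩ := Finset.mem_image.mp hk
        exact hM x (Finset.mem_filter.mp hx).1
      rw [Fintype.card_piFinset, Finset.prod_const, Finset.card_univ, Fintype.card_fin,
        Int.card_Ico, sub_zero, Int.toNat_natCast] at h3
      exact_mod_cast h3)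
  refine h1.trans (mul_le_mul_of_nonneg_left ?_ (by positivity))
  refine card_box_le y (h + G) (by positivity) _ ?_
  intro P hP' i
  obtain ⟨x, hx, rfl⟩ := Finset.mem_image.mp hP'
  have h2 := hP x hx i
  have h3 := hS x hx i
  have h4 : (x.1 i : ℝ) - y i = (F x.1 i + κ * x.2 i - y i) - (F x.1 i + κ * x.2 i - x.1 i) := by
    ring
  rw [h4]
  exact (abs_sub _ _).trans (add_le_add h3 h2)

/-- Number of integer vectors in a box, from below. -/
lemma card_box_ge (y : Fin d → ℝ) {h : ℝ} (hh : 1 ≤ h) :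
    h ^ d ≤ ((Fintype.piFinset fun i => Finset.Icc ⌈y i - h⌉ ⌊y i + h⌋).card : ℝ) := by
  rw [Fintype.card_piFinset]
  push_cast
  calc h ^ d = ∏ _i : Fin d, h := by simp
    _ ≤ _ := by
      refine Finset.prod_le_prod (fun i _ => by linarith) fun i _ => ?_
      rw [Int.card_Icc]
      have h1 : ((⌊y i + h⌋ + 1 - ⌈y i - h⌉ : ℤ) : ℝ) ≤
          (((⌊y i + h⌋ + 1 - ⌈y i - h⌉).toNat : ℕ) : ℝ) := by
        exact_mod_cast Int.self_le_toNat _
      refine le_trans ?_ h1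
      push_cast
      have h2 := Int.lt_floor_add_one (y i + h)
      have h3 := Int.ceil_lt_add_one (y i - h)
      linarith

/-- Existence of anchors. -/
lemma anchors {A0 : Fin m → ℝ} {A1 : Fin d → Fin m → ℝ} {d' : ℝ} (hd'0 : 0 < d') (hd' : d' < d)
    {ρ : ℝ} (hρ : 0 < ρ) (hρ1 : ρ ≤ 1) (b : ℤ × (Fin d → ℤ)) (θ : Fin d → ℝ) {t : ℝ}
    (ht : 0 < t) (ht1 : t ≤ 1) :
    ∃ R0 : ℝ, ∀ R : ℕ, 1 ≤ R → R0 ≤ R → ∀ c : Fin d → ℝ, ∀ h0 : ℝ, 0 < h0 →
      ∃ (a0 : ℤ) (A : Finset ((Fin d → ℤ) × (Fin d → ℤ)))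
        (a' : (Fin d → ℤ) × (Fin d → ℤ) → Fin d → ℝ), A.Nonempty ∧ 8 * (R : ℝ) ≤ a0 ∧
        (a0 : ℝ) ≤ 9 * R ∧ (∀ a ∈ A, ∀ i, |a' a i - a0 * c i| ≤ ρ * a0 / 2) ∧
        (∀ (y : Fin d → ℝ) (h : ℝ), h0 ≤ h →
          ((A.filter (fun a => ∀ i, |a' a i - y i| ≤ h)).card : ℝ) ≤
            3 ^ d * (h / (ρ * R)) ^ d' * A.card) ∧
        ∀ a ∈ A, ∃ (b' : Fin d → ℤ) (θ' : Fin d → ℝ), (∀ i, a' a i = b' i + θ' i) ∧
          (∀ i, |θ' i - θ i| ≤ t) ∧
          NZ t (ev A0 A1 ((a0, b') - b) + fun j => ∑ i, (θ' i - θ i) * A1 i j) := by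
  classical
  obtain ⟨S1, hS1⟩ := syndetic (ev A0 A1) (show 0 < t / 4 by positivity)
  let emb : (Fin d → ℤ) →+ ℤ × (Fin d → ℤ) := AddMonoidHom.inr ℤ (Fin d → ℤ)
  obtain ⟨S2, hS2⟩ := syndetic ((ev A0 A1).comp emb) (show 0 < t / 4 by positivity)
  obtain ⟨G1, hG1⟩ : ∃ G1 : ℕ, ∀ r ∈ S1, |r.1| ≤ G1 := by
    refine ⟨S1.sup fun r => r.1.natAbs, fun r hr => ?_⟩
    have h1 : r.1.natAbs ≤ S1.sup fun r => r.1.natAbs := Finset.le_sup (f := fun r => r.1.natAbs) hr
    rw [Int.abs_eq_natAbs]; exact_mod_cast h1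
  obtain ⟨G2, hG2⟩ : ∃ G2 : ℕ, ∀ r ∈ S2, ∀ i, |r i| ≤ G2 := by
    refine ⟨S2.sup fun r => Finset.univ.sup fun i => (r i).natAbs, fun r hr i => ?_⟩
    have h1 : (r i).natAbs ≤ Finset.univ.sup fun i => (r i).natAbs :=
      Finset.le_sup (f := fun i => (r i).natAbs) (Finset.mem_univ i)
    have h2 : (Finset.univ.sup fun i => (r i).natAbs) ≤
        S2.sup fun r => Finset.univ.sup fun i => (r i).natAbs :=
      Finset.le_sup (f := fun r => Finset.univ.sup fun i => (r i).natAbs) hr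
    rw [Int.abs_eq_natAbs]; exact_mod_cast h1.trans h2
  choose r2 hr2S hr2 using hS2
  set SA : ℝ := ∑ i, ∑ j, |A1 i j| with hSA
  have hSA0 : 0 ≤ SA := Finset.sum_nonneg fun i _ => Finset.sum_nonneg fun j _ => abs_nonneg _
  set t' : ℝ := t / (2 * (1 + SA)) with ht'
  have ht'0 : 0 < t' := by positivity
  have ht't : t' ≤ t / 2 := by
    rw [ht', div_le_div_iff₀ (by positivity) (by norm_num)]
    have h0 := mul_nonneg ht.le hSA0
    linarith only [h0]
  set G' : ℝ := G2 + ‖θ‖ + 1 with hG'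
  have hG'1 : 1 ≤ G' := by
    have := norm_nonneg θ
    have : (0 : ℝ) ≤ G2 := by positivity
    linarith
  set Ct : ℝ := 3 * (4 * G' + 3) / (2 * t') with hCt
  have hCt0 : 0 < Ct := by positivity
  have hdd : 0 < (d : ℝ) - d' := by linarith
  -- eventual conditions on R
  have F1 : ∀ᶠ x : ℝ in Filter.atTop, 2 * (G1 : ℝ) ≤ x := Filter.eventually_ge_atTop _
  have F2 : ∀ᶠ x : ℝ in Filter.atTop, G' / (2 * ρ) ≤ x := Filter.eventually_ge_atTop _
  have F3 : ∀ᶠ x : ℝ in Filter.atTop,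
      Ct ^ d * ((G' + 1) / ρ) ^ ((d : ℝ) - d') ≤ x ^ ((d : ℝ) - d') :=
    (tendsto_rpow_atTop hdd).eventually_ge_atTop _
  obtain ⟨R0, hR0⟩ := Filter.eventually_atTop.mp (F1.and (F2.and F3))
  refine ⟨R0, fun R hR1 hRR0 c h0 hh0 => ?_⟩
  obtain ⟨f1, f2, f3⟩ := hR0 R hRR0
  have hRpos : (0 : ℝ) < R := by exact_mod_cast hR1
  have hρR : G' ≤ 2 * ρ * R := by
    rw [div_le_iff₀ (by positivity)] at f2; linarith
  obtain ⟨r1, hr1S, hr1⟩ := hS1 (((8 * R + G1 : ℕ) : ℤ) - b.1, 0)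
  have hr1b := abs_le.mp (hG1 r1 hr1S)
  set z : ℤ × (Fin d → ℤ) := (((8 * R + G1 : ℕ) : ℤ) - b.1, 0) - r1 with hz
  set a0 : ℤ := b.1 + z.1 with ha0
  have ha0eq : a0 = 8 * R + G1 - r1.1 := by
    rw [ha0, hz]; simp only [Prod.fst_sub]; push_cast; ring
  have ha0l : 8 * (R : ℤ) ≤ a0 := by rw [ha0eq]; linarith [hr1b.2]
  have ha0u : a0 ≤ 8 * R + 2 * G1 := by rw [ha0eq]; linarith [hr1b.1]
  have h8 : 8 * (R : ℝ) ≤ a0 := by exact_mod_cast ha0l
  have h9 : (a0 : ℝ) ≤ 9 * R := by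
    have : (a0 : ℝ) ≤ 8 * R + 2 * G1 := by exact_mod_cast ha0u
    linarith
  -- the small parameter
  set Mη : ℕ := ⌈t' / h0⌉₊ + 1 with hMη
  have hMη0 : (0 : ℝ) < Mη := by rw [hMη]; positivity
  set κ : ℝ := t' / Mη with hκ
  have hκ0 : 0 < κ := by positivity
  have hκh0 : κ ≤ h0 := by
    rw [hκ, div_le_iff₀ hMη0]
    have h1 : t' / h0 ≤ Mη := (Nat.le_ceil _).trans (by rw [hMη]; push_cast; linarith)
    rw [div_le_iff₀ hh0] at h1; linarith
  -- the anchors
  let Pset : Finset (Fin d → ℤ) :=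
    Fintype.piFinset fun i => Finset.Icc ⌈a0 * c i - ρ * a0 / 4⌉ ⌊a0 * c i + ρ * a0 / 4⌋
  let Kset : Finset (Fin d → ℤ) := Fintype.piFinset fun _ : Fin d => Finset.Ico (0 : ℤ) Mη
  let rr : (Fin d → ℤ) → (Fin d → ℤ) := fun P => r2 (P - b.2 - z.2)
  let F : (Fin d → ℤ) → Fin d → ℝ := fun P i => (P i : ℝ) - rr P i + θ i
  let a' : (Fin d → ℤ) × (Fin d → ℤ) → Fin d → ℝ := fun p i => F p.1 i + κ * p.2 i
  have hquarter : 2 * ρ * R ≤ ρ * a0 / 4 := by
    have h0 := mul_le_mul_of_nonneg_left h8 hρ.le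
    linarith only [h0]
  have hquarter1 : 1 ≤ ρ * a0 / 4 := by linarith
  have hPcard : (2 * ρ * R) ^ d ≤ (Pset.card : ℝ) := by
    refine (pow_le_pow_left₀ (by positivity) hquarter d).trans ?_
    exact card_box_ge (fun i => a0 * c i) hquarter1
  have hKcard : (Kset.card : ℝ) = (Mη : ℝ) ^ d := by
    simp only [Kset]
    rw [Fintype.card_piFinset, Finset.prod_const, Finset.card_univ, Fintype.card_fin,
      Int.card_Ico, sub_zero, Int.toNat_natCast]
    push_cast; ring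
  have hAcard : (((Pset ×ˢ Kset).card : ℕ) : ℝ) = Pset.card * (Mη : ℝ) ^ d := by
    rw [Finset.card_product]; push_cast; rw [hKcard]
  have hAge : (2 * ρ * R) ^ d * (Mη : ℝ) ^ d ≤ (((Pset ×ˢ Kset).card : ℕ) : ℝ) := by
    rw [hAcard]; exact mul_le_mul_of_nonneg_right hPcard (by positivity)
  have hAne : (Pset ×ˢ Kset).Nonempty := by
    rw [← Finset.card_pos]
    have : (0 : ℝ) < (((Pset ×ˢ Kset).card : ℕ) : ℝ) := lt_of_lt_of_le (by positivity) hAge
    exact_mod_cast this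
  have hrr : ∀ P i, |(rr P i : ℝ)| ≤ G2 := by
    intro P i
    have := hG2 (rr P) (hr2S _) i
    exact_mod_cast this
  have hk : ∀ p ∈ Pset ×ˢ Kset, ∀ i, 0 ≤ κ * (p.2 i : ℝ) ∧ κ * (p.2 i : ℝ) ≤ t' := by
    intro p hp i
    have h1 := (Finset.mem_product.mp hp).2
    have h2 := Finset.mem_Ico.mp (Fintype.mem_piFinset.mp h1 i)
    have h3 : (0 : ℝ) ≤ p.2 i := by exact_mod_cast h2.1
    have h4 : (p.2 i : ℝ) ≤ Mη := by exact_mod_cast h2.2.le
    refine ⟨by positivity, ?_⟩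
    calc κ * (p.2 i : ℝ) ≤ κ * Mη := mul_le_mul_of_nonneg_left h4 hκ0.le
      _ = t' := by rw [hκ]; field_simp
  have hPdist : ∀ p ∈ Pset ×ˢ Kset, ∀ i, |F p.1 i + κ * p.2 i - p.1 i| ≤ G' := by
    intro p hp i
    have h1 := hk p hp i
    have h2 := hrr p.1 i
    have h3 : |θ i| ≤ ‖θ‖ := by rw [← Real.norm_eq_abs]; exact norm_le_pi_norm θ i
    have h4 : F p.1 i + κ * p.2 i - p.1 i = -(rr p.1 i : ℝ) + θ i + κ * p.2 i := by
      simp only [F]; ring
    rw [h4, hG']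
    refine (abs_add_le _ _).trans (add_le_add ((abs_add_le _ _).trans (add_le_add ?_ h3)) ?_)
    · rwa [abs_neg]
    · rw [abs_of_nonneg h1.1]; linarith [h1.2]
  refine ⟨a0, Pset ×ˢ Kset, a', hAne, h8, h9, ?_, ?_, ?_⟩
  · intro p hp i
    have h1 := Finset.mem_Icc.mp (Fintype.mem_piFinset.mp (Finset.mem_product.mp hp).1 i)
    have h2 : |(p.1 i : ℝ) - a0 * c i| ≤ ρ * a0 / 4 := by
      have e1 := Int.ceil_le.mp h1.1
      have e2 := Int.le_floor.mp h1.2
      rw [abs_le]; constructor <;> linarith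
    have h3 := hPdist p hp i
    have h4 : a' p i - a0 * c i = (F p.1 i + κ * p.2 i - p.1 i) + (p.1 i - a0 * c i) := by
      simp only [a']; ring
    rw [h4]
    refine (abs_add_le _ _).trans ?_
    linarith
  · -- anchor counting
    intro y h hh
    have hhpos : 0 < h := lt_of_lt_of_le hh0 hh
    set S := (Pset ×ˢ Kset).filter (fun a => ∀ i, |a' a i - y i| ≤ h) with hS
    have hSsub : S ⊆ Pset ×ˢ Kset := Finset.filter_subset _ _
    have hSP : ∀ p ∈ S, ∀ i, |F p.1 i + κ * p.2 i - p.1 i| ≤ G' := fun p hp => hPdist p (hSsub hp)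
    have hSy : ∀ p ∈ S, ∀ i, |F p.1 i + κ * p.2 i - y i| ≤ h :=
      fun p hp => (Finset.mem_filter.mp hp).2
    have hSM : ∀ p ∈ S, p.2 ∈ Fintype.piFinset fun _ : Fin d => Finset.Ico (0 : ℤ) Mη :=
      fun p hp => (Finset.mem_product.mp (hSsub hp)).2
    have h3d : (1 : ℝ) ≤ 3 ^ d := one_le_pow₀ (by norm_num)
    rcases lt_or_ge (ρ * R) h with hbig | hsmall
    · have h1 : (1 : ℝ) ≤ (h / (ρ * R)) ^ d' :=
        Real.one_le_rpow (by rw [le_div_iff₀ (by positivity)]; linarith) hd'0.le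
      calc (S.card : ℝ) ≤ 1 * 1 * (((Pset ×ˢ Kset).card : ℕ) : ℝ) := by
            rw [one_mul, one_mul]; exact_mod_cast Finset.card_le_card hSsub
        _ ≤ 3 ^ d * (h / (ρ * R)) ^ d' * (((Pset ×ˢ Kset).card : ℕ) : ℝ) := by gcongr
    · have hx0 : 0 < h / (ρ * R) := by positivity
      have hx1 : h / (ρ * R) ≤ 1 := by rw [div_le_one (by positivity)]; exact hsmall
      rcases le_or_gt (G' + 1) h with hc1 | hc1
      · have h1 := card_anchor_le' F hκ0 (by linarith) hhpos.le Mη S y hSM hSP hSy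
        have h2 : (2 * (h + G') + 1) ^ d ≤ (2 * (h / (ρ * R))) ^ d * (2 * ρ * R) ^ d := by
          rw [← mul_pow]
          refine pow_le_pow_left₀ (by positivity) ?_ d
          have : 2 * (h / (ρ * R)) * (2 * ρ * R) = 4 * h := by field_simp; ring
          rw [this]; linarith
        have h3 : (2 * (h / (ρ * R))) ^ d ≤ 3 ^ d * (h / (ρ * R)) ^ d' := by
          rw [mul_pow]
          have e1 : (h / (ρ * R)) ^ d ≤ (h / (ρ * R)) ^ d' := by
            rw [← Real.rpow_natCast]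
            exact Real.rpow_le_rpow_of_exponent_ge hx0 hx1 hd'.le
          have e2 : (2 : ℝ) ^ d ≤ 3 ^ d := pow_le_pow_left₀ (by norm_num) (by norm_num) d
          exact mul_le_mul e2 e1 (by positivity) (by positivity)
        calc (S.card : ℝ) ≤ (Mη : ℝ) ^ d * (2 * (h + G') + 1) ^ d := h1
          _ ≤ (Mη : ℝ) ^ d * ((2 * (h / (ρ * R))) ^ d * (2 * ρ * R) ^ d) := by gcongr
          _ = (2 * (h / (ρ * R))) ^ d * ((2 * ρ * R) ^ d * (Mη : ℝ) ^ d) := by ring
          _ ≤ (3 ^ d * (h / (ρ * R)) ^ d') * (((Pset ×ˢ Kset).card : ℕ) : ℝ) :=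
            mul_le_mul h3 hAge (by positivity) (by positivity)
      · have h1 := card_anchor_le F hκ0 (by linarith) hhpos.le S y hSP hSy
        have h2 : 2 * h / κ + 1 ≤ 3 * h / t' * Mη := by
          have e1 : 1 ≤ h / κ := by rw [le_div_iff₀ hκ0]; linarith
          have e2 : 3 * h / t' * Mη = 2 * h / κ + h / κ := by
            rw [hκ]; field_simp; ring
          rw [e2]; linarith
        have h3 : 2 * (h + G') + 1 ≤ 4 * G' + 3 := by linarith
        have h4 : (2 * h / κ + 1) ^ d * (2 * (h + G') + 1) ^ d ≤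
            (Ct * (h / (ρ * R))) ^ d * ((2 * ρ * R) ^ d * (Mη : ℝ) ^ d) := by
          rw [← mul_pow, ← mul_pow, ← mul_pow]
          refine pow_le_pow_left₀ (by positivity) ?_ d
          calc (2 * h / κ + 1) * (2 * (h + G') + 1) ≤ (3 * h / t' * Mη) * (4 * G' + 3) :=
                mul_le_mul h2 h3 (by positivity) (by positivity)
            _ = Ct * (h / (ρ * R)) * (2 * ρ * R * Mη) := by
                rw [hCt]; field_simp
        have h5 : (Ct * (h / (ρ * R))) ^ d ≤ 1 * (h / (ρ * R)) ^ d' := by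
          have e1 : (h / (ρ * R)) ^ d = (h / (ρ * R)) ^ ((d : ℝ) - d') * (h / (ρ * R)) ^ d' := by
            rw [← Real.rpow_add hx0, ← Real.rpow_natCast]; congr 1; ring
          rw [mul_pow, e1, ← mul_assoc]
          refine mul_le_mul_of_nonneg_right ?_ (by positivity)
          have e2 : (h / (ρ * R)) ^ ((d : ℝ) - d') ≤ ((G' + 1) / ρ) ^ ((d : ℝ) - d') /
              (R : ℝ) ^ ((d : ℝ) - d') := by
            rw [← Real.div_rpow (by positivity) hRpos.le]
            refine Real.rpow_le_rpow hx0.le ?_ hdd.le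
            rw [div_div]
            exact div_le_div_of_nonneg_right hc1.le (by positivity)
          calc Ct ^ d * (h / (ρ * R)) ^ ((d : ℝ) - d')
              ≤ Ct ^ d * (((G' + 1) / ρ) ^ ((d : ℝ) - d') / (R : ℝ) ^ ((d : ℝ) - d')) := by gcongr
            _ = (Ct ^ d * ((G' + 1) / ρ) ^ ((d : ℝ) - d')) / (R : ℝ) ^ ((d : ℝ) - d') := by ring
            _ ≤ 1 := by rw [div_le_one (by positivity)]; exact f3
        calc (S.card : ℝ) ≤ (2 * h / κ + 1) ^ d * (2 * (h + G') + 1) ^ d := h1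
          _ ≤ (Ct * (h / (ρ * R))) ^ d * ((2 * ρ * R) ^ d * (Mη : ℝ) ^ d) := h4
          _ ≤ (3 ^ d * (h / (ρ * R)) ^ d') * (((Pset ×ˢ Kset).card : ℕ) : ℝ) := by
              refine mul_le_mul (h5.trans ?_) hAge (by positivity) (by positivity)
              gcongr
  · intro p hp
    refine ⟨p.1 - rr p.1, fun i => θ i + κ * p.2 i, fun i => ?_, fun i => ?_, ?_⟩
    · simp only [a', F, Pi.sub_apply]; push_cast; ring
    · have h1 := hk p hp i
      have h2 : θ i + κ * p.2 i - θ i = κ * p.2 i := by ring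
      rw [h2, abs_of_nonneg h1.1]; linarith [h1.2]
    · have h1 : NZ (t / 4) (ev A0 A1 z) := hr1
      have h2 : NZ (t / 4) (ev A0 A1 (emb ((p.1 - b.2 - z.2) - rr p.1))) := hr2 (p.1 - b.2 - z.2)
      have h3 := h1.add h2
      rw [← map_add] at h3
      have h4 : z + emb ((p.1 - b.2 - z.2) - rr p.1) = (a0, p.1 - rr p.1) - b := by
        refine Prod.ext ?_ ?_
        · simp only [emb, Prod.fst_add, AddMonoidHom.inr_apply, Prod.fst_sub, ha0]; ring
        · simp only [emb, Prod.snd_add, AddMonoidHom.inr_apply, Prod.snd_sub]; abel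
      rw [h4] at h3
      have h5 : NZ (t / 2) (fun j => ∑ i, (θ i + κ * p.2 i - θ i) * A1 i j : Fin m → ℝ) := by
        intro j
        refine ⟨0, ?_⟩
        rw [Int.cast_zero, sub_zero]
        have h6 : |∑ i, (θ i + κ * p.2 i - θ i) * A1 i j| ≤ t' * SA := by
          refine (Finset.abs_sum_le_sum_abs _ _).trans ?_
          rw [hSA, Finset.mul_sum]
          refine Finset.sum_le_sum fun i _ => ?_
          have e1 := hk p hp i
          rw [abs_mul, show θ i + κ * p.2 i - θ i = κ * p.2 i by ring, abs_of_nonneg e1.1]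
          refine mul_le_mul e1.2 ?_ (abs_nonneg _) ht'0.le
          exact Finset.single_le_sum (f := fun j => |A1 i j|) (fun j _ => abs_nonneg _)
            (Finset.mem_univ j)
        refine h6.trans_lt ?_
        rw [ht', div_mul_eq_mul_div, div_lt_iff₀ (by positivity)]
        have h0 := mul_nonneg ht.le hSA0
        linarith only [h0, ht]
      have h7 := h3.add h5
      exact h7.mono (by linarith)

end Pool.Agent.Helper93.JD
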