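import Mathlib

set_option autoImplicit false

/-!
# Counting lemmas used for Jarnik-type theorems on affine subspaces
-/

namespace Pool.Agent.Helper93.JD

open Finset

/-- `NZ t y`: every coordinate of `y` is at distance `< t` from an integer. -/
def NZ {ι : Type*} (t : ℝ) (y : ι → ℝ) : Prop := ∀ j, ∃ k : ℤ, |y j - k| < t

lemma NZ.mono {ι : Type*} {t t' : ℝ} (h : t ≤ t') {y : ι → ℝ} (hy : NZ t y) : NZ t' y :=
  fun j => let ⟨k, hk⟩ := hy j; ⟨k, hk.trans_le h⟩

lemma NZ.add {ι : Type*} {t t' : ℝ} {y y' : ι → ℝ} (hy : NZ t y) (hy' : NZ t' y') :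
    NZ (t + t') (y + y') := by
  intro j
  obtain ⟨k, hk⟩ := hy j
  obtain ⟨k', hk'⟩ := hy' j
  refine ⟨k + k', ?_⟩
  rw [Pi.add_apply]
  push_cast
  have : y j + y' j - (k + k') = (y j - k) + (y' j - k') := by ring
  rw [this]
  exact (abs_add_le _ _).trans_lt (add_lt_add hk hk')

lemma NZ.neg {ι : Type*} {t : ℝ} {y : ι → ℝ} (hy : NZ t y) : NZ t (-y) := by
  intro j
  obtain ⟨k, hk⟩ := hy j
  refine ⟨-k, ?_⟩
  rw [Pi.neg_apply]
  push_cast
  have : -y j - -(k : ℝ) = -(y j - k) := by ring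
  rw [this, abs_neg]
  exact hk

lemma NZ.sub {ι : Type*} {t t' : ℝ} {y y' : ι → ℝ} (hy : NZ t y) (hy' : NZ t' y') :
    NZ (t + t') (y - y') := by
  rw [sub_eq_add_neg]
  exact hy.add hy'.neg

lemma NZ.zero {ι : Type*} {t : ℝ} (ht : 0 < t) : NZ t (0 : ι → ℝ) :=
  fun j => ⟨0, by simpa using ht⟩

/-- A set whose elements fall into few classes such that differences inside a class lie in `H`. -/
lemma card_le_of_diff {G T : Type*} [AddGroup G] [DecidableEq G] [DecidableEq T]
    (S : Finset G) (T' : Finset T) (f : G → T) (hf : ∀ x ∈ S, f x ∈ T') (H : Finset G)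
    (h : ∀ x ∈ S, ∀ y ∈ S, f x = f y → x - y ∈ H) : S.card ≤ T'.card * H.card := by
  classical
  have := Finset.card_le_mul_card_image_of_maps_to (s := S) (t := T') (f := f) hf H.card ?_
  · rwa [mul_comm] at this
  · intro c _
    by_cases hne : ({x ∈ S | f x = c} : Finset G).Nonempty
    · obtain ⟨y, hy⟩ := hne
      rw [Finset.mem_filter] at hy
      refine Finset.card_le_card_of_injOn (fun x => x - y) ?_ ?_
      · intro x hx
        have hx' := Finset.mem_filter.mp (Finset.mem_coe.mp hx)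
        exact Finset.mem_coe.mpr (h x hx'.1 y hy.1 (hx'.2.trans hy.2.symm))
      · intro a _ b _ hab
        exact sub_left_injective hab
    · rw [Finset.not_nonempty_iff_eq_empty] at hne
      rw [hne]; simp

/-- Pigeonhole: syndeticity of Bohr sets. -/
lemma syndetic {Z : Type*} [AddCommGroup Z] {m : ℕ} (f : Z →+ (Fin m → ℝ)) {t : ℝ} (ht : 0 < t) :
    ∃ S : Finset Z, ∀ P : Z, ∃ r ∈ S, NZ t (f (P - r)) := by
  classical
  obtain ⟨N, hN⟩ := exists_nat_gt (1 / t)
  have hN0 : (0 : ℝ) < N := lt_trans (by positivity) hN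
  have hNt : 1 / (N : ℝ) < t := by
    rw [div_lt_iff₀ hN0]; rw [div_lt_iff₀ ht] at hN; linarith
  let cls : Z → (Fin m → Fin N) := fun z j =>
    ⟨⌊Int.fract (f z j) * N⌋₊, by
      have h1 : Int.fract (f z j) * N < N := by
        have := Int.fract_lt_one (f z j)
        nlinarith
      exact (Nat.floor_lt (by have := Int.fract_nonneg (f z j); positivity)).mpr h1⟩
  let rep : (Fin m → Fin N) → Z := fun c => if h : ∃ z, cls z = c then h.choose else 0
  refine ⟨Finset.univ.image rep, fun P => ⟨rep (cls P), by simp, ?_⟩⟩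
  have hex : ∃ z, cls z = cls P := ⟨P, rfl⟩
  have hrep : cls (rep (cls P)) = cls P := by
    show cls (if h : ∃ z, cls z = cls P then h.choose else 0) = cls P
    rw [dif_pos hex]
    exact hex.choose_spec
  intro j
  have hj : ⌊Int.fract (f (rep (cls P)) j) * N⌋₊ = ⌊Int.fract (f P j) * N⌋₊ := by
    have := congrFun hrep j
    exact congrArg Fin.val this
  set z := rep (cls P)
  refine ⟨⌊f P j⌋ - ⌊f z j⌋, ?_⟩
  rw [map_sub, Pi.sub_apply]
  push_cast
  have h1 : f P j - f z j - (⌊f P j⌋ - ⌊f z j⌋) = Int.fract (f P j) - Int.fract (f z j) := by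
    rw [Int.fract, Int.fract]; ring
  rw [h1]
  have ha := Nat.floor_le (show 0 ≤ Int.fract (f P j) * N by
    have := Int.fract_nonneg (f P j); positivity)
  have hb := Nat.lt_floor_add_one (Int.fract (f P j) * N)
  have hc := Nat.floor_le (show 0 ≤ Int.fract (f z j) * N by
    have := Int.fract_nonneg (f z j); positivity)
  have hd := Nat.lt_floor_add_one (Int.fract (f z j) * N)
  rw [hj] at hc hd
  have h2 : |(Int.fract (f P j) - Int.fract (f z j)) * N| < 1 := by
    rw [sub_mul, abs_lt]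
    constructor <;> linarith
  rw [abs_mul, abs_of_pos hN0] at h2
  have h3 : |Int.fract (f P j) - Int.fract (f z j)| < 1 / N := by
    rw [lt_div_iff₀ hN0]; exact h2
  exact h3.trans hNt

/-- Number of integers in a closed interval. -/
lemma card_int_le (y h : ℝ) (hh : 0 ≤ h) (S : Finset ℤ) (hS : ∀ k ∈ S, |(k : ℝ) - y| ≤ h) :
    (S.card : ℝ) ≤ 2 * h + 1 := by
  have hsub : S ⊆ Finset.Icc ⌈y - h⌉ ⌊y + h⌋ := by
    intro k hk
    have := abs_le.mp (hS k hk)
    rw [Finset.mem_Icc]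
    exact ⟨Int.ceil_le.mpr (by linarith [this.1]), Int.le_floor.mpr (by linarith [this.2])⟩
  have hc := Finset.card_le_card hsub
  rw [Int.card_Icc] at hc
  have h1 : ((⌊y + h⌋ + 1 - ⌈y - h⌉).toNat : ℝ) ≤ 2 * h + 1 := by
    rcases le_or_gt 0 (⌊y + h⌋ + 1 - ⌈y - h⌉) with h0 | h0
    · have : ((⌊y + h⌋ + 1 - ⌈y - h⌉).toNat : ℝ) = ((⌊y + h⌋ + 1 - ⌈y - h⌉ : ℤ) : ℝ) := by
        exact_mod_cast Int.toNat_of_nonneg h0
      rw [this]
      push_cast
      linarith [Int.floor_le (y + h), Int.le_ceil (y - h)]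
    · rw [Int.toNat_of_nonpos h0.le]
      simp; positivity
  exact le_trans (by exact_mod_cast hc) h1

/-- Number of integer vectors in a box. -/
lemma card_box_le {d : ℕ} (y : Fin d → ℝ) (h : ℝ) (hh : 0 ≤ h) (S : Finset (Fin d → ℤ))
    (hS : ∀ k ∈ S, ∀ i, |(k i : ℝ) - y i| ≤ h) :
    (S.card : ℝ) ≤ (2 * h + 1) ^ d := by
  classical
  have hsub : S ⊆ Fintype.piFinset (fun i => S.image (fun k => k i)) := by
    intro k hk
    rw [Fintype.mem_piFinset]
    intro i
    exact Finset.mem_image_of_mem _ hk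
  have hc := Finset.card_le_card hsub
  rw [Fintype.card_piFinset] at hc
  calc (S.card : ℝ) ≤ ∏ i : Fin d, (((S.image (fun k => k i)).card : ℕ) : ℝ) := by
        exact_mod_cast hc
    _ ≤ ∏ _i : Fin d, (2 * h + 1) := by
        refine Finset.prod_le_prod (fun i _ => by positivity) fun i _ => ?_
        refine card_int_le (y i) h hh _ ?_
        intro k hk
        obtain ⟨v, hv, rfl⟩ := Finset.mem_image.mp hk
        exact hS v hv i
    _ = (2 * h + 1) ^ d := by simp

end Pool.Agent.Helper93.JD
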