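import Pool.Agent.Helper93.JD.Layer

set_option autoImplicit false

namespace Pool.Agent.Helper93.JD

open Finset

variable {d m : ℕ}

/-- The gauge of the convex body. -/
noncomputable def nu (c : Fin d → ℝ) (ρ : ℝ) (u : ℤ × (Fin d → ℤ)) : ℝ :=
  max |(u.1 : ℝ)| (‖(fun i => (u.2 i : ℝ) - u.1 * c i : Fin d → ℝ)‖ / ρ)

lemma nu_le_iff {c : Fin d → ℝ} {ρ : ℝ} (hρ : 0 < ρ) {σ : ℝ} (hσ : 0 ≤ σ)
    {u : ℤ × (Fin d → ℤ)} : nu c ρ u ≤ σ ↔ InK c ρ σ u := by
  rw [nu, max_le_iff, div_le_iff₀ hρ, pi_norm_le_iff_of_nonneg (by positivity), InK]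
  simp only [Real.norm_eq_abs, mul_comm]

lemma one_le_nu {c : Fin d → ℝ} {ρ : ℝ} (hρ : 0 < ρ) (hρ1 : ρ ≤ 1)
    {u : ℤ × (Fin d → ℤ)} (hu : u ≠ 0) : 1 ≤ nu c ρ u := by
  by_cases h0 : u.1 = 0
  · have hu2 : u.2 ≠ 0 := by
      intro h; exact hu (Prod.ext h0 h)
    obtain ⟨i, hi⟩ := Function.ne_iff.mp hu2
    refine le_trans ?_ (le_max_right _ _)
    rw [le_div_iff₀ hρ]
    have h1 := norm_le_pi_norm (fun i => (u.2 i : ℝ) - u.1 * c i : Fin d → ℝ) i
    refine le_trans ?_ h1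
    rw [h0]
    simp only [Int.cast_zero, zero_mul, sub_zero, Real.norm_eq_abs]
    have h2 : (1 : ℝ) ≤ |(u.2 i : ℝ)| := by
      have : 1 ≤ |u.2 i| := Int.one_le_abs hi
      exact_mod_cast this
    linarith
  · refine le_trans ?_ (le_max_left _ _)
    have : 1 ≤ |u.1| := Int.one_le_abs h0
    exact_mod_cast this

/-- Counting in the gauge. -/
lemma count_nu {A0 : Fin m → ℝ} {A1 : Fin d → Fin m → ℝ} {c : Fin d → ℝ}
    (hc : ∀ i, |c i| ≤ 1) {ρ : ℝ} (hρ : 0 < ρ) (hρ1 : ρ ≤ 1) {τ : ℝ} {R : ℕ}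
    (hR1 : 1 ≤ R) {CG s' : ℝ} (hCG : 0 ≤ CG) (hs' : 0 < s')
    (hgr : ∀ σ : ℝ, 1 ≤ σ → σ ≤ 2 * R → ((HomF A0 A1 c ρ σ (2 * τ)).card : ℝ) ≤
      CG * (σ / R) ^ s' * ((HomF A0 A1 c ρ R τ).card : ℝ)) (σ : ℝ) (hσ : 0 < σ) :
    (((((HomF A0 A1 c ρ (2 * R) (2 * τ)).erase 0).filter (fun u => nu c ρ u ≤ σ)).card : ℕ) : ℝ)
      ≤ (CG * (HomF A0 A1 c ρ R τ).card * (R : ℝ) ^ (-s')) * σ ^ s' := by
  classical
  have hR0 : (0 : ℝ) < R := by exact_mod_cast hR1
  set N : ℝ := ((HomF A0 A1 c ρ R τ).card : ℝ) with hN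
  have hN0 : 0 ≤ N := by positivity
  have hre : ∀ x : ℝ, 0 < x → CG * (x / R) ^ s' * N = CG * N * (R : ℝ) ^ (-s') * x ^ s' := by
    intro x hx
    rw [Real.div_rpow hx.le hR0.le, Real.rpow_neg hR0.le]; ring
  rcases lt_or_ge σ 1 with h1 | h1
  · have : ((HomF A0 A1 c ρ (2 * R) (2 * τ)).erase 0).filter (fun u => nu c ρ u ≤ σ) = ∅ := by
      rw [Finset.filter_eq_empty_iff]
      intro u hu hle
      have := one_le_nu (c := c) hρ hρ1 (Finset.ne_of_mem_erase hu)
      linarith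
    rw [this]
    simp only [Finset.card_empty, Nat.cast_zero]
    positivity
  · rcases le_or_gt σ (2 * R) with h2 | h2
    · have hsub : ((HomF A0 A1 c ρ (2 * R) (2 * τ)).erase 0).filter (fun u => nu c ρ u ≤ σ) ⊆
          HomF A0 A1 c ρ σ (2 * τ) := by
        intro u hu
        rw [Finset.mem_filter, Finset.mem_erase, mem_HomF hc hρ1] at hu
        rw [mem_HomF hc hρ1]
        exact ⟨(nu_le_iff hρ hσ.le).mp hu.2, hu.1.2.2⟩
      have h3 : (((((HomF A0 A1 c ρ (2 * R) (2 * τ)).erase 0).filter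
          (fun u => nu c ρ u ≤ σ)).card : ℕ) : ℝ) ≤ ((HomF A0 A1 c ρ σ (2 * τ)).card : ℝ) := by
        exact_mod_cast Finset.card_le_card hsub
      rw [← hre σ hσ]
      exact h3.trans (hgr σ h1 h2)
    · have h2R : (1 : ℝ) ≤ 2 * R := by
        have : (1 : ℝ) ≤ R := by exact_mod_cast hR1
        linarith
      have hsub : ((HomF A0 A1 c ρ (2 * R) (2 * τ)).erase 0).filter (fun u => nu c ρ u ≤ σ) ⊆
          HomF A0 A1 c ρ (2 * R) (2 * τ) :=
        (Finset.filter_subset _ _).trans (Finset.erase_subset _ _)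
      have h3 : (((((HomF A0 A1 c ρ (2 * R) (2 * τ)).erase 0).filter
          (fun u => nu c ρ u ≤ σ)).card : ℕ) : ℝ) ≤ ((HomF A0 A1 c ρ (2 * R) (2 * τ)).card : ℝ) := by
        exact_mod_cast Finset.card_le_card hsub
      rw [← hre σ hσ]
      refine h3.trans ((hgr (2 * R) h2R le_rfl).trans ?_)
      have h4 : (2 * (R : ℝ) / R) ^ s' ≤ (σ / R) ^ s' :=
        Real.rpow_le_rpow (by positivity) (div_le_div_of_nonneg_right h2.le hR0.le) hs'.le
      gcongr

/-- The point attached to `w` and the anchor `(a₀,a')`. -/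
noncomputable def pt (a0 : ℝ) (a' : Fin d → ℝ) (w : ℤ × (Fin d → ℤ)) : Fin d → ℝ :=
  fun i => (a' i + w.2 i) / (a0 + w.1)

lemma denom_bounds {c : Fin d → ℝ} {ρ R a0 : ℝ} (h8 : 8 * R ≤ a0) (h9 : a0 ≤ 9 * R)
    {w : ℤ × (Fin d → ℤ)} (hw : InK c ρ R w) : 7 * R ≤ a0 + w.1 ∧ a0 + w.1 ≤ 10 * R := by
  have := abs_le.mp hw.1
  constructor <;> linarith [this.1, this.2]

lemma pt_close {c : Fin d → ℝ} {ρ R a0 : ℝ} (hρ : 0 < ρ) (hR : 0 < R) (h8 : 8 * R ≤ a0)
    (h9 : a0 ≤ 9 * R) {a' : Fin d → ℝ} (ha' : ∀ i, |a' i - a0 * c i| ≤ ρ * a0 / 2)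
    {w : ℤ × (Fin d → ℤ)} (hw : InK c ρ R w) (i : Fin d) :
    |pt a0 a' w i - c i| ≤ 5 / 7 * ρ := by
  have hD : 0 < a0 + w.1 := by linarith [(denom_bounds h8 h9 hw).1]
  have h1 : pt a0 a' w i - c i = ((a' i - a0 * c i) + (w.2 i - w.1 * c i)) / (a0 + w.1) := by
    rw [pt]; field_simp; ring
  rw [h1, abs_div, abs_of_pos hD, div_le_iff₀ hD]
  refine (abs_add_le _ _).trans ?_
  have h2 := ha' i
  have h3 := hw.2 i
  have h4 : a0 - R ≤ a0 + w.1 := by linarith [(abs_le.mp hw.1).1]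
  have h5 : 5 / 7 * ρ * (a0 - R) ≤ 5 / 7 * ρ * (a0 + w.1) :=
    mul_le_mul_of_nonneg_left h4 (by positivity)
  have h6 : ρ * a0 / 2 + ρ * R ≤ 5 / 7 * ρ * (a0 - R) := by nlinarith
  linarith

lemma claimA {c : Fin d → ℝ} {ρ : ℝ} (hρ : 0 < ρ) (hρ1 : ρ ≤ 1) {R : ℝ}
    (hR : 0 < R) {α : Type*} [DecidableEq α] (A : Finset α) (a' : α → Fin d → ℝ) {a0 : ℝ}
    (h8 : 8 * R ≤ a0) (h9 : a0 ≤ 9 * R)
    (hclose : ∀ a ∈ A, ∀ i, |a' a i - a0 * c i| ≤ ρ * a0 / 2) {d' : ℝ} (hd'0 : 0 < d')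
    (hd' : d' ≤ d) {h0 : ℝ}
    (AC : ∀ (y : Fin d → ℝ) (h : ℝ), h0 ≤ h →
      ((A.filter (fun a => ∀ i, |a' a i - y i| ≤ h)).card : ℝ) ≤
        3 ^ d * (h / (ρ * R)) ^ d' * A.card)
    {w w2 : ℤ × (Fin d → ℤ)} (hw : InK c ρ R w) (hw2 : InK c ρ R w2) (hne : w2 ≠ w) {l : ℝ}
    (hl : 0 < l) (hh0 : h0 ≤ 10 * ρ * l) :
    ((A.filter (fun a => ∀ i, |pt a0 (a' a) w2 i - pt a0 (a' a) w i| ≤ l * ρ / (10 * R))).card : ℝ)
      ≤ 60 ^ d * min 1 ((l / nu c ρ (w2 - w)) ^ d') * A.card := by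
  classical
  set v := nu c ρ (w2 - w) with hv
  have hv1 : 1 ≤ v := one_le_nu hρ hρ1 (sub_ne_zero.mpr hne)
  have hv0 : 0 < v := by linarith
  have hv2 : v ≤ 2 * R := by
    rw [hv, nu_le_iff hρ (by positivity)]
    have := hw2.sub hw
    rwa [← two_mul] at this
  have h60 : (1 : ℝ) ≤ 60 ^ d * (1 / 2) ^ d := by
    rw [← mul_pow]; exact one_le_pow₀ (by norm_num)
  rcases le_or_gt v (2 * l) with hvl | hvl
  · -- trivial bound
    have h1 : (1 / 2 : ℝ) ^ d ≤ min 1 ((l / v) ^ d') := by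
      refine le_min (pow_le_one₀ (by norm_num) (by norm_num)) ?_
      have h2 : (1 / 2 : ℝ) ≤ l / v := by
        rw [le_div_iff₀ hv0]; linarith
      calc (1 / 2 : ℝ) ^ d = (1 / 2 : ℝ) ^ (d : ℝ) := (Real.rpow_natCast _ _).symm
        _ ≤ (1 / 2 : ℝ) ^ d' :=
            Real.rpow_le_rpow_of_exponent_ge (by norm_num) (by norm_num) hd'
        _ ≤ (l / v) ^ d' := Real.rpow_le_rpow (by norm_num) h2 hd'0.le
    calc ((A.filter (fun a => ∀ i, |pt a0 (a' a) w2 i - pt a0 (a' a) w i| ≤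
          l * ρ / (10 * R))).card : ℝ) ≤ 1 * A.card := by
          rw [one_mul]; exact_mod_cast Finset.card_le_card (Finset.filter_subset _ _)
      _ ≤ 60 ^ d * min 1 ((l / v) ^ d') * A.card := by
          refine mul_le_mul_of_nonneg_right ?_ (by positivity)
          refine h60.trans (mul_le_mul_of_nonneg_left h1 (by positivity))
  · have hu0 : ∀ a ∈ A, (∀ i, |pt a0 (a' a) w2 i - pt a0 (a' a) w i| ≤ l * ρ / (10 * R)) →
        ∀ i, |((w2 - w).2 i : ℝ) - (w2 - w).1 * pt a0 (a' a) w i| ≤ l * ρ := by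
      intro a _ hcond i
      have hD := denom_bounds h8 h9 hw
      have hD2 := denom_bounds h8 h9 hw2
      have hDp : 0 < a0 + w.1 := by linarith [hD.1]
      have hDp2 : 0 < a0 + w2.1 := by linarith [hD2.1]
      have h1 : ((w2 - w).2 i : ℝ) - (w2 - w).1 * pt a0 (a' a) w i
          = (a0 + w2.1) * (pt a0 (a' a) w2 i - pt a0 (a' a) w i) := by
        rw [pt, pt, Prod.snd_sub, Prod.fst_sub, Pi.sub_apply]
        push_cast
        field_simp
        ring
      rw [h1, abs_mul, abs_of_pos hDp2]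
      calc (a0 + w2.1) * |pt a0 (a' a) w2 i - pt a0 (a' a) w i|
          ≤ (10 * R) * (l * ρ / (10 * R)) :=
            mul_le_mul hD2.2 (hcond i) (abs_nonneg _) (by positivity)
        _ = l * ρ := by field_simp
    have hclose2 : ∀ a ∈ A, ∀ i, |pt a0 (a' a) w i - c i| ≤ ρ := by
      intro a ha i
      have := pt_close hρ hR h8 h9 (hclose a ha) hw i
      linarith
    rcases lt_or_ge |((w2 - w).1 : ℝ)| (v / 2) with hsm | hbig
    · -- empty
      have hempty : A.filter (fun a => ∀ i, |pt a0 (a' a) w2 i - pt a0 (a' a) w i| ≤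
          l * ρ / (10 * R)) = ∅ := by
        rw [Finset.filter_eq_empty_iff]
        intro a ha hcond
        have h1 := hu0 a ha hcond
        have h2 : nu c ρ (w2 - w) ≤ max (v / 2) (l + v / 2) := by
          rw [nu]
          refine max_le_max hsm.le ?_
          rw [div_le_iff₀ hρ, pi_norm_le_iff_of_nonneg (by positivity)]
          intro i
          rw [Real.norm_eq_abs]
          have h3 : ((w2 - w).2 i : ℝ) - (w2 - w).1 * c i
              = (((w2 - w).2 i : ℝ) - (w2 - w).1 * pt a0 (a' a) w i)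
                + (w2 - w).1 * (pt a0 (a' a) w i - c i) := by ring
          rw [h3]
          refine (abs_add_le _ _).trans ?_
          rw [abs_mul, add_mul]
          refine add_le_add (h1 i) ?_
          exact mul_le_mul hsm.le (hclose2 a ha i) (abs_nonneg _) (by positivity)
        rw [← hv] at h2
        have h3 : max (v / 2) (l + v / 2) < v := max_lt (by linarith) (by linarith)
        linarith
      rw [hempty]
      simp only [Finset.card_empty, Nat.cast_zero]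
      positivity
    · have hu0pos : 0 < |((w2 - w).1 : ℝ)| := by linarith
      have hu0ne : ((w2 - w).1 : ℝ) ≠ 0 := abs_pos.mp hu0pos
      set y : Fin d → ℝ := fun i => (w2 - w).2 i * (a0 + w.1) / (w2 - w).1 - w.2 i with hy
      have hsub : A.filter (fun a => ∀ i, |pt a0 (a' a) w2 i - pt a0 (a' a) w i| ≤
          l * ρ / (10 * R)) ⊆ A.filter (fun a => ∀ i, |a' a i - y i| ≤ 20 * R * l * ρ / v) := by
        intro a ha
        rw [Finset.mem_filter] at ha ⊢
        refine ⟨ha.1, fun i => ?_⟩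
        have h1 := hu0 a ha.1 ha.2 i
        have hD := denom_bounds h8 h9 hw
        have hDp : 0 < a0 + w.1 := by linarith [hD.1]
        have h2 : a' a i - y i = -((a0 + w.1) / (w2 - w).1) *
            (((w2 - w).2 i : ℝ) - (w2 - w).1 * pt a0 (a' a) w i) := by
          rw [hy, pt]
          field_simp
          ring
        rw [h2, abs_mul, abs_neg, abs_div, abs_of_pos hDp]
        calc (a0 + w.1) / |((w2 - w).1 : ℝ)| *
              |((w2 - w).2 i : ℝ) - (w2 - w).1 * pt a0 (a' a) w i|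
            ≤ (10 * R) / (v / 2) * (l * ρ) := by
              refine mul_le_mul ?_ h1 (abs_nonneg _) (by positivity)
              exact div_le_div₀ (by positivity) hD.2 (by positivity) hbig
          _ = 20 * R * l * ρ / v := by field_simp; ring
      have h3 : h0 ≤ 20 * R * l * ρ / v := by
        refine hh0.trans ?_
        rw [le_div_iff₀ hv0]
        have : 10 * ρ * l * v ≤ 10 * ρ * l * (2 * R) := mul_le_mul_of_nonneg_left hv2 (by positivity)
        linarith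
      have h4 := AC y _ h3
      have h5 : ((A.filter (fun a => ∀ i, |pt a0 (a' a) w2 i - pt a0 (a' a) w i| ≤
          l * ρ / (10 * R))).card : ℝ) ≤
          ((A.filter (fun a => ∀ i, |a' a i - y i| ≤ 20 * R * l * ρ / v)).card : ℝ) := by
        exact_mod_cast Finset.card_le_card hsub
      refine h5.trans (h4.trans ?_)
      refine mul_le_mul_of_nonneg_right ?_ (by positivity)
      have h6 : 20 * R * l * ρ / v / (ρ * R) = 20 * (l / v) := by field_simp
      have h7 : (l / v) ^ d' ≤ 1 := Real.rpow_le_one (by positivity) (by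
        rw [div_le_one hv0]; linarith) hd'0.le
      rw [h6, Real.mul_rpow (by norm_num) (by positivity), min_eq_right h7]
      have h8' : (20 : ℝ) ^ d' ≤ 20 ^ d := by
        rw [← Real.rpow_natCast]
        exact Real.rpow_le_rpow_of_exponent_le (by norm_num) hd'
      calc (3 : ℝ) ^ d * (20 ^ d' * (l / v) ^ d') ≤ 3 ^ d * (20 ^ d * (l / v) ^ d') := by gcongr
        _ = 60 ^ d * (l / v) ^ d' := by
            rw [← mul_assoc, ← mul_pow]; norm_num

/-- The constant of the cluster lemma. -/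
noncomputable def CT (d m : ℕ) (s' s'' d' : ℝ) : ℝ :=
  60 ^ d * (2 ^ d' / (1 - 2 ^ (s' - d'))) * (5 ^ (d + m + 1) * 2 ^ s') * 40 ^ s' /
    (1 - 2 ^ (s'' - s'))

lemma CT_pos (d m : ℕ) {s' s'' d' : ℝ} (h1 : s'' < s') (h2 : s' < d') : 0 < CT d m s' s'' d' := by
  have e1 : (2 : ℝ) ^ (s' - d') < 1 := Real.rpow_lt_one_of_one_lt_of_neg (by norm_num) (by linarith)
  have e2 : (2 : ℝ) ^ (s'' - s') < 1 := Real.rpow_lt_one_of_one_lt_of_neg (by norm_num) (by linarith)
  rw [CT]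
  have e3 : (0 : ℝ) < 1 - 2 ^ (s' - d') := by linarith
  have e4 : (0 : ℝ) < 1 - 2 ^ (s'' - s') := by linarith
  positivity

open Classical in
/-- The cluster lemma: some anchor is good for half of the points. -/
lemma cluster {A0 : Fin m → ℝ} {A1 : Fin d → Fin m → ℝ} {c : Fin d → ℝ}
    (hc : ∀ i, |c i| ≤ 1) {ρ : ℝ} (hρ : 0 < ρ) (hρ1 : ρ ≤ 1) {τ : ℝ} {R : ℕ}
    (hR1 : 1 ≤ R) {s' s'' d' : ℝ} (hs''0 : 0 < s'') (hs'' : s'' < s') (hs'd' : s' < d')
    (hd' : d' ≤ d)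
    (hgr : ∀ σ : ℝ, 1 ≤ σ → σ ≤ 2 * R → ((HomF A0 A1 c ρ σ (2 * τ)).card : ℝ) ≤
      5 ^ (d + m + 1) * 2 ^ s' * (σ / R) ^ s' * ((HomF A0 A1 c ρ R τ).card : ℝ))
    {α : Type*} [DecidableEq α] (A : Finset α) (hA : A.Nonempty) (a' : α → Fin d → ℝ) {a0 : ℝ}
    (h8 : 8 * (R : ℝ) ≤ a0) (h9 : a0 ≤ 9 * R)
    (hclose : ∀ a ∈ A, ∀ i, |a' a i - a0 * c i| ≤ ρ * a0 / 2) {h0 : ℝ}
    (AC : ∀ (y : Fin d → ℝ) (h : ℝ), h0 ≤ h →
      ((A.filter (fun a => ∀ i, |a' a i - y i| ≤ h)).card : ℝ) ≤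
        3 ^ d * (h / (ρ * R)) ^ d' * A.card) (J : ℕ)
    (hJ : ∀ j < J, h0 ≤ 400 * ρ * R / 2 ^ j) :
    ∃ a ∈ A, ∃ W ⊆ HomF A0 A1 c ρ R τ, (HomF A0 A1 c ρ R τ).card ≤ 2 * W.card ∧
      ∀ w ∈ W, ∀ j < J, (2 ^ s'') ^ j *
        ((((HomF A0 A1 c ρ R τ).erase w).filter (fun w2 =>
          ∀ i, |pt a0 (a' a) w2 i - pt a0 (a' a) w i| ≤ 4 * ρ / 2 ^ j)).card : ℝ) ≤
        2 * (CT d m s' s'' d' * (HomF A0 A1 c ρ R τ).card) := by
  have hR0 : (0 : ℝ) < R := by exact_mod_cast hR1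
  have hs'0 : 0 < s' := by linarith
  set H := HomF A0 A1 c ρ R τ with hH
  set H2 := HomF A0 A1 c ρ (2 * R) (2 * τ) with hH2
  set N : ℝ := (H.card : ℝ) with hN
  have hN0 : 0 ≤ N := by positivity
  have e1 : (2 : ℝ) ^ (s' - d') < 1 := Real.rpow_lt_one_of_one_lt_of_neg (by norm_num) (by linarith)
  have e2 : (2 : ℝ) ^ (s'' - s') < 1 := Real.rpow_lt_one_of_one_lt_of_neg (by norm_num) (by linarith)
  have e3 : (0 : ℝ) < 1 - 2 ^ (s' - d') := by linarith
  have e4 : (0 : ℝ) < 1 - 2 ^ (s'' - s') := by linarith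
  set CG : ℝ := 5 ^ (d + m + 1) * 2 ^ s' with hCG
  set Cl : ℝ := 2 ^ d' / (1 - 2 ^ (s' - d')) with hCl
  have hCl0 : 0 < Cl := by positivity
  have hCG0 : 0 < CG := by positivity
  let X : ℕ → α → (ℤ × (Fin d → ℤ)) → ℝ := fun j a w =>
    (((H.erase w).filter (fun w2 =>
          ∀ i, |pt a0 (a' a) w2 i - pt a0 (a' a) w i| ≤ 4 * ρ / 2 ^ j)).card : ℝ)
  let T : ℕ → ℝ := fun j => (60 ^ d * Cl * CG * 40 ^ s' * N) * (2 ^ (-s')) ^ j
  have hT : ∀ j < J, ∀ w ∈ H, ∑ a ∈ A, X j a w ≤ T j * A.card := by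
    intro j hj w hw
    have hwK := ((mem_HomF hc hρ1).mp hw)
    set l : ℝ := 40 * R / 2 ^ j with hl
    have hl0 : 0 < l := by positivity
    have hlr : l * ρ / (10 * R) = 4 * ρ / 2 ^ j := by rw [hl]; field_simp; ring
    calc ∑ a ∈ A, X j a w
        = ∑ w2 ∈ H.erase w, ((A.filter (fun a =>
            ∀ i, |pt a0 (a' a) w2 i - pt a0 (a' a) w i| ≤ l * ρ / (10 * R))).card : ℝ) := by
          simp only [X, Finset.card_filter, hlr]
          push_cast
          rw [Finset.sum_comm]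
      _ ≤ ∑ w2 ∈ H.erase w, 60 ^ d * min 1 ((l / nu c ρ (w2 - w)) ^ d') * A.card := by
          refine Finset.sum_le_sum fun w2 hw2 => ?_
          have hw2' := (mem_HomF hc hρ1).mp (Finset.mem_of_mem_erase hw2)
          exact claimA hρ hρ1 hR0 A a' h8 h9 hclose (by linarith) hd' AC hwK.1 hw2'.1
            (Finset.ne_of_mem_erase hw2) hl0 (by
              have := hJ j hj
              refine this.trans (le_of_eq ?_)
              rw [hl]; ring)
      _ = (60 ^ d * A.card) * ∑ w2 ∈ H.erase w, min 1 ((l / nu c ρ (w2 - w)) ^ d') := by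
          rw [Finset.mul_sum]; exact Finset.sum_congr rfl fun _ _ => by ring
      _ = (60 ^ d * A.card) * ∑ u ∈ (H.erase w).image (fun w2 => w2 - w),
            min 1 ((l / nu c ρ u) ^ d') := by
          rw [Finset.sum_image (fun x _ y _ h => sub_left_injective h)]
      _ ≤ (60 ^ d * A.card) * ∑ u ∈ H2.erase 0, min 1 ((l / nu c ρ u) ^ d') := by
          refine mul_le_mul_of_nonneg_left ?_ (by positivity)
          refine Finset.sum_le_sum_of_subset_of_nonneg ?_ ?_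
          · intro u hu
            obtain ⟨w2, hw2, rfl⟩ := Finset.mem_image.mp hu
            have hw2' := (mem_HomF hc hρ1).mp (Finset.mem_of_mem_erase hw2)
            rw [Finset.mem_erase, hH2, mem_HomF hc hρ1]
            refine ⟨sub_ne_zero.mpr (Finset.ne_of_mem_erase hw2), ?_, ?_⟩
            · have := hw2'.1.sub hwK.1
              rwa [← two_mul] at this
            · have := hw2'.2.sub hwK.2
              rwa [← two_mul, ← map_sub] at this
          · intro u hu _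
            have := one_le_nu (c := c) hρ hρ1 (Finset.ne_of_mem_erase hu)
            positivity
      _ ≤ (60 ^ d * A.card) * (Cl * (CG * N * (R : ℝ) ^ (-s')) * l ^ s') := by
          refine mul_le_mul_of_nonneg_left ?_ (by positivity)
          refine layer (H2.erase 0) (nu c ρ) (by positivity) hs'0 hs'd' ?_ ?_ hl0
          · exact count_nu hc hρ hρ1 hR1 hCG0.le hs'0 hgr
          · intro u hu
            have := one_le_nu (c := c) hρ hρ1 (Finset.ne_of_mem_erase hu)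
            linarith
      _ = T j * A.card := by
          have h1 : l ^ s' = 40 ^ s' * (R : ℝ) ^ s' * (2 ^ (-s')) ^ j := by
            rw [hl, Real.div_rpow (by positivity) (by positivity),
              Real.mul_rpow (by norm_num) hR0.le, div_eq_mul_inv]
            congr 1
            rw [← Real.rpow_natCast, ← Real.rpow_mul (by norm_num), ← Real.rpow_neg (by norm_num),
              ← Real.rpow_natCast, ← Real.rpow_mul (by norm_num)]
            congr 1; ring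
          have h2 : (R : ℝ) ^ (-s') * (R : ℝ) ^ s' = 1 := by
            rw [← Real.rpow_add hR0]; simp
          simp only [T]
          rw [h1]
          calc (60 ^ d * (A.card : ℝ)) * (Cl * (CG * N * (R : ℝ) ^ (-s')) *
                (40 ^ s' * (R : ℝ) ^ s' * (2 ^ (-s')) ^ j))
              = (60 ^ d * Cl * CG * 40 ^ s' * N) * (2 ^ (-s')) ^ j * A.card *
                ((R : ℝ) ^ (-s') * (R : ℝ) ^ s') := by ring
            _ = _ := by rw [h2, mul_one]
  have hTT : ∑ j ∈ Finset.range J, (2 ^ s'') ^ j * T j ≤ CT d m s' s'' d' * N := by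
    calc ∑ j ∈ Finset.range J, (2 ^ s'') ^ j * T j
        = (60 ^ d * Cl * CG * 40 ^ s' * N) * ∑ j ∈ Finset.range J, ((2 : ℝ) ^ (s'' - s')) ^ j := by
          rw [Finset.mul_sum]
          refine Finset.sum_congr rfl fun j _ => ?_
          have : (2 : ℝ) ^ (s'' - s') = 2 ^ s'' * 2 ^ (-s') := by
            rw [← Real.rpow_add (by norm_num)]; ring_nf
          rw [this, mul_pow]; simp only [T]; ring
      _ ≤ (60 ^ d * Cl * CG * 40 ^ s' * N) * (1 / (1 - 2 ^ (s'' - s'))) :=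
          mul_le_mul_of_nonneg_left (sum_geom_le (by positivity) e2 J) (by positivity)
      _ = CT d m s' s'' d' * N := by rw [CT]; ring
  exact average A hA H J X (fun j a w => by positivity) (fun j => (2 ^ s'') ^ j)
    (fun j => by positivity) T hT hTT (mul_nonneg (CT_pos d m hs'' hs'd').le hN0)

end Pool.Agent.Helper93.JD
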