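import Pool.Agent.Helper93.JD.Params

set_option autoImplicit false

namespace Pool.Agent.Helper93.JD

open Finset

lemma sum_geom_le {r : ℝ} (h0 : 0 ≤ r) (h1 : r < 1) (n : ℕ) :
    ∑ i ∈ Finset.range n, r ^ i ≤ 1 / (1 - r) := by
  have h := (summable_geometric_of_lt_one h0 h1).sum_le_tsum (Finset.range n)
    (fun i _ => by positivity)
  rw [tsum_geometric_of_lt_one h0 h1] at h
  rwa [one_div]

/-- Dyadic layering. -/
lemma layer {U : Type*} (S : Finset U) (ν : U → ℝ) {K p q : ℝ} (hK : 0 ≤ K) (hp : 0 < p)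
    (hpq : p < q)
    (hcount : ∀ σ : ℝ, 0 < σ → ((S.filter (fun u => ν u ≤ σ)).card : ℝ) ≤ K * σ ^ p)
    (hν : ∀ u ∈ S, 0 < ν u) {l : ℝ} (hl : 0 < l) :
    ∑ u ∈ S, min 1 ((l / ν u) ^ q) ≤ (2 ^ q / (1 - 2 ^ (p - q))) * K * l ^ p := by
  classical
  have hex : ∀ u, ∃ n : ℕ, ν u ≤ 2 ^ n * l := by
    intro u
    obtain ⟨n, hn⟩ := pow_unbounded_of_one_lt (ν u / l) (one_lt_two)
    refine ⟨n, ?_⟩
    rw [div_lt_iff₀ hl] at hn
    exact hn.le
  let i : U → ℕ := fun u => Nat.find (hex u)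
  have hi1 : ∀ u, ν u ≤ 2 ^ (i u) * l := fun u => Nat.find_spec (hex u)
  have hi2 : ∀ u (n : ℕ), n < i u → 2 ^ n * l < ν u := fun u n hn =>
    not_le.mp (Nat.find_min (hex u) hn)
  have hr0 : (0 : ℝ) < 2 ^ (-q) := by positivity
  have hterm : ∀ u ∈ S, min 1 ((l / ν u) ^ q) ≤ 2 ^ q * (2 ^ (-q)) ^ (i u) := by
    intro u hu
    have hνu := hν u hu
    rcases Nat.eq_zero_or_pos (i u) with h0 | h0
    · rw [h0, pow_zero, mul_one]
      exact (min_le_left _ _).trans (Real.one_le_rpow (by norm_num) (by linarith))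
    · refine (min_le_right _ _).trans ?_
      have h1 := hi2 u (i u - 1) (by omega)
      have h2 : l / ν u ≤ (2 ^ (i u - 1 : ℕ))⁻¹ := by
        rw [div_le_iff₀ hνu, inv_mul_eq_div, le_div_iff₀ (by positivity)]
        linarith
      have h3 : (l / ν u) ^ q ≤ ((2 ^ (i u - 1 : ℕ))⁻¹ : ℝ) ^ q :=
        Real.rpow_le_rpow (by positivity) h2 (by linarith)
      refine h3.trans (le_of_eq ?_)
      rw [← Real.rpow_natCast, ← Real.rpow_neg (by norm_num), ← Real.rpow_mul (by norm_num),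
        ← Real.rpow_natCast (2 ^ (-q)), ← Real.rpow_mul (by norm_num), ← Real.rpow_add (by norm_num)]
      congr 1
      rw [Nat.cast_sub h0]; push_cast; ring
  obtain ⟨I, hI⟩ : ∃ I : ℕ, ∀ u ∈ S, i u ∈ Finset.range I := by
    refine ⟨S.sup i + 1, fun u hu => ?_⟩
    rw [Finset.mem_range]
    exact Nat.lt_succ_of_le (Finset.le_sup hu)
  have hpq1 : (2 : ℝ) ^ (p - q) < 1 := Real.rpow_lt_one_of_one_lt_of_neg (by norm_num) (by linarith)
  calc ∑ u ∈ S, min 1 ((l / ν u) ^ q) ≤ ∑ u ∈ S, 2 ^ q * (2 ^ (-q)) ^ (i u) :=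
        Finset.sum_le_sum hterm
    _ = ∑ n ∈ Finset.range I, ∑ u ∈ S with i u = n, 2 ^ q * (2 ^ (-q)) ^ (i u) :=
        (Finset.sum_fiberwise_of_maps_to hI _).symm
    _ ≤ ∑ n ∈ Finset.range I, (2 ^ q * K * l ^ p) * (2 ^ (p - q)) ^ n := by
        refine Finset.sum_le_sum fun n _ => ?_
        rw [Finset.sum_congr rfl (g := fun _ => 2 ^ q * ((2 : ℝ) ^ (-q)) ^ n) (by
          intro u hu; rw [(Finset.mem_filter.mp hu).2])]
        rw [Finset.sum_const, nsmul_eq_mul]
        have h1 : ((S.filter (fun u => i u = n)).card : ℝ) ≤ K * (2 ^ n * l) ^ p := by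
          refine le_trans ?_ (hcount (2 ^ n * l) (by positivity))
          have : S.filter (fun u => i u = n) ⊆ S.filter (fun u => ν u ≤ 2 ^ n * l) := by
            intro u hu
            rw [Finset.mem_filter] at hu ⊢
            refine ⟨hu.1, ?_⟩
            have := hi1 u
            rwa [hu.2] at this
          exact_mod_cast Finset.card_le_card this
        calc ((S.filter (fun u => i u = n)).card : ℝ) * (2 ^ q * (2 ^ (-q)) ^ n)
            ≤ (K * (2 ^ n * l) ^ p) * (2 ^ q * (2 ^ (-q)) ^ n) :=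
              mul_le_mul_of_nonneg_right h1 (by positivity)
          _ = (2 ^ q * K * l ^ p) * (2 ^ (p - q)) ^ n := by
              have h2 : ((2 : ℝ) ^ n * l) ^ p = (2 ^ p) ^ n * l ^ p := by
                rw [Real.mul_rpow (by positivity) hl.le, ← Real.rpow_natCast,
                  ← Real.rpow_mul (by norm_num), ← Real.rpow_natCast, ← Real.rpow_mul (by norm_num)]
                congr 2; ring
              have h3 : (2 : ℝ) ^ (p - q) = 2 ^ p * 2 ^ (-q) := by
                rw [← Real.rpow_add (by norm_num)]; ring_nf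
              rw [h2, h3, mul_pow]; ring
    _ = (2 ^ q * K * l ^ p) * ∑ n ∈ Finset.range I, (2 ^ (p - q)) ^ n := by
        rw [Finset.mul_sum]
    _ ≤ (2 ^ q * K * l ^ p) * (1 / (1 - 2 ^ (p - q))) := by
        refine mul_le_mul_of_nonneg_left (sum_geom_le (by positivity) hpq1 I) (by positivity)
    _ = (2 ^ q / (1 - 2 ^ (p - q))) * K * l ^ p := by ring

/-- Averaging: a good anchor and half of the points. -/
lemma average {α ω : Type*} (A : Finset α) (hA : A.Nonempty) (H : Finset ω) (J : ℕ)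
    (X : ℕ → α → ω → ℝ) (hX : ∀ j a w, 0 ≤ X j a w) (th : ℕ → ℝ) (hth : ∀ j, 0 ≤ th j)
    (T : ℕ → ℝ) {T0 : ℝ} (hT : ∀ j < J, ∀ w ∈ H, ∑ a ∈ A, X j a w ≤ T j * A.card)
    (hTT : ∑ j ∈ Finset.range J, th j * T j ≤ T0) (hT0 : 0 ≤ T0) :
    ∃ a ∈ A, ∃ W ⊆ H, H.card ≤ 2 * W.card ∧ ∀ w ∈ W, ∀ j < J, th j * X j a w ≤ 2 * T0 := by
  classical
  let Y : α → ω → ℝ := fun a w => ∑ j ∈ Finset.range J, th j * X j a w
  have hY0 : ∀ a w, 0 ≤ Y a w := fun a w =>
    Finset.sum_nonneg fun j _ => mul_nonneg (hth j) (hX j a w)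
  have hsum : ∑ a ∈ A, ∑ w ∈ H, Y a w ≤ ∑ _a ∈ A, (H.card : ℝ) * T0 := by
    rw [Finset.sum_comm]
    calc ∑ w ∈ H, ∑ a ∈ A, Y a w = ∑ w ∈ H, ∑ j ∈ Finset.range J, th j * ∑ a ∈ A, X j a w := by
          refine Finset.sum_congr rfl fun w _ => ?_
          simp only [Y]
          rw [Finset.sum_comm]
          exact Finset.sum_congr rfl fun j _ => (Finset.mul_sum _ _ _).symm
      _ ≤ ∑ _w ∈ H, (A.card : ℝ) * T0 := by
          refine Finset.sum_le_sum fun w hw => ?_
          calc ∑ j ∈ Finset.range J, th j * ∑ a ∈ A, X j a w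
              ≤ ∑ j ∈ Finset.range J, th j * (T j * A.card) := by
                refine Finset.sum_le_sum fun j hj => ?_
                exact mul_le_mul_of_nonneg_left (hT j (Finset.mem_range.mp hj) w hw) (hth j)
            _ = A.card * ∑ j ∈ Finset.range J, th j * T j := by
                rw [Finset.mul_sum]; exact Finset.sum_congr rfl fun j _ => by ring
            _ ≤ A.card * T0 := mul_le_mul_of_nonneg_left hTT (by positivity)
      _ = ∑ _a ∈ A, (H.card : ℝ) * T0 := by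
          rw [Finset.sum_const, Finset.sum_const, nsmul_eq_mul, nsmul_eq_mul]; ring
  obtain ⟨a, haA, ha⟩ := Finset.exists_le_of_sum_le hA hsum
  refine ⟨a, haA, H.filter (fun w => Y a w ≤ 2 * T0), Finset.filter_subset _ _, ?_, ?_⟩
  · by_contra hcon
    rw [not_le] at hcon
    set W := H.filter (fun w => Y a w ≤ 2 * T0) with hW
    set V := H.filter (fun w => ¬ Y a w ≤ 2 * T0) with hV
    have hWV : W.card + V.card = H.card := Finset.card_filter_add_card_filter_not _
    have hVH : H.card < 2 * V.card := by omega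
    have h1 : (V.card : ℝ) * (2 * T0) ≤ ∑ w ∈ V, Y a w := by
      rw [← nsmul_eq_mul]
      refine Finset.card_nsmul_le_sum _ _ _ fun w hw => ?_
      exact (not_le.mp (Finset.mem_filter.mp hw).2).le
    have hVne : V.Nonempty := by
      rw [← Finset.card_pos]; omega
    have h1' : (V.card : ℝ) * (2 * T0) < ∑ w ∈ V, Y a w := by
      rw [← nsmul_eq_mul, ← Finset.sum_const]
      exact Finset.sum_lt_sum_of_nonempty hVne fun w hw =>
        not_le.mp (Finset.mem_filter.mp hw).2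
    have h2 : ∑ w ∈ V, Y a w ≤ ∑ w ∈ H, Y a w :=
      Finset.sum_le_sum_of_subset_of_nonneg (Finset.filter_subset _ _) fun w _ _ => hY0 a w
    have h3 : (H.card : ℝ) * T0 ≤ (V.card : ℝ) * (2 * T0) := by
      have : (H.card : ℝ) ≤ 2 * V.card := by exact_mod_cast hVH.le
      nlinarith
    linarith
  · intro w hw j hj
    refine le_trans ?_ (Finset.mem_filter.mp hw).2
    exact Finset.single_le_sum (f := fun j => th j * X j a w)
      (fun j _ => mul_nonneg (hth j) (hX j a w)) (Finset.mem_range.mpr hj)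

end Pool.Agent.Helper93.JD
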