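import Pool.Agent.Helper93.JD.Round

set_option autoImplicit false

namespace Pool.Agent.Helper93.JD

open MeasureTheory Set Metric Filter
open scoped ENNReal Topology

variable {d m : ℕ}

/-- The state of the construction. -/
structure St (d m : ℕ) where
  L : List (Node d)
  θ : (Fin d → ℝ) × (Fin m → ℝ)
  t : ℝ
  φ : ℕ → ℝ

/-- Valid states. -/
def VSt (A0 : Fin m → ℝ) (A1 : Fin d → Fin m → ℝ) (S : St d m) : Prop :=
  (∀ D ∈ S.L, Val D) ∧ Adm A0 A1 S.θ ∧ 0 < S.t ∧ S.t ≤ 1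

/-- The relation between successive states. -/
def Rel (A0 : Fin m → ℝ) (A1 : Fin d → Fin m → ℝ) (s C : ℝ) (n : ℕ) (S S' : St d m) : Prop :=
  dist S'.θ S.θ ≤ S.t / 2 ∧ S'.t ≤ S.t / 2 ∧ Antitone S'.φ ∧ (∀ q, 0 ≤ S'.φ q) ∧
  (∀ q, S'.φ q ≤ (1 / 2) ^ n) ∧
  (∀ k, ∑ q ∈ Finset.range k, S'.φ q * (q : ℝ) ^ ((d : ℝ) - s) ≤ (1 / 2) ^ n) ∧
  (∀ D' ∈ S'.L, ∃ D ∈ S.L, dist D'.c D.c + D'.ρ ≤ D.ρ ∧ D'.ρ ≤ 2 / 7 * D.ρ) ∧
  (S'.L.map Node.wt).sum = (S.L.map Node.wt).sum ∧
  (∀ y r, 0 < r → Phi C s S'.L y r ≤ Phi C s S.L y r) ∧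
  (∀ D' ∈ S'.L, ∀ x, dist x D'.c ≤ D'.ρ → ∀ θ'', dist θ'' S'.θ ≤ S'.t →
    ∃ q, n ≤ q ∧ ∃ δ : ℝ, 0 < δ ∧ Good A0 A1 x θ'' q δ ∧ δ ^ ((m : ℝ) + s) ≤ S'.φ q)

lemma step_exists {A0 : Fin m → ℝ} {A1 : Fin d → Fin m → ℝ} {s C : ℝ}
    (hst : StageProp A0 A1 s C) (hC : 1 ≤ C) (hs : 0 < s) (hsd : s < d) (n : ℕ)
    (S : {S : St d m // VSt A0 A1 S}) :
    ∃ S' : {S : St d m // VSt A0 A1 S}, Rel A0 A1 s C n S.1 S'.1 := by
  obtain ⟨S, hv, ha, ht, ht1⟩ := S
  obtain ⟨L', θ', t', φ, h1, h2, h3, h4, h5, h6, h7, h8, h9, h10, h11⟩ :=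
    round hst hC hs hsd S.L hv S.θ ha (S.t / 2) ((1 / 2) ^ n) n (by linarith) (by linarith)
      (by positivity)
  refine ⟨⟨⟨L', θ', min t' (S.t / 2), φ⟩, fun D hD => (h8 D hD).1, h1, lt_min h3 (by linarith),
    (min_le_right _ _).trans (by linarith)⟩, h2, min_le_right _ _, h4, h5, h6, h7,
    fun D hD => (h8 D hD).2, h9, h10, ?_⟩
  intro D' hD' x hx θ'' hθ''
  exact h11 D' hD' x hx θ'' (hθ''.trans (min_le_left _ _))

theorem exists_of_stageProp {A0 : Fin m → ℝ} {A1 : Fin d → Fin m → ℝ} {s C : ℝ}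
    (hst : StageProp A0 A1 s C) (hC : 1 ≤ C) (hs : 0 < s) (hsd : s < d) :
    ∃ (ψ : ℕ → ℝ) (θ : (Fin d → ℝ) × (Fin m → ℝ)), (∀ q, 0 < ψ q) ∧ StrictAnti ψ ∧
      Summable (fun q : ℕ => ψ q ^ ((m : ℝ) + s) * (q : ℝ) ^ ((d : ℝ) - s)) ∧
      0 < μH[s] {x : Fin d → ℝ | {q : ℕ | Good A0 A1 x θ q (ψ q)}.Infinite} := by
  classical
  choose f hf using step_exists (A0 := A0) (A1 := A1) hst hC hs hsd
  have hroot : VSt A0 A1 (⟨[⟨0, 1, 1⟩], 0, 1, fun _ => 0⟩ : St d m) := by
    refine ⟨?_, ?_, one_pos, le_rfl⟩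
    · intro D hD
      rw [List.mem_singleton] at hD
      subst hD
      exact ⟨one_pos, zero_le_one, by simp⟩
    · exact ⟨0, fun _ => 0, fun j => by simp⟩
  let seq : ℕ → {S : St d m // VSt A0 A1 S} := fun n => Nat.rec ⟨_, hroot⟩ (fun n S => f n S) n
  have hseq : ∀ n, Rel A0 A1 s C n (seq n).1 (seq (n + 1)).1 := fun n => hf n (seq n)
  have hseq0 : (seq 0).1 = ⟨[⟨0, 1, 1⟩], 0, 1, fun _ => 0⟩ := rfl
  set L : ℕ → List (Node d) := fun n => (seq n).1.L with hL
  set θ : ℕ → (Fin d → ℝ) × (Fin m → ℝ) := fun n => (seq n).1.θ with hθ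
  set t : ℕ → ℝ := fun n => (seq n).1.t with ht
  set φ : ℕ → ℕ → ℝ := fun n => (seq (n + 1)).1.φ with hφ
  have hval : ∀ n, ∀ D ∈ L n, Val D := fun n => (seq n).2.1
  have htpos : ∀ n, 0 < t n := fun n => (seq n).2.2.2.1
  -- positive measure
  have hmass : 0 < μH[s] (⋂ n, UU (L n)) := by
    refine mass_pos L hs hC ?_ (fun n D hD => (hval n D hD).2.1) (fun n D hD => (hval n D hD).1)
      ?_ ?_ ?_
    · intro n
      induction n with
      | zero => simp [hL, hseq0]
      | succ n ih => exact (hseq n).2.2.2.2.2.2.2.1.trans ih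
    · intro n
      induction n with
      | zero =>
        intro D hD
        simp only [hL, hseq0, List.mem_singleton] at hD
        subst hD; simp
      | succ n ih =>
        intro D' hD'
        obtain ⟨D, hD, _, h⟩ := (hseq n).2.2.2.2.2.2.1 D' hD'
        have := ih D hD
        rw [pow_succ]
        linarith
    · intro n D' hD'
      obtain ⟨D, hD, h, _⟩ := (hseq n).2.2.2.2.2.2.1 D' hD'
      exact ⟨D, hD, h⟩
    · intro n y r hr
      have h1 : Phi C s (L n) y r ≤ Phi C s (L 0) y r := by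
        induction n with
        | zero => exact le_rfl
        | succ n ih => exact ((hseq n).2.2.2.2.2.2.2.2.1 y r hr).trans ih
      refine h1.trans ?_
      simp only [hL, hseq0, Phi, List.map_cons, List.map_nil, List.sum_cons, List.sum_nil,
        add_zero]
      rw [phi]
      split_ifs
      · simp only [one_mul, div_one, gg]
        split_ifs with h2
        · exact le_rfl
        · rw [not_lt] at h2
          have : (1 : ℝ) ≤ r ^ s := Real.one_le_rpow h2 hs.le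
          nlinarith
      · positivity
  -- the limit shift
  have htle : ∀ n, t n ≤ (1 / 2) ^ n := by
    intro n
    induction n with
    | zero => simp [ht, hseq0]
    | succ n ih =>
      have := (hseq n).2.1
      rw [pow_succ]
      show (seq (n + 1)).1.t ≤ _
      have h2 : (seq n).1.t ≤ (1 / 2) ^ n := ih
      linarith
  have hdist : ∀ n, dist (θ (n + 1)) (θ n) ≤ t n - t (n + 1) := by
    intro n
    have h1 := (hseq n).1
    have h2 := (hseq n).2.1
    show dist (seq (n + 1)).1.θ (seq n).1.θ ≤ (seq n).1.t - (seq (n + 1)).1.t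
    linarith
  have hcauchy : CauchySeq θ := by
    refine cauchySeq_of_le_geometric_two (C := 1) fun n => ?_
    rw [dist_comm]
    refine (hseq n).1.trans ?_
    have h1 : (seq n).1.t ≤ (1 / 2) ^ n := htle n
    have h2 : (1 : ℝ) / 2 / 2 ^ n = (1 / 2) ^ n / 2 := by rw [one_div_pow]; ring
    rw [h2]; linarith
  obtain ⟨θl, hθl⟩ := cauchySeq_tendsto_of_complete hcauchy
  have hdist2 : ∀ n k, dist (θ (n + k)) (θ n) ≤ t n - t (n + k) := by
    intro n k
    induction k with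
    | zero => simp
    | succ k ih =>
      have h1 := dist_triangle (θ (n + (k + 1))) (θ (n + k)) (θ n)
      have h2 := hdist (n + k)
      rw [add_assoc] at h2
      linarith
  have hdist3 : ∀ n, dist θl (θ n) ≤ t n := by
    intro n
    have h1 : Tendsto (fun k => dist (θ (k + n)) (θ n)) atTop (𝓝 (dist θl (θ n))) :=
      ((tendsto_add_atTop_iff_nat n).mpr hθl).dist tendsto_const_nhds
    refine le_of_tendsto h1 (Eventually.of_forall fun k => ?_)
    have h2 := hdist2 n k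
    rw [add_comm k n]
    linarith [htpos (n + k)]
  -- the approximation function
  have hφ0 : ∀ n q, 0 ≤ φ n q := fun n q => (hseq n).2.2.2.1 q
  have hφle : ∀ n q, φ n q ≤ (1 / 2) ^ n := fun n q => (hseq n).2.2.2.2.1 q
  have hφanti : ∀ n, Antitone (φ n) := fun n => (hseq n).2.2.1
  have hφsum : ∀ n k, ∑ q ∈ Finset.range k, φ n q * (q : ℝ) ^ ((d : ℝ) - s) ≤ (1 / 2) ^ n :=
    fun n k => (hseq n).2.2.2.2.2.1 k
  have hgeo : Summable fun n : ℕ => (1 / 2 : ℝ) ^ n :=
    summable_geometric_of_lt_one (by norm_num) (by norm_num)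
  have hsumn : ∀ q, Summable fun n => φ n q := fun q =>
    Summable.of_nonneg_of_le (fun n => hφ0 n q) (fun n => hφle n q) hgeo
  set F : ℕ → ℝ := fun q => (1 / 2 : ℝ) ^ q + ∑' n, φ n q with hF
  have hT0 : ∀ q, 0 ≤ ∑' n, φ n q := fun q => tsum_nonneg fun n => hφ0 n q
  have hFpos : ∀ q, 0 < F q := fun q => by
    have h1 : (0 : ℝ) < (1 / 2) ^ q := by positivity
    have := hT0 q
    simp only [hF]; linarith
  have hFanti : StrictAnti F := by
    intro a b hab
    have h1 : (1 / 2 : ℝ) ^ b < (1 / 2) ^ a :=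
      pow_lt_pow_right_of_lt_one₀ (by norm_num) (by norm_num) hab
    have h2 : ∑' n, φ n b ≤ ∑' n, φ n a :=
      (hsumn b).tsum_le_tsum (fun n => hφanti n hab.le) (hsumn a)
    simp only [hF]; linarith
  have hms : 0 < (m : ℝ) + s := by positivity
  set ψ : ℕ → ℝ := fun q => F q ^ (1 / ((m : ℝ) + s)) with hψ
  have hψpow : ∀ q, ψ q ^ ((m : ℝ) + s) = F q := fun q => by
    simp only [hψ]
    rw [← Real.rpow_mul (hFpos q).le, one_div_mul_cancel hms.ne', Real.rpow_one]
  refine ⟨ψ, θl, fun q => Real.rpow_pos_of_pos (hFpos q) _, ?_, ?_, ?_⟩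
  · intro a b hab
    exact Real.rpow_lt_rpow (hFpos b).le (hFanti hab) (by positivity)
  · simp only [hψpow, hF, add_mul]
    refine Summable.add ?_ ?_
    · have h1 := summable_pow_mul_geometric_of_norm_lt_one (R := ℝ) d
        (show ‖(1 / 2 : ℝ)‖ < 1 by norm_num)
      refine Summable.of_nonneg_of_le (fun q => by positivity) (fun q => ?_) h1
      rw [mul_comm]
      refine mul_le_mul_of_nonneg_right ?_ (by positivity)
      rcases Nat.eq_zero_or_pos q with h0 | h0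
      · subst h0
        rw [Nat.cast_zero, Real.zero_rpow (by linarith : (d : ℝ) - s ≠ 0)]
        positivity
      · rw [← Real.rpow_natCast]
        exact Real.rpow_le_rpow_of_exponent_le (by exact_mod_cast h0) (by linarith)
    · refine summable_of_sum_range_le (c := 2) (fun q => ?_) (fun k => ?_)
      · have := hT0 q; positivity
      · calc ∑ q ∈ Finset.range k, (∑' n, φ n q) * (q : ℝ) ^ ((d : ℝ) - s)
            = ∑ q ∈ Finset.range k, ∑' n, φ n q * (q : ℝ) ^ ((d : ℝ) - s) := by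
              refine Finset.sum_congr rfl fun q _ => ?_
              rw [tsum_mul_right]
          _ = ∑' n, ∑ q ∈ Finset.range k, φ n q * (q : ℝ) ^ ((d : ℝ) - s) :=
              (Summable.tsum_finsetSum fun q _ => (hsumn q).mul_right _).symm
          _ ≤ ∑' n : ℕ, (1 / 2 : ℝ) ^ n := by
              refine Summable.tsum_le_tsum (fun n => hφsum n k) ?_ hgeo
              exact summable_sum fun q _ => (hsumn q).mul_right _
          _ = 2 := tsum_geometric_two
  · refine lt_of_lt_of_le hmass (measure_mono ?_)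
    intro x hx
    rw [mem_iInter] at hx
    refine Set.infinite_of_forall_exists_gt fun n => ?_
    obtain ⟨D, hD, hxD⟩ := hx (n + 1 + 1)
    obtain ⟨q, hq, δ, hδ, hg, hle⟩ := (hseq (n + 1)).2.2.2.2.2.2.2.2.2 D hD x hxD θl
      (hdist3 (n + 1 + 1))
    refine ⟨q, ?_, by omega⟩
    have h1 : δ ≤ ψ q := by
      have h2 : φ (n + 1) q ≤ F q := by
        have h3 := (hsumn q).le_tsum (n + 1) (fun n _ => hφ0 n q)
        have h4 : (0 : ℝ) < (1 / 2) ^ q := by positivity
        simp only [hF]; linarith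
      have h3 : δ ^ ((m : ℝ) + s) ≤ F q := hle.trans h2
      calc δ = (δ ^ ((m : ℝ) + s)) ^ (1 / ((m : ℝ) + s)) := by
            rw [← Real.rpow_mul hδ.le, mul_one_div_cancel hms.ne', Real.rpow_one]
        _ ≤ F q ^ (1 / ((m : ℝ) + s)) := Real.rpow_le_rpow (by positivity) h3 (by positivity)
    exact ⟨hg.1.mono h1, hg.2.mono h1⟩

end Pool.Agent.Helper93.JD
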