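import Pool.Agent.Helper93.JD.Pigeon

set_option autoImplicit false

namespace Pool.Agent.Helper93.JD

open Finset

variable {d m : ℕ}

open Classical in
/-- Lattice points of the convex body. -/
noncomputable def KF (c : Fin d → ℝ) (ρ σ : ℝ) : Finset (ℤ × (Fin d → ℤ)) :=
  (bigBox d ⌈2 * σ⌉₊).filter (fun w => InK c ρ σ w)

lemma mem_KF {c : Fin d → ℝ} (hc : ∀ i, |c i| ≤ 1)
    {ρ : ℝ} (hρ1 : ρ ≤ 1) {σ : ℝ} {w : ℤ × (Fin d → ℤ)} :
    w ∈ KF c ρ σ ↔ InK c ρ σ w := by
  classical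
  rw [KF, Finset.mem_filter]
  exact ⟨fun h => h.2, fun h => ⟨h.mem_bigBox hc hρ1, h⟩⟩

lemma card_KF_ge {c : Fin d → ℝ} (hc : ∀ i, |c i| ≤ 1) {ρ : ℝ} (hρ1 : ρ ≤ 1) {R : ℝ}
    (hR0 : 0 < R) (hR : 2 ≤ ρ * R) :
    (R / 2) * (ρ * R / 2) ^ d ≤ ((KF c ρ (R / 2)).card : ℝ) := by
  classical
  let D : Finset (ℕ × (Fin d → ℕ)) := (Finset.range (⌊R / 2⌋₊ + 1)) ×ˢ
    (Fintype.piFinset fun _ : Fin d => Finset.range ⌊ρ * R⌋₊)
  let g : ℕ × (Fin d → ℕ) → ℤ × (Fin d → ℤ) := fun p =>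
    ((p.1 : ℤ), fun i => ⌈(p.1 : ℝ) * c i - ρ * R / 2⌉ + (p.2 i : ℤ))
  have hmaps : ∀ p ∈ D, g p ∈ KF c ρ (R / 2) := by
    intro p hp
    simp only [D, Finset.mem_product, Finset.mem_range, Fintype.mem_piFinset] at hp
    obtain ⟨h0, h1⟩ := hp
    rw [mem_KF hc hρ1]
    refine ⟨?_, fun i => ?_⟩
    · simp only [g]
      have h2 : (p.1 : ℝ) ≤ R / 2 := by
        have : p.1 ≤ ⌊R / 2⌋₊ := by omega
        exact (Nat.le_floor_iff (by positivity)).mp this
      push_cast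
      rw [abs_of_nonneg (by positivity)]
      exact h2
    · simp only [g]
      push_cast
      have h2 := h1 i
      have h3 : (p.2 i : ℝ) + 1 ≤ ρ * R := by
        have : p.2 i + 1 ≤ ⌊ρ * R⌋₊ := by omega
        have := (Nat.le_floor_iff (by linarith)).mp this
        push_cast at this; exact this
      have h4 := Int.le_ceil ((p.1 : ℝ) * c i - ρ * R / 2)
      have h5 := Int.ceil_lt_add_one ((p.1 : ℝ) * c i - ρ * R / 2)
      have h6 : (0 : ℝ) ≤ p.2 i := by positivity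
      rw [abs_le]
      constructor <;> linarith only [h4, h3, h5]
  have hinj : Set.InjOn g D := by
    intro p _ p' _ hpp
    simp only [g, Prod.mk.injEq] at hpp
    obtain ⟨e0, e1⟩ := hpp
    have e0' : p.1 = p'.1 := by exact_mod_cast e0
    refine Prod.ext e0' (funext fun i => ?_)
    have := congrFun e1 i
    simp only [e0'] at this
    exact_mod_cast add_left_cancel this
  have hcard := Finset.card_le_card_of_injOn g hmaps hinj
  have hDc : D.card = (⌊R / 2⌋₊ + 1) * ⌊ρ * R⌋₊ ^ d := by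
    simp [D, Finset.card_product, Fintype.card_piFinset]
  rw [hDc] at hcard
  have h1 : R / 2 ≤ ((⌊R / 2⌋₊ + 1 : ℕ) : ℝ) := by
    push_cast; exact (Nat.lt_floor_add_one _).le
  have h2 : ρ * R / 2 ≤ (⌊ρ * R⌋₊ : ℝ) := by
    have := Nat.lt_floor_add_one (ρ * R); linarith
  calc (R / 2) * (ρ * R / 2) ^ d ≤ ((⌊R / 2⌋₊ + 1 : ℕ) : ℝ) * (⌊ρ * R⌋₊ : ℝ) ^ d := by
        have h3 : (0 : ℝ) ≤ ρ * R / 2 := by linarith
        have h4 := pow_le_pow_left₀ h3 h2 d
        exact mul_le_mul h1 h4 (by positivity) (by positivity)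
    _ ≤ _ := by exact_mod_cast hcard

lemma card_classes {τ : ℝ} (hτ : 0 < τ) (hτ1 : τ ≤ 1) (Q : ℕ) (hQ1 : 1 ≤ Q) (j0 : Fin m) :
    (((((Finset.Icc (-((m + 1) * Q : ℤ)) ((m + 1) * Q)) ×ˢ
      (Fintype.piFinset fun j => if j = j0 then {0} else Finset.Icc (0 : ℤ) ⌊1 / τ⌋)) ×ˢ
      (Finset.Icc (-(m + 2 : ℤ)) (m + 2))).card : ℕ) : ℝ) ≤
      ((2 * m + 3) * Q) * (2 * m + 5) * (2 / τ) ^ (m - 1) := by
  rw [Finset.card_product, Finset.card_product, Fintype.card_piFinset]
  have c1 : ((Finset.Icc (-((m + 1) * Q : ℤ)) ((m + 1) * Q)).card : ℝ) ≤ (2 * m + 3) * Q := by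
    rw [Int.card_Icc]
    have : ((m + 1) * Q + 1 - -((m + 1) * Q : ℤ)).toNat = 2 * ((m + 1) * Q) + 1 := by
      have h2 : ((m + 1) * Q + 1 - -((m + 1) * Q : ℤ)) = ((2 * ((m + 1) * Q) + 1 : ℕ) : ℤ) := by
        push_cast; ring
      rw [h2]; exact Int.toNat_natCast _
    rw [this]
    push_cast
    have : (1 : ℝ) ≤ Q := by exact_mod_cast hQ1
    nlinarith
  have c2 : ((Finset.Icc (-(m + 2 : ℤ)) (m + 2)).card : ℝ) = 2 * m + 5 := by
    rw [Int.card_Icc]
    have : ((m + 2 : ℤ) + 1 - -(m + 2 : ℤ)).toNat = 2 * m + 5 := by omega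
    rw [this]; push_cast; ring
  have c3 : ((∏ j : Fin m, (if j = j0 then ({0} : Finset ℤ)
      else Finset.Icc (0 : ℤ) ⌊1 / τ⌋).card : ℕ) : ℝ) ≤ (2 / τ) ^ (m - 1) := by
    have h2 : ∀ j : Fin m, (if j = j0 then ({0} : Finset ℤ)
      else Finset.Icc (0 : ℤ) ⌊1 / τ⌋).card =
        if j = j0 then 1 else (Finset.Icc (0 : ℤ) ⌊1 / τ⌋).card := by
      intro j; split_ifs
      · exact Finset.card_singleton _
      · rfl
    rw [Finset.prod_congr rfl (fun j _ => h2 j)]
    rw [← Finset.mul_prod_erase _ _ (Finset.mem_univ j0)]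
    rw [if_pos rfl, one_mul]
    rw [Finset.prod_congr rfl (g := fun _ => (Finset.Icc (0 : ℤ) ⌊1 / τ⌋).card) (by
      intro j hj; rw [if_neg (Finset.ne_of_mem_erase hj)])]
    rw [Finset.prod_const, Finset.card_erase_of_mem (Finset.mem_univ _), Finset.card_univ,
      Fintype.card_fin, Nat.cast_pow]
    refine pow_le_pow_left₀ (by positivity) ?_ _
    have h1τ : 1 ≤ 1 / τ := by rw [le_div_iff₀ hτ]; linarith
    have h3 := card_int_le (1 / (2 * τ)) (1 / (2 * τ)) (by positivity)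
      (Finset.Icc (0 : ℤ) ⌊1 / τ⌋) (by
        intro k hk
        rw [Finset.mem_Icc] at hk
        have h4 : (0 : ℝ) ≤ k := by exact_mod_cast hk.1
        have h5 : (k : ℝ) ≤ 1 / τ := Int.le_floor.mp hk.2
        have h6 : 1 / τ = 1 / (2 * τ) + 1 / (2 * τ) := by field_simp; norm_num
        rw [abs_le]; constructor <;> linarith)
    refine h3.trans ?_
    have h6 : 2 * (1 / (2 * τ)) = 1 / τ := by field_simp
    rw [h6]
    have h7 : 2 / τ = 1 / τ + 1 / τ := by field_simp; norm_num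
    rw [h7]; linarith
  rw [Nat.cast_mul, Nat.cast_mul, c2]
  have h0 : (0 : ℝ) ≤ (2 * m + 3) * Q := by positivity
  have h5 : (0 : ℝ) ≤ 2 * m + 5 := by positivity
  refine (mul_le_mul_of_nonneg_right (mul_le_mul c1 c3 (Nat.cast_nonneg _) h0) h5).trans ?_
  exact le_of_eq (by ring)

/-- Lower bound for the Bohr set coming from a resonance. -/
lemma lower_bound {A0 : Fin m → ℝ} {A1 : Fin d → Fin m → ℝ} {c : Fin d → ℝ}
    (hc : ∀ i, |c i| ≤ 1) {ρ : ℝ} (hρ : 0 < ρ) (hρ1 : ρ ≤ 1) {R τ : ℝ} (hR0 : 0 < R)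
    (hR : 2 ≤ ρ * R) (hτ : 0 < τ) (hτ1 : τ ≤ 1) (q : Fin m → ℤ) (n0 : ℤ) (n1 : Fin d → ℤ)
    {δ : ℝ} (h0 : |∑ j, A0 j * q j - n0| ≤ δ) (h1 : ∀ i, |∑ j, A1 i j * q j - n1 i| ≤ δ)
    (Q : ℕ) (j0 : Fin m) (hQ : ∀ j, |q j| ≤ Q) (hj0 : |q j0| = Q) (hQ1 : 1 ≤ Q)
    (hδ : (R / 2 + d * R) * δ ≤ Q * τ) :
    (R / 2) * (ρ * R / 2) ^ d ≤
      ((2 * m + 3) * Q) * (2 * m + 5) * (2 / τ) ^ (m - 1) *
        ((HomF A0 A1 c ρ R τ).card : ℝ) := by
  classical
  refine (card_KF_ge hc hρ1 hR0 hR).trans ?_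
  have hQ0 : (0 : ℝ) < Q := by exact_mod_cast hQ1
  have hδ0 : 0 ≤ δ := (abs_nonneg _).trans h0
  have hqj0 : (q j0 : ℝ) ≠ 0 := by
    intro h
    have h2 : q j0 = 0 := by exact_mod_cast h
    rw [h2, abs_zero] at hj0
    omega
  have hQr : ∀ j, |(q j : ℝ)| ≤ Q := by
    intro j
    have := hQ j
    have h2 : ((|q j| : ℤ) : ℝ) ≤ ((Q : ℤ) : ℝ) := by exact_mod_cast this
    rwa [Int.cast_abs] at h2
  have hj0r : |(q j0 : ℝ)| = Q := by
    have h2 : ((|q j0| : ℤ) : ℝ) = ((Q : ℤ) : ℝ) := by rw [hj0]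
    rwa [Int.cast_abs] at h2
  set X : ℤ × (Fin d → ℤ) → Fin m → ℝ := fun w => ev A0 A1 w with hX
  let Z : ℤ × (Fin d → ℤ) → ℤ := fun w =>
    (w.1 * n0 + ∑ i, w.2 i * n1 i) - ∑ j, ⌊X w j⌋ * q j
  let b : ℤ × (Fin d → ℤ) → Fin m → ℤ := fun w j =>
    if j = j0 then 0 else ⌊Int.fract (X w j) / τ⌋
  let G : ℤ → (Fin m → ℤ) → ℤ := fun z β => ⌊((z : ℝ) - ∑ j, τ * β j * q j) / (q j0 * τ)⌋
  let f : ℤ × (Fin d → ℤ) → (ℤ × (Fin m → ℤ)) × ℤ := fun w =>
    ((Z w, b w), ⌊Int.fract (X w j0) / τ⌋ - G (Z w) (b w))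
  let T' : Finset ((ℤ × (Fin m → ℤ)) × ℤ) :=
    ((Finset.Icc (-((m + 1) * Q : ℤ)) ((m + 1) * Q)) ×ˢ
      (Fintype.piFinset fun j => if j = j0 then {0} else Finset.Icc (0 : ℤ) ⌊1 / τ⌋)) ×ˢ
      (Finset.Icc (-(m + 2 : ℤ)) (m + 2))
  -- the error term
  have he : ∀ w, InK c ρ (R / 2) w →
      |∑ j, X w j * q j - (w.1 * n0 + ∑ i, (w.2 i : ℝ) * n1 i)| ≤ Q * τ := by
    intro w hw
    obtain ⟨k0, k1⟩ := hw
    have hsum : ∑ j, X w j * q j = w.1 * (∑ j, A0 j * q j)
        + ∑ i, (w.2 i : ℝ) * (∑ j, A1 i j * q j) := by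
      simp only [hX, ev_apply, add_mul, Finset.sum_add_distrib, Finset.mul_sum, Finset.sum_mul]
      congr 1
      · exact Finset.sum_congr rfl fun j _ => by ring
      · rw [Finset.sum_comm]
        exact Finset.sum_congr rfl fun i _ => Finset.sum_congr rfl fun j _ => by ring
    have hwi : ∀ i, |(w.2 i : ℝ)| ≤ R := by
      intro i
      have h4 : (w.2 i : ℝ) = ((w.2 i : ℝ) - w.1 * c i) + w.1 * c i := by ring
      rw [h4]
      have h3 : |(w.1 : ℝ) * c i| ≤ R / 2 := by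
        rw [abs_mul]
        calc |(w.1 : ℝ)| * |c i| ≤ (R / 2) * 1 :=
              mul_le_mul k0 (hc i) (abs_nonneg _) (by positivity)
          _ = R / 2 := mul_one _
      refine (abs_add_le _ _).trans ?_
      have := k1 i
      nlinarith only [h3, this, hρ1, hR0]
    have hdiff : ∑ j, X w j * q j - (w.1 * n0 + ∑ i, (w.2 i : ℝ) * n1 i)
        = w.1 * (∑ j, A0 j * q j - n0) + ∑ i, (w.2 i : ℝ) * (∑ j, A1 i j * q j - n1 i) := by
      rw [hsum]
      simp only [mul_sub, Finset.sum_sub_distrib]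
      ring
    rw [hdiff]
    refine (abs_add_le _ _).trans (le_trans ?_ hδ)
    rw [add_mul]
    refine add_le_add ?_ ?_
    · rw [abs_mul]; exact mul_le_mul k0 h0 (abs_nonneg _) (by positivity)
    · refine (Finset.abs_sum_le_sum_abs _ _).trans ?_
      calc ∑ i, |(w.2 i : ℝ) * (∑ j, A1 i j * q j - n1 i)| ≤ ∑ _i : Fin d, R * δ := by
            refine Finset.sum_le_sum fun i _ => ?_
            rw [abs_mul]; exact mul_le_mul (hwi i) (h1 i) (abs_nonneg _) hR0.le
        _ = d * R * δ := by simp; ring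
  have hfr : ∀ x : ℝ, |Int.fract x| ≤ 1 := fun x => by
    rw [abs_of_nonneg (Int.fract_nonneg _)]; exact (Int.fract_lt_one _).le
  -- sum with fractional parts
  have hZ : ∀ w, InK c ρ (R / 2) w →
      |∑ j, Int.fract (X w j) * q j - (Z w : ℝ)| ≤ Q * τ := by
    intro w hw
    have h2 := he w hw
    have h3 : ∑ j, Int.fract (X w j) * q j - (Z w : ℝ)
        = ∑ j, X w j * q j - (w.1 * n0 + ∑ i, (w.2 i : ℝ) * n1 i) := by
      simp only [Z, Int.fract, sub_mul, Finset.sum_sub_distrib]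
      push_cast
      ring
    rw [h3]; exact h2
  have hmaps : ∀ w ∈ KF c ρ (R / 2), f w ∈ T' := by
    intro w hw
    rw [mem_KF hc hρ1] at hw
    have hz := hZ w hw
    simp only [f, T', Finset.mem_product, Fintype.mem_piFinset, Finset.mem_Icc]
    have hS : |∑ j, Int.fract (X w j) * q j| ≤ m * Q := by
      refine (Finset.abs_sum_le_sum_abs _ _).trans ?_
      calc ∑ j, |Int.fract (X w j) * q j| ≤ ∑ _j : Fin m, 1 * (Q : ℝ) := by
            refine Finset.sum_le_sum fun j _ => ?_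
            rw [abs_mul]
            exact mul_le_mul (hfr _) (hQr j) (abs_nonneg _) zero_le_one
        _ = m * Q := by simp
    have hQτ : (Q : ℝ) * τ ≤ Q := by nlinarith
    have hZ1 : |(Z w : ℝ)| ≤ (m + 1) * Q := by
      have h4 : (Z w : ℝ) = ∑ j, Int.fract (X w j) * q j
        - (∑ j, Int.fract (X w j) * q j - (Z w : ℝ)) := by ring
      rw [h4]
      refine (abs_sub _ _).trans ?_
      linarith
    have hb0 : ∀ j, 0 ≤ ⌊Int.fract (X w j) / τ⌋ := fun j =>
      Int.floor_nonneg.mpr (div_nonneg (Int.fract_nonneg _) hτ.le)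
    refine ⟨⟨⟨?_, ?_⟩, fun j => ?_⟩, ?_⟩
    · have := (abs_le.mp hZ1).1
      exact_mod_cast this
    · have := (abs_le.mp hZ1).2
      exact_mod_cast this
    · by_cases hj : j = j0
      · simp [b, hj]
      · simp only [b, hj, if_false, Finset.mem_Icc]
        refine ⟨hb0 j, Int.floor_le_floor ?_⟩
        gcongr
        exact (Int.fract_lt_one _).le
    · -- the window
      have hsplit : Int.fract (X w j0) * q j0 + ∑ j ∈ univ.erase j0, Int.fract (X w j) * q j
          = ∑ j, Int.fract (X w j) * q j :=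
        Finset.add_sum_erase _ (fun j => Int.fract (X w j) * (q j : ℝ)) (Finset.mem_univ j0)
      have hsplit2 : ∑ j, τ * (b w j : ℝ) * q j = ∑ j ∈ univ.erase j0, τ * (b w j : ℝ) * q j := by
        rw [← Finset.add_sum_erase _ (fun j => τ * (b w j : ℝ) * (q j : ℝ)) (Finset.mem_univ j0)]
        simp [b]
      have hkey : |Int.fract (X w j0) / τ - ((Z w : ℝ) - ∑ j, τ * (b w j : ℝ) * q j) / (q j0 * τ)|
          ≤ m + 1 := by
        have h5 : Int.fract (X w j0) / τ - ((Z w : ℝ) - ∑ j, τ * (b w j : ℝ) * q j) / (q j0 * τ)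
            = ((∑ j, Int.fract (X w j) * q j - (Z w : ℝ))
              - ∑ j ∈ univ.erase j0, (Int.fract (X w j) - τ * b w j) * q j) / (q j0 * τ) := by
          rw [hsplit2, ← hsplit]
          simp only [sub_mul, Finset.sum_sub_distrib]
          field_simp
          ring
        rw [h5, abs_div, abs_mul (q j0 : ℝ), hj0r, abs_of_pos hτ, div_le_iff₀ (by positivity)]
        refine (abs_sub _ _).trans ?_
        have h6 : |∑ j ∈ univ.erase j0, (Int.fract (X w j) - τ * b w j) * q j| ≤ m * (Q * τ) := by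
          refine (Finset.abs_sum_le_sum_abs _ _).trans ?_
          calc ∑ j ∈ univ.erase j0, |(Int.fract (X w j) - τ * b w j) * q j|
              ≤ ∑ _j ∈ univ.erase j0, (Q : ℝ) * τ := by
                refine Finset.sum_le_sum fun j hj => ?_
                have hjj : j ≠ j0 := Finset.ne_of_mem_erase hj
                rw [abs_mul, mul_comm]
                refine mul_le_mul (hQr j) ?_ (abs_nonneg _) hQ0.le
                simp only [b, hjj, if_false]
                have h7 := Int.floor_le (Int.fract (X w j) / τ)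
                have h8 := Int.lt_floor_add_one (Int.fract (X w j) / τ)
                have h9 : Int.fract (X w j) = Int.fract (X w j) / τ * τ := by field_simp
                rw [abs_le]
                constructor
                · nlinarith only [hτ, h9, h7]
                · nlinarith only [h9, hτ, h8]
            _ = ((univ.erase j0).card : ℝ) * (Q * τ) := by simp
            _ ≤ m * (Q * τ) := by
                have : (univ.erase j0).card ≤ m := by
                  refine (Finset.card_le_card (Finset.erase_subset _ _)).trans ?_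
                  simp
                have h10 : ((univ.erase j0).card : ℝ) ≤ m := by exact_mod_cast this
                exact mul_le_mul_of_nonneg_right h10 (by positivity)
        linarith
      have h11 := abs_le.mp hkey
      have h12 := Int.floor_le (Int.fract (X w j0) / τ)
      have h13 := Int.lt_floor_add_one (Int.fract (X w j0) / τ)
      have h14 := Int.floor_le (((Z w : ℝ) - ∑ j, τ * (b w j : ℝ) * q j) / (q j0 * τ))
      have h15 := Int.lt_floor_add_one (((Z w : ℝ) - ∑ j, τ * (b w j : ℝ) * q j) / (q j0 * τ))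
      have hGdef : G (Z w) (b w) = ⌊((Z w : ℝ) - ∑ j, τ * (b w j : ℝ) * q j) / (q j0 * τ)⌋ := rfl
      rw [hGdef]
      constructor
      · have : (-(m + 2 : ℝ)) ≤ (⌊Int.fract (X w j0) / τ⌋ : ℝ)
            - ⌊((Z w : ℝ) - ∑ j, τ * (b w j : ℝ) * q j) / (q j0 * τ)⌋ := by linarith [h11.1]
        exact_mod_cast this
      · have : (⌊Int.fract (X w j0) / τ⌋ : ℝ)
            - ⌊((Z w : ℝ) - ∑ j, τ * (b w j : ℝ) * q j) / (q j0 * τ)⌋ ≤ (m + 2 : ℝ) := by
          linarith [h11.2]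
        exact_mod_cast this
  have hmain := card_le_of_diff (KF c ρ (R / 2)) T' f hmaps (HomF A0 A1 c ρ R τ) (by
    intro w hw w' hw' hff
    rw [mem_KF hc hρ1] at hw hw'
    rw [mem_HomF hc hρ1]
    simp only [f, Prod.mk.injEq] at hff
    obtain ⟨⟨eZ, eb⟩, er⟩ := hff
    rw [eZ, eb] at er
    have er' : ⌊Int.fract (X w j0) / τ⌋ = ⌊Int.fract (X w' j0) / τ⌋ := by linarith
    have hall : ∀ j, ⌊Int.fract (X w j) / τ⌋ = ⌊Int.fract (X w' j) / τ⌋ := by
      intro j
      by_cases hj : j = j0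
      · rw [hj]; exact er'
      · have := congrFun eb j
        simpa [b, hj] using this
    refine ⟨?_, fun j => ?_⟩
    · have := hw.sub hw'
      rwa [add_halves] at this
    · refine ⟨⌊X w j⌋ - ⌊X w' j⌋, ?_⟩
      rw [map_sub, Pi.sub_apply]; push_cast
      have h2 : ev A0 A1 w j - ev A0 A1 w' j - (⌊X w j⌋ - ⌊X w' j⌋)
          = Int.fract (X w j) - Int.fract (X w' j) := by
        rw [Int.fract, Int.fract]; simp only [hX]; ring
      rw [h2]
      have a1 := Int.floor_le (Int.fract (X w j) / τ)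
      have a2 := Int.lt_floor_add_one (Int.fract (X w j) / τ)
      have a3 := Int.floor_le (Int.fract (X w' j) / τ)
      have a4 := Int.lt_floor_add_one (Int.fract (X w' j) / τ)
      rw [hall j] at a1 a2
      have e1 : Int.fract (X w j) = Int.fract (X w j) / τ * τ := by field_simp
      have e2 : Int.fract (X w' j) = Int.fract (X w' j) / τ * τ := by field_simp
      rw [e1, e2, ← sub_mul, abs_mul, abs_of_pos hτ]
      have : |Int.fract (X w j) / τ - Int.fract (X w' j) / τ| < 1 := by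
        rw [abs_lt]; constructor <;> linarith
      nlinarith only [hτ, this])
  have hT' : (T'.card : ℝ) ≤ ((2 * m + 3) * Q) * (2 * m + 5) * (2 / τ) ^ (m - 1) :=
    card_classes hτ hτ1 Q hQ1 j0
  calc ((KF c ρ (R / 2)).card : ℝ) ≤ (T'.card : ℝ) * ((HomF A0 A1 c ρ R τ).card : ℝ) := by
        exact_mod_cast hmain
    _ ≤ _ := mul_le_mul_of_nonneg_right hT' (by positivity)

end Pool.Agent.Helper93.JD
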