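import Pool.Agent.Helper93.JD.Lower

set_option autoImplicit false

namespace Pool.Agent.Helper93.JD

open Finset

variable {d m : ℕ}

lemma HomF_mono {A0 : Fin m → ℝ} {A1 : Fin d → Fin m → ℝ} {c : Fin d → ℝ}
    (hc : ∀ i, |c i| ≤ 1) {ρ : ℝ} (hρ : 0 ≤ ρ) (hρ1 : ρ ≤ 1) {σ σ' τ τ' : ℝ} (hσ : σ ≤ σ')
    (hτ : τ ≤ τ') : HomF A0 A1 c ρ σ τ ⊆ HomF A0 A1 c ρ σ' τ' := by
  intro w hw
  rw [mem_HomF hc hρ1] at hw ⊢
  exact ⟨hw.1.mono hρ hσ, hw.2.mono hτ⟩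

lemma card_HomF_le {A0 : Fin m → ℝ} {A1 : Fin d → Fin m → ℝ} {c : Fin d → ℝ} {ρ : ℝ} {τ : ℝ}
    {R : ℕ} (hR : 1 ≤ R) : (HomF A0 A1 c ρ R τ).card ≤ (5 * R) ^ (d + 1) := by
  classical
  have h1 : (HomF A0 A1 c ρ R τ).card ≤ (bigBox d ⌈2 * (R : ℝ)⌉₊).card :=
    Finset.card_le_card (Finset.filter_subset _ _)
  have h2 : ⌈2 * (R : ℝ)⌉₊ = 2 * R := by
    have : (2 * (R : ℝ)) = ((2 * R : ℕ) : ℝ) := by push_cast; ring
    rw [this, Nat.ceil_natCast]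
  rw [h2, bigBox, Finset.card_product, Fintype.card_piFinset] at h1
  refine h1.trans ?_
  have h3 : (Finset.Icc (-((2 * R : ℕ) : ℤ)) ((2 * R : ℕ) : ℤ)).card = 4 * R + 1 := by
    rw [Int.card_Icc]; omega
  rw [Finset.prod_congr rfl (fun _ _ => h3), h3, Finset.prod_const, Finset.card_univ,
    Fintype.card_fin, ← pow_succ']
  exact Nat.pow_le_pow_left (by omega) _

/-- Growth property from maximality. -/
lemma growth {A0 : Fin m → ℝ} {A1 : Fin d → Fin m → ℝ} {c : Fin d → ℝ}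
    (hc : ∀ i, |c i| ≤ 1) {ρ : ℝ} (hρ : 0 < ρ) (hρ1 : ρ ≤ 1) {τ : ℝ} (hτ : 0 < τ) {s' : ℝ}
    (hs' : 0 < s') {R B : ℕ} (hR1 : 1 ≤ R) (hRB : R ≤ B)
    (hmax : ∀ n : ℕ, 1 ≤ n → n ≤ B → ((HomF A0 A1 c ρ n τ).card : ℝ) * (n : ℝ) ^ (-s') ≤
      ((HomF A0 A1 c ρ R τ).card : ℝ) * (R : ℝ) ^ (-s')) :
    ∀ σ : ℝ, 1 ≤ σ → σ ≤ 2 * R → ((HomF A0 A1 c ρ σ (2 * τ)).card : ℝ) ≤
      5 ^ (d + m + 1) * 2 ^ s' * (σ / R) ^ s' * ((HomF A0 A1 c ρ R τ).card : ℝ) := by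
  intro σ hσ1 hσ2
  have hR0 : (0 : ℝ) < R := by exact_mod_cast hR1
  have hσ0 : 0 < σ := by linarith
  have h2s : (1 : ℝ) ≤ 2 ^ s' := Real.one_le_rpow (by norm_num) hs'.le
  set N : ℝ := ((HomF A0 A1 c ρ R τ).card : ℝ) with hN
  have hN0 : 0 ≤ N := by positivity
  rcases le_or_gt ⌈σ⌉₊ B with hcB | hcB
  · -- use `⌈σ⌉`
    set n := ⌈σ⌉₊ with hn
    have hn1 : 1 ≤ n := Nat.one_le_ceil_iff.mpr hσ0
    have hn0 : (0 : ℝ) < n := by exact_mod_cast hn1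
    have hσn : σ ≤ n := Nat.le_ceil σ
    have hnσ : (n : ℝ) ≤ 2 * σ := by
      have := Nat.ceil_lt_add_one hσ0.le
      linarith
    have h1 := Finset.card_le_card (HomF_mono (A0 := A0) (A1 := A1) hc hρ.le hρ1 hσn
      (le_refl (2 * τ)))
    have h2 := card_HomF_double (A0 := A0) (A1 := A1) hc hρ hρ1 hn0 hτ 1
    rw [Nat.cast_one, one_mul] at h2
    have h3 := hmax n hn1 hcB
    have h4 : ((HomF A0 A1 c ρ n τ).card : ℝ) ≤ N * ((n : ℝ) / R) ^ s' := by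
      have h5 : ((HomF A0 A1 c ρ n τ).card : ℝ)
          = ((HomF A0 A1 c ρ n τ).card : ℝ) * (n : ℝ) ^ (-s') * (n : ℝ) ^ s' := by
        rw [mul_assoc, ← Real.rpow_add hn0]; simp
      rw [h5]
      calc _ ≤ N * (R : ℝ) ^ (-s') * (n : ℝ) ^ s' :=
            mul_le_mul_of_nonneg_right h3 (by positivity)
        _ = N * ((n : ℝ) / R) ^ s' := by
            rw [Real.div_rpow hn0.le hR0.le, Real.rpow_neg hR0.le]; ring
    have h6 : ((n : ℝ) / R) ^ s' ≤ 2 ^ s' * (σ / R) ^ s' := by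
      rw [← Real.mul_rpow (by norm_num) (by positivity)]
      refine Real.rpow_le_rpow (by positivity) ?_ hs'.le
      rw [← mul_div_assoc]
      exact div_le_div_of_nonneg_right hnσ hR0.le
    have h7 : ((HomF A0 A1 c ρ σ (2 * τ)).card : ℝ) ≤
        (2 * 1 + 1) ^ (d + 1) * 5 ^ m * ((HomF A0 A1 c ρ n τ).card : ℝ) := by
      exact_mod_cast h1.trans h2
    refine h7.trans ?_
    calc (2 * 1 + 1 : ℝ) ^ (d + 1) * 5 ^ m * ((HomF A0 A1 c ρ n τ).card : ℝ)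
        ≤ 5 ^ (d + 1) * 5 ^ m * (N * (2 ^ s' * (σ / R) ^ s')) := by
          have h8 : (2 * 1 + 1 : ℝ) ^ (d + 1) ≤ 5 ^ (d + 1) :=
            pow_le_pow_left₀ (by norm_num) (by norm_num) _
          have h9 : ((HomF A0 A1 c ρ n τ).card : ℝ) ≤ N * (2 ^ s' * (σ / R) ^ s') :=
            h4.trans (mul_le_mul_of_nonneg_left h6 hN0)
          exact mul_le_mul (mul_le_mul_of_nonneg_right h8 (by positivity)) h9 (by positivity)
            (by positivity)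
      _ = 5 ^ (d + m + 1) * 2 ^ s' * (σ / R) ^ s' * N := by
          rw [show d + m + 1 = (d + 1) + m by ring, pow_add]; ring
  · -- `σ > B ≥ R`
    have hσR : (R : ℝ) ≤ σ := by
      have h1 : B < ⌈σ⌉₊ := hcB
      have h2 : (B : ℝ) < σ := Nat.lt_ceil.mp h1
      have h3 : (R : ℝ) ≤ B := by exact_mod_cast hRB
      linarith
    have h1 := Finset.card_le_card (HomF_mono (A0 := A0) (A1 := A1) hc hρ.le hρ1 hσ2
      (le_refl (2 * τ)))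
    have h2 := card_HomF_double (A0 := A0) (A1 := A1) hc hρ hρ1 hR0 hτ 2
    rw [Nat.cast_two] at h2
    have h3 : ((HomF A0 A1 c ρ σ (2 * τ)).card : ℝ) ≤ (2 * 2 + 1) ^ (d + 1) * 5 ^ m * N := by
      rw [hN]; exact_mod_cast h1.trans h2
    refine h3.trans ?_
    have h4 : (1 : ℝ) ≤ (σ / R) ^ s' :=
      Real.one_le_rpow (by rw [le_div_iff₀ hR0]; linarith) hs'.le
    calc (2 * 2 + 1 : ℝ) ^ (d + 1) * 5 ^ m * N = 5 ^ (d + m + 1) * 1 * 1 * N := by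
          rw [show d + m + 1 = (d + 1) + m by ring, pow_add,
            show (2 * 2 + 1 : ℝ) = 5 by norm_num]
          ring
      _ ≤ 5 ^ (d + m + 1) * 2 ^ s' * (σ / R) ^ s' * N := by gcongr

/-- Choice of the parameters `τ, R` of a stage. -/
lemma exists_params {A0 : Fin m → ℝ} {A1 : Fin d → Fin m → ℝ} {w s η b s' : ℝ} (hs0 : 0 < s)
    (hη : 0 < η) (hb : 0 < b) (hbw : b + η < w)
    (hb1 : b * (d + 1 - s) = (1 + η) * (m + s) - η / 2) (hss' : s < s') (hs'd : s' < d)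
    (hbs : b * (s' - s) ≤ η / 4) (hm : 1 ≤ m)
    (HQ : ∀ X0 : ℕ, ∃ (q : Fin m → ℤ) (Q : ℕ) (j0 : Fin m) (n0 : ℤ) (n1 : Fin d → ℤ), X0 ≤ Q ∧
      (∀ j, |q j| ≤ Q) ∧ |q j0| = Q ∧ |∑ j, A0 j * q j - n0| ≤ (Q : ℝ) ^ (-w) ∧
      ∀ i, |∑ j, A1 i j * q j - n1 i| ≤ (Q : ℝ) ^ (-w))
    {c : Fin d → ℝ} (hc : ∀ i, |c i| ≤ 1) {ρ : ℝ} (hρ : 0 < ρ) (hρ1 : ρ ≤ 1) {M : ℝ}
    (hM : 1 ≤ M) :
    ∃ (τ : ℝ) (R : ℕ), 0 < τ ∧ τ ≤ 1 / M ∧ M ≤ R ∧
      M ≤ ((HomF A0 A1 c ρ R τ).card : ℝ) * (τ / R) ^ s ∧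
      (8 * τ) ^ (m + s) * (10 * R) ^ (d + 1 - s) ≤ 1 / M ∧
      ∀ σ : ℝ, 1 ≤ σ → σ ≤ 2 * R → ((HomF A0 A1 c ρ σ (2 * τ)).card : ℝ) ≤
        5 ^ (d + m + 1) * 2 ^ s' * (σ / R) ^ s' * ((HomF A0 A1 c ρ R τ).card : ℝ) := by
  classical
  have hM0 : 0 < M := by linarith
  have hs'0 : 0 < s' := by linarith
  set K1 : ℝ := (2 * m + 3) * (2 * m + 5) * 2 ^ (m - 1) with hK1
  have hK10 : 0 < K1 := by positivity
  set K3 : ℝ := (1 / 2) * (ρ / 2) ^ d / K1 * (1 / 2) ^ ((d : ℝ) + 1 - s') with hK3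
  have hK30 : 0 < K3 := by positivity
  set M' : ℝ := max M ((5 * M) ^ (d + 1)) with hM'
  -- eventual inequalities
  have E1 : ∀ᶠ x : ℝ in Filter.atTop, x ^ (-(1 + η)) ≤ 1 / M :=
    (tendsto_rpow_neg_atTop (by linarith)).eventually_le_const (by positivity)
  have E2 : ∀ᶠ x : ℝ in Filter.atTop, 4 / ρ ≤ x ^ b :=
    (tendsto_rpow_atTop hb).eventually_ge_atTop _
  have E3 : ∀ᶠ x : ℝ in Filter.atTop, x ^ (-(w - b - η)) ≤ 1 / (1 / 2 + d) :=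
    (tendsto_rpow_neg_atTop (by linarith)).eventually_le_const (by positivity)
  have E4 : ∀ᶠ x : ℝ in Filter.atTop, M' / K3 ≤ x ^ (η / 4) :=
    (tendsto_rpow_atTop (by linarith)).eventually_ge_atTop _
  have E5 : ∀ᶠ x : ℝ in Filter.atTop,
      x ^ (-(η / 2)) ≤ 1 / M / (8 ^ (m + s) * 10 ^ ((d : ℝ) + 1 - s)) :=
    (tendsto_rpow_neg_atTop (by linarith)).eventually_le_const (by positivity)
  have E6 : ∀ᶠ x : ℝ in Filter.atTop, 1 ≤ x := Filter.eventually_ge_atTop 1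
  obtain ⟨X, hX⟩ := Filter.eventually_atTop.mp
    (E1.and (E2.and (E3.and (E4.and (E5.and E6)))))
  obtain ⟨q, Q, j0, n0, n1, hXQ, hQ, hj0, hn0, hn1⟩ := HQ ⌈X⌉₊
  have hXQ' : X ≤ (Q : ℝ) := (Nat.le_ceil X).trans (by exact_mod_cast hXQ)
  obtain ⟨e1, e2, e3, e4, e5, e6⟩ := hX Q hXQ'
  set x : ℝ := (Q : ℝ) with hx
  have hx0 : 0 < x := by linarith
  have hQ1 : 1 ≤ Q := by
    have h1 : (1 : ℝ) ≤ (Q : ℝ) := e6
    exact_mod_cast h1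
  set τ : ℝ := x ^ (-(1 + η)) with hτdef
  have hτ0 : 0 < τ := Real.rpow_pos_of_pos hx0 _
  have hτ1 : τ ≤ 1 := e1.trans (by rw [div_le_iff₀ hM0]; linarith)
  set B : ℕ := ⌊x ^ b⌋₊ with hB
  have hxb4 : 4 ≤ x ^ b := by
    refine le_trans ?_ e2
    rw [le_div_iff₀ hρ]; linarith only [hρ1]
  have hBle : (B : ℝ) ≤ x ^ b := Nat.floor_le (by positivity)
  have hBge : x ^ b / 2 ≤ B := by
    have := Nat.lt_floor_add_one (x ^ b)
    have h2 : x ^ b < B + 1 := this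
    linarith
  have hB0 : (0 : ℝ) < B := by linarith
  have hB1 : 1 ≤ B := by exact_mod_cast hB0
  have hρB : 2 ≤ ρ * B := by
    have h1 : 4 ≤ x ^ b * ρ := by rwa [div_le_iff₀ hρ] at e2
    have h0 := mul_le_mul_of_nonneg_left hBge hρ.le
    linarith only [h0, h1]
  -- lower bound at B
  have hL := lower_bound (A0 := A0) (A1 := A1) hc hρ hρ1 hB0 hρB hτ0 hτ1 q n0 n1 hn0 hn1 Q j0 hQ
    hj0 hQ1 (by
      have h1 : x ^ (b + -w) * (1 / 2 + d) ≤ x ^ (-η) := by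
        have h2 : x ^ (b + -w) = x ^ (-(w - b - η)) * x ^ (-η) := by
          rw [← Real.rpow_add hx0]; ring_nf
        rw [h2]
        rw [le_div_iff₀ (by positivity)] at e3
        have h3 : (0 : ℝ) < x ^ (-η) := Real.rpow_pos_of_pos hx0 _
        have h0 := mul_le_mul_of_nonneg_right e3 h3.le
        linarith only [h0]
      have h4 : x * τ = x ^ (-η) := by
        rw [hτdef]
        nth_rewrite 1 [← Real.rpow_one x]
        rw [← Real.rpow_add hx0]; ring_nf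
      rw [← hx, h4]
      refine le_trans ?_ h1
      have h5 : ((B : ℝ) / 2 + d * B) = B * (1 / 2 + d) := by ring
      rw [h5, Real.rpow_add hx0]
      have h6 : (0 : ℝ) < x ^ (-w) := Real.rpow_pos_of_pos hx0 _
      calc (B : ℝ) * (1 / 2 + d) * x ^ (-w) = (B : ℝ) * ((1 / 2 + d) * x ^ (-w)) := by ring
        _ ≤ x ^ b * ((1 / 2 + d) * x ^ (-w)) := mul_le_mul_of_nonneg_right hBle (by positivity)
        _ = _ := by ring)
  -- choose R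
  obtain ⟨R, hRmem, hRmax⟩ := Finset.exists_max_image (Finset.Icc 1 B)
    (fun n : ℕ => ((HomF A0 A1 c ρ n τ).card : ℝ) * (n : ℝ) ^ (-s')) ⟨1, by simp [hB1]⟩
  rw [Finset.mem_Icc] at hRmem
  obtain ⟨hR1, hRB⟩ := hRmem
  have hmax : ∀ n : ℕ, 1 ≤ n → n ≤ B → ((HomF A0 A1 c ρ n τ).card : ℝ) * (n : ℝ) ^ (-s') ≤
      ((HomF A0 A1 c ρ R τ).card : ℝ) * (R : ℝ) ^ (-s') :=
    fun n h1 h2 => hRmax n (Finset.mem_Icc.mpr ⟨h1, h2⟩)
  have hR0 : (0 : ℝ) < R := by exact_mod_cast hR1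
  have hR1' : (1 : ℝ) ≤ R := by exact_mod_cast hR1
  have hRB' : (R : ℝ) ≤ B := by exact_mod_cast hRB
  set FB : ℝ := ((HomF A0 A1 c ρ B τ).card : ℝ) with hFB
  set N : ℝ := ((HomF A0 A1 c ρ R τ).card : ℝ) with hN
  have hFBN : FB * (B : ℝ) ^ (-s') ≤ N * (R : ℝ) ^ (-s') := hmax B hB1 le_rfl
  -- main lower bound: `FB B^{-s'} τ^s ≥ K3 x^{η/4}`
  have hmain : K3 * x ^ (η / 4) ≤ FB * (B : ℝ) ^ (-s') * τ ^ s := by
    have h1 : (1 / 2) * (ρ / 2) ^ d * (B : ℝ) ^ ((d : ℝ) + 1) ≤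
        K1 * x ^ (1 + (1 + η) * (m - 1)) * FB := by
      have h2 : ((B : ℝ) / 2) * (ρ * B / 2) ^ d = (1 / 2) * (ρ / 2) ^ d * (B : ℝ) ^ ((d : ℝ) + 1) := by
        rw [Real.rpow_add hB0, Real.rpow_one, Real.rpow_natCast, div_pow, div_pow, mul_pow]
        ring
      have h3 : (2 / τ) ^ (m - 1) = 2 ^ (m - 1) * x ^ ((1 + η) * (m - 1)) := by
        rw [div_eq_mul_inv, mul_pow]
        congr 1
        rw [hτdef, ← Real.rpow_neg hx0.le, neg_neg, ← Real.rpow_natCast, ← Real.rpow_mul hx0.le]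
        congr 1
        rw [Nat.cast_sub hm]; push_cast; ring
      rw [h2, h3] at hL
      refine hL.trans (le_of_eq ?_)
      rw [Real.rpow_add hx0, Real.rpow_one, hK1]
      ring
    -- multiply
    have h4 : (B : ℝ) ^ ((d : ℝ) + 1) = (B : ℝ) ^ ((d : ℝ) + 1 - s') * (B : ℝ) ^ s' := by
      rw [← Real.rpow_add hB0]; ring_nf
    have h5 : (x ^ b / 2) ^ ((d : ℝ) + 1 - s') ≤ (B : ℝ) ^ ((d : ℝ) + 1 - s') :=
      Real.rpow_le_rpow (by positivity) hBge (by linarith)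
    have h6 : (x ^ b / 2) ^ ((d : ℝ) + 1 - s') =
        x ^ (b * ((d : ℝ) + 1 - s')) * (1 / 2) ^ ((d : ℝ) + 1 - s') := by
      rw [div_eq_mul_one_div, Real.mul_rpow (by positivity) (by norm_num), ← Real.rpow_mul hx0.le]
    have h7 : τ ^ s = x ^ (-(1 + η) * s) := by rw [hτdef, ← Real.rpow_mul hx0.le]
    have h8 : x ^ (η / 4) ≤ x ^ (b * ((d : ℝ) + 1 - s')) * x ^ (-(1 + (1 + η) * (m - 1))) *
        x ^ (-(1 + η) * s) := by
      rw [← Real.rpow_add hx0, ← Real.rpow_add hx0]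
      refine Real.rpow_le_rpow_of_exponent_le e6 ?_
      linarith only [hb1, hbs]
    have hBs : (0 : ℝ) < (B : ℝ) ^ s' := Real.rpow_pos_of_pos hB0 _
    have hBs' : (B : ℝ) ^ (-s') = ((B : ℝ) ^ s')⁻¹ := Real.rpow_neg hB0.le _
    have hxp : (0 : ℝ) < x ^ (1 + (1 + η) * (m - 1)) := Real.rpow_pos_of_pos hx0 _
    have hxn : x ^ (-(1 + (1 + η) * (m - 1))) = (x ^ (1 + (1 + η) * (m - 1)))⁻¹ :=
      Real.rpow_neg hx0.le _
    -- FB ≥ ...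
    have h9 : (1 / 2) * (ρ / 2) ^ d / K1 * (B : ℝ) ^ ((d : ℝ) + 1 - s') *
        (x ^ (1 + (1 + η) * (m - 1)))⁻¹ ≤ FB * (B : ℝ) ^ (-s') := by
      rw [h4] at h1
      rw [hBs', ← div_eq_mul_inv, ← div_eq_mul_inv, div_le_div_iff₀ hxp hBs]
      have h10 : (1 / 2) * (ρ / 2) ^ d / K1 * (B : ℝ) ^ ((d : ℝ) + 1 - s') * (B : ℝ) ^ s'
          = ((1 / 2) * (ρ / 2) ^ d * ((B : ℝ) ^ ((d : ℝ) + 1 - s') * (B : ℝ) ^ s')) / K1 := by ring
      rw [h10, div_le_iff₀ hK10]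
      linarith
    calc K3 * x ^ (η / 4)
        ≤ K3 * (x ^ (b * ((d : ℝ) + 1 - s')) * x ^ (-(1 + (1 + η) * (m - 1))) *
          x ^ (-(1 + η) * s)) := mul_le_mul_of_nonneg_left h8 hK30.le
      _ = (1 / 2) * (ρ / 2) ^ d / K1 * (x ^ b / 2) ^ ((d : ℝ) + 1 - s') *
        (x ^ (1 + (1 + η) * (m - 1)))⁻¹ * τ ^ s := by rw [h6, h7, hxn, hK3]; ring
      _ ≤ (1 / 2) * (ρ / 2) ^ d / K1 * (B : ℝ) ^ ((d : ℝ) + 1 - s') *
        (x ^ (1 + (1 + η) * (m - 1)))⁻¹ * τ ^ s := by gcongr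
      _ ≤ FB * (B : ℝ) ^ (-s') * τ ^ s := by gcongr
  have hM'le : M' ≤ FB * (B : ℝ) ^ (-s') * τ ^ s := by
    refine le_trans ?_ hmain
    rw [div_le_iff₀ hK30] at e4
    linarith
  have hN0 : 0 ≤ N := by positivity
  have hM'N : M' ≤ N * (R : ℝ) ^ (-s') * τ ^ s :=
    hM'le.trans (mul_le_mul_of_nonneg_right hFBN (by positivity))
  refine ⟨τ, R, hτ0, e1, ?_, ?_, ?_, ?_⟩
  · -- M ≤ R
    have h1 : (5 * M) ^ (d + 1) ≤ N := by
      calc (5 * M) ^ (d + 1) ≤ M' := le_max_right _ _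
        _ ≤ N * (R : ℝ) ^ (-s') * τ ^ s := hM'N
        _ ≤ N * 1 * 1 := by
            have h2 : (R : ℝ) ^ (-s') ≤ 1 := Real.rpow_le_one_of_one_le_of_nonpos hR1' (by linarith)
            have h3 : τ ^ s ≤ 1 := Real.rpow_le_one hτ0.le hτ1 hs0.le
            gcongr
        _ = N := by ring
    have h2 : N ≤ (5 * R) ^ (d + 1) := by
      rw [hN]; exact_mod_cast card_HomF_le hR1
    have h3 : 5 * M ≤ 5 * R := le_of_pow_le_pow_left₀ (by omega) (by positivity) (h1.trans h2)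
    linarith
  · calc M ≤ M' := le_max_left _ _
      _ ≤ N * (R : ℝ) ^ (-s') * τ ^ s := hM'N
      _ ≤ N * (R : ℝ) ^ (-s) * τ ^ s := by
          have : (R : ℝ) ^ (-s') ≤ (R : ℝ) ^ (-s) :=
            Real.rpow_le_rpow_of_exponent_le hR1' (by linarith)
          gcongr
      _ = N * (τ / R) ^ s := by
          rw [Real.div_rpow hτ0.le hR0.le, Real.rpow_neg hR0.le]; ring
  · have h1 : (10 * (R : ℝ)) ^ ((d : ℝ) + 1 - s) ≤ (10 * x ^ b) ^ ((d : ℝ) + 1 - s) :=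
      Real.rpow_le_rpow (by positivity) (by linarith) (by linarith)
    have h2 : (8 * τ) ^ (m + s) * (10 * x ^ b) ^ ((d : ℝ) + 1 - s)
        = 8 ^ (m + s) * 10 ^ ((d : ℝ) + 1 - s) * x ^ (-(η / 2)) := by
      rw [Real.mul_rpow (by norm_num) hτ0.le, Real.mul_rpow (by norm_num) (by positivity),
        hτdef, ← Real.rpow_mul hx0.le, ← Real.rpow_mul hx0.le]
      have h3 : x ^ (-(η / 2)) = x ^ (-(1 + η) * (m + s)) * x ^ (b * ((d : ℝ) + 1 - s)) := by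
        rw [← Real.rpow_add hx0]
        congr 1
        rw [hb1]; ring
      rw [h3]; ring
    calc (8 * τ) ^ (m + s) * (10 * (R : ℝ)) ^ ((d : ℝ) + 1 - s)
        ≤ (8 * τ) ^ (m + s) * (10 * x ^ b) ^ ((d : ℝ) + 1 - s) := by gcongr
      _ = 8 ^ (m + s) * 10 ^ ((d : ℝ) + 1 - s) * x ^ (-(η / 2)) := h2
      _ ≤ 1 / M := by
          rw [le_div_iff₀ (by positivity)] at e5
          linarith
  · exact growth hc hρ hρ1 hτ0 hs'0 hR1 hRB hmax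

end Pool.Agent.Helper93.JD
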