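import Pool.Agent.Helper93.JD.Basic

set_option autoImplicit false

namespace Pool.Agent.Helper93.JD

open Finset

variable {d m : ℕ}

/-- `w ↦ w A` for integer vectors `w = (w₀, w')`. -/
def ev (A0 : Fin m → ℝ) (A1 : Fin d → Fin m → ℝ) : ℤ × (Fin d → ℤ) →+ (Fin m → ℝ) where
  toFun w := fun j => w.1 * A0 j + ∑ i, w.2 i * A1 i j
  map_zero' := by funext j; simp
  map_add' := by
    intro x y; funext j
    simp only [Prod.fst_add, Prod.snd_add, Pi.add_apply, Int.cast_add, add_mul,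
      Finset.sum_add_distrib]
    ring

lemma ev_apply (A0 : Fin m → ℝ) (A1 : Fin d → Fin m → ℝ) (w : ℤ × (Fin d → ℤ)) (j : Fin m) :
    ev A0 A1 w j = w.1 * A0 j + ∑ i, w.2 i * A1 i j := rfl

/-- The convex body adapted to the ball `B(c,ρ)`. -/
def InK (c : Fin d → ℝ) (ρ σ : ℝ) (w : ℤ × (Fin d → ℤ)) : Prop :=
  |(w.1 : ℝ)| ≤ σ ∧ ∀ i, |(w.2 i : ℝ) - w.1 * c i| ≤ ρ * σ

/-- A big box. -/
noncomputable def bigBox (d : ℕ) (N : ℕ) : Finset (ℤ × (Fin d → ℤ)) :=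
  (Finset.Icc (-(N : ℤ)) N) ×ˢ (Fintype.piFinset fun _ : Fin d => Finset.Icc (-(N : ℤ)) N)

open Classical in
/-- The Bohr set. -/
noncomputable def HomF (A0 : Fin m → ℝ) (A1 : Fin d → Fin m → ℝ) (c : Fin d → ℝ) (ρ σ τ : ℝ) :
    Finset (ℤ × (Fin d → ℤ)) :=
  (bigBox d ⌈2 * σ⌉₊).filter (fun w => InK c ρ σ w ∧ NZ τ (ev A0 A1 w))

lemma InK.mem_bigBox {c : Fin d → ℝ} (hc : ∀ i, |c i| ≤ 1) {ρ : ℝ} (hρ1 : ρ ≤ 1) {σ : ℝ}
    {w : ℤ × (Fin d → ℤ)} (hw : InK c ρ σ w) : w ∈ bigBox d ⌈2 * σ⌉₊ := by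
  obtain ⟨h0, h1⟩ := hw
  have hσ : 0 ≤ σ := (abs_nonneg _).trans h0
  have hb : ∀ z : ℤ, |(z : ℝ)| ≤ 2 * σ → -((⌈2 * σ⌉₊ : ℕ) : ℤ) ≤ z ∧ z ≤ ((⌈2 * σ⌉₊ : ℕ) : ℤ) := by
    intro z hz
    have h2 := Nat.le_ceil (2 * σ)
    have h3 := abs_le.mp (hz.trans h2)
    constructor
    · exact_mod_cast h3.1
    · exact_mod_cast h3.2
  have hw0 := hb w.1 (h0.trans (by linarith))
  have hwi : ∀ i, |(w.2 i : ℝ)| ≤ 2 * σ := by
    intro i
    have h2 := h1 i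
    have h3 : |(w.1 : ℝ) * c i| ≤ σ := by
      rw [abs_mul]
      calc |(w.1 : ℝ)| * |c i| ≤ σ * 1 := mul_le_mul h0 (hc i) (abs_nonneg _) hσ
        _ = σ := mul_one _
    have h4 : (w.2 i : ℝ) = ((w.2 i : ℝ) - w.1 * c i) + w.1 * c i := by ring
    rw [h4]
    refine (abs_add_le _ _).trans ?_
    nlinarith
  rw [bigBox, Finset.mem_product, Fintype.mem_piFinset, Finset.mem_Icc]
  exact ⟨⟨hw0.1, hw0.2⟩, fun i => Finset.mem_Icc.mpr ⟨(hb _ (hwi i)).1, (hb _ (hwi i)).2⟩⟩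

lemma mem_HomF {A0 : Fin m → ℝ} {A1 : Fin d → Fin m → ℝ} {c : Fin d → ℝ} (hc : ∀ i, |c i| ≤ 1)
    {ρ : ℝ} (hρ1 : ρ ≤ 1) {σ τ : ℝ} {w : ℤ × (Fin d → ℤ)} :
    w ∈ HomF A0 A1 c ρ σ τ ↔ InK c ρ σ w ∧ NZ τ (ev A0 A1 w) := by
  classical
  rw [HomF, Finset.mem_filter]
  exact ⟨fun h => h.2, fun h => ⟨h.1.mem_bigBox hc hρ1, h⟩⟩

lemma InK.sub {c : Fin d → ℝ} {ρ σ σ' : ℝ} {w w' : ℤ × (Fin d → ℤ)} (h : InK c ρ σ w)
    (h' : InK c ρ σ' w') : InK c ρ (σ + σ') (w - w') := by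
  obtain ⟨a, b⟩ := h
  obtain ⟨a', b'⟩ := h'
  refine ⟨?_, fun i => ?_⟩
  · rw [Prod.fst_sub]; push_cast
    exact (abs_sub _ _).trans (add_le_add a a')
  · rw [Prod.snd_sub, Prod.fst_sub, Pi.sub_apply]; push_cast
    have : (w.2 i : ℝ) - w'.2 i - (w.1 - w'.1) * c i
        = ((w.2 i : ℝ) - w.1 * c i) - (w'.2 i - w'.1 * c i) := by ring
    rw [this]
    refine (abs_sub _ _).trans ?_
    rw [mul_add]
    exact add_le_add (b i) (b' i)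

lemma InK.mono {c : Fin d → ℝ} {ρ σ σ' : ℝ} (hρ : 0 ≤ ρ) (hσ : σ ≤ σ') {w : ℤ × (Fin d → ℤ)}
    (h : InK c ρ σ w) : InK c ρ σ' w :=
  ⟨h.1.trans hσ, fun i => (h.2 i).trans (by nlinarith)⟩

lemma InK.zero {c : Fin d → ℝ} {ρ σ : ℝ} (hρ : 0 ≤ ρ) (hσ : 0 ≤ σ) :
    InK c ρ σ (0 : ℤ × (Fin d → ℤ)) := by
  refine ⟨by simpa using hσ, fun i => ?_⟩
  simp only [Prod.snd_zero, Prod.fst_zero, Pi.zero_apply, Int.cast_zero, zero_mul, sub_zero,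
    abs_zero]
  positivity

/-- Doubling: the `(kσ, 2τ)` Bohr set is covered by boundedly many translates of the `(σ,τ)` one. -/
lemma card_HomF_double {A0 : Fin m → ℝ} {A1 : Fin d → Fin m → ℝ} {c : Fin d → ℝ}
    (hc : ∀ i, |c i| ≤ 1) {ρ : ℝ} (hρ : 0 < ρ) (hρ1 : ρ ≤ 1) {σ τ : ℝ} (hσ : 0 < σ) (hτ : 0 < τ)
    (k : ℕ) :
    (HomF A0 A1 c ρ (k * σ) (2 * τ)).card ≤
      (2 * k + 1) ^ (d + 1) * 5 ^ m * (HomF A0 A1 c ρ σ τ).card := by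
  classical
  -- class function
  have hnz : ∀ w : ℤ × (Fin d → ℤ), NZ (2 * τ) (ev A0 A1 w) →
      ∀ j, ∃ n : ℤ, |ev A0 A1 w j - n| < 2 * τ := fun w h => h
  choose! nn hnn using hnz
  let f : ℤ × (Fin d → ℤ) → (ℤ × (Fin d → ℤ)) × (Fin m → ℤ) := fun w =>
    ((⌊(w.1 : ℝ) / σ⌋, fun i => ⌊((w.2 i : ℝ) - w.1 * c i) / (ρ * σ)⌋),
      fun j => ⌊(ev A0 A1 w j - nn w j) / τ⌋)
  let T' : Finset ((ℤ × (Fin d → ℤ)) × (Fin m → ℤ)) :=
    ((Finset.Icc (-(k : ℤ)) k) ×ˢ (Fintype.piFinset fun _ => Finset.Icc (-(k : ℤ)) k)) ×ˢ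
      (Fintype.piFinset fun _ => Finset.Icc (-2 : ℤ) 2)
  have hfl : ∀ (x y : ℝ) (K : ℕ), 0 < y → |x| ≤ K * y →
      ⌊x / y⌋ ∈ Finset.Icc (-(K : ℤ)) K := by
    intro x y K hy hx
    have h1 := abs_le.mp hx
    rw [Finset.mem_Icc]
    constructor
    · rw [Int.le_floor]; push_cast
      rw [le_div_iff₀ hy]; linarith [h1.1]
    · have : ((⌊x / y⌋ : ℤ) : ℝ) ≤ K :=
        (Int.floor_le _).trans ((div_le_iff₀ hy).mpr h1.2)
      exact_mod_cast this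
  have hcard : T'.card = (2 * k + 1) ^ (d + 1) * 5 ^ m := by
    simp only [T', Finset.card_product, Fintype.card_piFinset, Int.card_Icc, Finset.prod_const,
      Finset.card_univ, Fintype.card_fin]
    have : ((k : ℤ) + 1 - -(k : ℤ)).toNat = 2 * k + 1 := by omega
    rw [this, pow_succ']
    norm_num
    rfl
  rw [← hcard]
  refine card_le_of_diff _ T' f ?_ _ ?_
  · intro w hw
    rw [mem_HomF hc hρ1] at hw
    obtain ⟨⟨h0, h1⟩, h2⟩ := hw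
    simp only [T', f, Finset.mem_product, Fintype.mem_piFinset]
    refine ⟨⟨hfl _ _ k hσ h0, fun i => hfl _ _ k (by positivity) ?_⟩, fun j => ?_⟩
    · have := h1 i; linarith [this, mul_left_comm ρ (k : ℝ) σ]
    · have := hfl (ev A0 A1 w j - nn w j) τ 2 hτ (by exact_mod_cast (hnn w h2 j).le)
      exact_mod_cast this
  · intro w hw w' hw' hff
    rw [mem_HomF hc hρ1] at hw hw' ⊢
    obtain ⟨⟨h0, h1⟩, h2⟩ := hw
    obtain ⟨⟨h0', h1'⟩, h2'⟩ := hw'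
    simp only [f, Prod.mk.injEq] at hff
    obtain ⟨⟨e0, e1⟩, e2⟩ := hff
    have hd : ∀ (x x' y : ℝ), 0 < y → ⌊x / y⌋ = ⌊x' / y⌋ → |x - x'| < y := by
      intro x x' y hy he
      have a1 := Int.floor_le (x / y)
      have a2 := Int.lt_floor_add_one (x / y)
      have a3 := Int.floor_le (x' / y)
      have a4 := Int.lt_floor_add_one (x' / y)
      rw [he] at a1 a2
      have hx : x = x / y * y := by field_simp
      have hx' : x' = x' / y * y := by field_simp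
      rw [hx, hx', ← sub_mul, abs_mul, abs_of_pos hy]
      have : |x / y - x' / y| < 1 := by rw [abs_lt]; constructor <;> linarith
      nlinarith
    refine ⟨⟨?_, fun i => ?_⟩, fun j => ?_⟩
    · rw [Prod.fst_sub]; push_cast
      exact (hd _ _ _ hσ e0).le
    · rw [Prod.snd_sub, Prod.fst_sub, Pi.sub_apply]; push_cast
      have h3 := hd _ _ _ (by positivity) (congrFun e1 i)
      have : (w.2 i : ℝ) - w'.2 i - (w.1 - w'.1) * c i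
        = ((w.2 i : ℝ) - w.1 * c i) - (w'.2 i - w'.1 * c i) := by ring
      rw [this]; exact h3.le
    · refine ⟨nn w j - nn w' j, ?_⟩
      have h3 := hd _ _ _ hτ (congrFun e2 j)
      rw [map_sub, Pi.sub_apply]; push_cast
      have : ev A0 A1 w j - ev A0 A1 w' j - (nn w j - nn w' j)
        = (ev A0 A1 w j - nn w j) - (ev A0 A1 w' j - nn w' j) := by ring
      rw [this]; exact h3

end Pool.Agent.Helper93.JD
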