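import Mathlib

set_option autoImplicit false

namespace Pool.Agent.Helper93.JD

open MeasureTheory Set Metric
open scoped ENNReal

variable {d : ℕ}

/-- A weighted ball. -/
structure Node (d : ℕ) where
  c : Fin d → ℝ
  ρ : ℝ
  wt : ℝ

/-- The profile of the potential. -/
noncomputable def gg (C s x : ℝ) : ℝ := if x < 1 then C * x ^ s else 1

open Classical in
/-- Potential of one node at the ball `B(y,r)`. -/
noncomputable def phi (C s : ℝ) (y : Fin d → ℝ) (r : ℝ) (D : Node d) : ℝ :=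
  if dist D.c y ≤ r + D.ρ then D.wt * gg C s (r / D.ρ) else 0

/-- Potential of a list of nodes. -/
noncomputable def Phi (C s : ℝ) (L : List (Node d)) (y : Fin d → ℝ) (r : ℝ) : ℝ :=
  (L.map (phi C s y r)).sum

/-- Union of the balls of a list. -/
def UU (L : List (Node d)) : Set (Fin d → ℝ) := {x | ∃ D ∈ L, dist x D.c ≤ D.ρ}

lemma isCompact_UU (L : List (Node d)) : IsCompact (UU L) := by
  induction L with
  | nil =>
    have : UU ([] : List (Node d)) = ∅ := by
      ext x; simp [UU]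
    rw [this]; exact isCompact_empty
  | cons D L ih =>
    have : UU (D :: L) = closedBall D.c D.ρ ∪ UU L := by
      ext x
      simp [UU, Metric.mem_closedBall]
    rw [this]
    exact (isCompact_closedBall _ _).union ih

lemma gg_nonneg {C s x : ℝ} (hC : 0 ≤ C) (hx : 0 ≤ x) : 0 ≤ gg C s x := by
  rw [gg]; split_ifs
  · positivity
  · norm_num

lemma phi_nonneg {C s : ℝ} (hC : 0 ≤ C) {y : Fin d → ℝ} {r : ℝ} (hr : 0 ≤ r) {D : Node d}
    (hD : 0 ≤ D.wt) (hρ : 0 ≤ D.ρ) : 0 ≤ phi C s y r D := by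
  rw [phi]; split_ifs
  · exact mul_nonneg hD (gg_nonneg hC (by positivity))
  · exact le_rfl

lemma sum_list_comm {ι α : Type*} (F : Finset ι) (f : ι → α → ℝ) (L : List α) :
    ∑ j ∈ F, (L.map (f j)).sum = (L.map fun D => ∑ j ∈ F, f j D).sum := by
  induction L with
  | nil => simp
  | cons D L ih => simp only [List.map_cons, List.sum_cons, Finset.sum_add_distrib, ih]

/-- Mass distribution principle for nested families of weighted balls. -/
theorem mass_pos (L : ℕ → List (Node d)) {s C : ℝ} (hs : 0 < s) (hC : 1 ≤ C)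
    (hw : ∀ n, ((L n).map Node.wt).sum = 1) (hw0 : ∀ n, ∀ D ∈ L n, 0 ≤ D.wt)
    (hρ0 : ∀ n, ∀ D ∈ L n, 0 < D.ρ) (hρ : ∀ n, ∀ D ∈ L n, D.ρ ≤ (2 / 7) ^ n)
    (hnest : ∀ n, ∀ D' ∈ L (n + 1), ∃ D ∈ L n, dist D'.c D.c + D'.ρ ≤ D.ρ)
    (hΦ : ∀ n y r, 0 < r → Phi C s (L n) y r ≤ C * r ^ s) :
    0 < μH[s] (⋂ n, UU (L n)) := by
  classical
  have hC0 : 0 < C := by linarith
  have hanti : Antitone fun n => UU (L n) := by
    refine antitone_nat_of_succ_le fun n x hx => ?_
    obtain ⟨D', hD', hx'⟩ := hx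
    obtain ⟨D, hD, h⟩ := hnest n D' hD'
    exact ⟨D, hD, by linarith [dist_triangle x D'.c D.c]⟩
  set K := ⋂ n, UU (L n) with hK
  have hKc : IsCompact K := by
    refine (isCompact_UU (L 0)).of_isClosed_subset ?_ (iInter_subset _ 0)
    exact isClosed_iInter fun n => (isCompact_UU (L n)).isClosed
  rw [pos_iff_ne_zero]
  intro h0
  rw [Measure.hausdorffMeasure_apply] at h0
  have h1 : (⨅ (t : ℕ → Set (Fin d → ℝ)) (_ : K ⊆ ⋃ n, t n) (_ : ∀ n, ediam (t n) ≤ 1),
      ∑' n, ⨆ _ : (t n).Nonempty, ediam (t n) ^ s) = 0 := by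
    have h2 := le_iSup₂ (f := fun (r : ℝ≥0∞) (_ : 0 < r) =>
      ⨅ (t : ℕ → Set (Fin d → ℝ)) (_ : K ⊆ ⋃ n, t n) (_ : ∀ n, ediam (t n) ≤ r),
      ∑' n, ⨆ _ : (t n).Nonempty, ediam (t n) ^ s) 1 zero_lt_one
    rw [h0] at h2
    exact le_antisymm h2 zero_le
  have hε : (0 : ℝ≥0∞) < ENNReal.ofReal (1 / (4 * C)) := by
    rw [ENNReal.ofReal_pos]; positivity
  rw [← h1] at hε
  simp only [iInf_lt_iff] at hε
  obtain ⟨t, hcov, hdiam, hsum⟩ := hε
  -- real diameters
  set δ : ℕ → ℝ := fun n => (ediam (t n)).toReal with hδ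
  have hfin : ∀ n, ediam (t n) ≠ ⊤ := fun n => ne_top_of_le_ne_top ENNReal.one_ne_top (hdiam n)
  have hδ0 : ∀ n, 0 ≤ δ n := fun n => ENNReal.toReal_nonneg
  have hη : ∀ n : ℕ, ∃ r : ℝ, δ n < r ∧ C * r ^ s ≤ C * δ n ^ s + 1 / 4 * (1 / 2) ^ (n + 1) := by
    intro n
    have hcont : ContinuousAt (fun x : ℝ => C * x ^ s) (δ n) :=
      (Real.continuousAt_rpow_const _ _ (Or.inr hs.le)).const_mul C
    have hev : ∀ᶠ x in nhds (δ n), C * x ^ s < C * δ n ^ s + 1 / 4 * (1 / 2) ^ (n + 1) := by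
      refine hcont.eventually_lt_const ?_
      have : (0 : ℝ) < 1 / 4 * (1 / 2) ^ (n + 1) := by positivity
      linarith
    obtain ⟨ε, hε, hball⟩ := Metric.eventually_nhds_iff.mp hev
    refine ⟨δ n + ε / 2, by linarith, (hball ?_).le⟩
    rw [Real.dist_eq, add_sub_cancel_left, abs_of_pos (by positivity)]; linarith
  choose r hr1 hr2 using hη
  have hr0 : ∀ n, 0 < r n := fun n => lt_of_le_of_lt (hδ0 n) (hr1 n)
  have hy : ∀ n, ∃ y : Fin d → ℝ, t n ⊆ ball y (r n) := by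
    intro n
    rcases (t n).eq_empty_or_nonempty with he | ⟨y, hy⟩
    · exact ⟨0, by rw [he]; exact empty_subset _⟩
    · refine ⟨y, fun x hx => ?_⟩
      rw [Metric.mem_ball, dist_edist]
      refine lt_of_le_of_lt ?_ (hr1 n)
      exact ENNReal.toReal_mono (hfin n) (Metric.edist_le_ediam_of_mem hx hy)
  choose y hyb using hy
  have hKV : K ⊆ ⋃ n, ball (y n) (r n) := hcov.trans (iUnion_mono hyb)
  obtain ⟨F, hF⟩ := hKc.elim_finite_subcover (fun n => ball (y n) (r n))
    (fun n => isOpen_ball) hKV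
  have hVopen : IsOpen (⋃ n ∈ F, ball (y n) (r n)) :=
    isOpen_biUnion fun n _ => isOpen_ball
  obtain ⟨k, hk⟩ := exists_subset_nhds_of_isCompact (V := fun n => UU (L n))
    (by
      intro a b
      exact ⟨max a b, hanti (le_max_left _ _), hanti (le_max_right _ _)⟩)
    (fun n => isCompact_UU (L n)) (U := ⋃ n ∈ F, ball (y n) (r n))
    (fun x hx => hVopen.mem_nhds (hF hx))
  -- small radii
  have hsmall : ∀ᶠ n : ℕ in Filter.atTop, ∀ j ∈ F, (2 / 7 : ℝ) ^ n ≤ r j := by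
    rw [Filter.eventually_all_finset]
    intro j _
    exact (tendsto_pow_atTop_nhds_zero_of_lt_one (by norm_num) (by norm_num)).eventually_le_const
      (hr0 j)
  obtain ⟨n, hn1, hn2⟩ := (hsmall.and (Filter.eventually_ge_atTop k)).exists
  -- comparison
  have hD : ∀ D ∈ L n, D.wt ≤ ∑ j ∈ F, phi C s (y j) (r j) D := by
    intro D hD
    have hmem : D.c ∈ UU (L n) := ⟨D, hD, by rw [dist_self]; exact (hρ0 n D hD).le⟩
    have := hk (hanti hn2 hmem)
    simp only [mem_iUnion] at this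
    obtain ⟨j, hj, hball⟩ := this
    rw [Metric.mem_ball] at hball
    have h2 : phi C s (y j) (r j) D = D.wt := by
      have hρD := hρ0 n D hD
      rw [phi, if_pos (by linarith), gg, if_neg, mul_one]
      rw [not_lt, le_div_iff₀ hρD, one_mul]
      exact (hρ n D hD).trans (hn1 j hj)
    rw [← h2]
    exact Finset.single_le_sum (f := fun j => phi C s (y j) (r j) D)
      (fun i _ => phi_nonneg hC0.le (hr0 i).le (hw0 n D hD) (hρ0 n D hD).le) hj
  have hsumle : (1 : ℝ) ≤ ∑ j ∈ F, Phi C s (L n) (y j) (r j) := by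
    rw [← hw n]
    have h2 : ∑ j ∈ F, Phi C s (L n) (y j) (r j) =
        ((L n).map fun D => ∑ j ∈ F, phi C s (y j) (r j) D).sum := by
      simp only [Phi]
      exact sum_list_comm _ _ _
    rw [h2]
    exact List.sum_le_sum hD
  have hsum2 : ∑ j ∈ F, Phi C s (L n) (y j) (r j) ≤ C * ∑ j ∈ F, δ j ^ s + 1 / 4 := by
    calc ∑ j ∈ F, Phi C s (L n) (y j) (r j) ≤ ∑ j ∈ F, C * r j ^ s :=
          Finset.sum_le_sum fun j _ => hΦ n _ _ (hr0 j)
      _ ≤ ∑ j ∈ F, (C * δ j ^ s + 1 / 4 * (1 / 2) ^ (j + 1)) :=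
          Finset.sum_le_sum fun j _ => hr2 j
      _ = C * ∑ j ∈ F, δ j ^ s + 1 / 4 * ∑ j ∈ F, (1 / 2 : ℝ) ^ (j + 1) := by
          rw [Finset.sum_add_distrib, Finset.mul_sum, Finset.mul_sum]
      _ ≤ C * ∑ j ∈ F, δ j ^ s + 1 / 4 * 1 := by
          have h3 : ∑ j ∈ F, (1 / 2 : ℝ) ^ (j + 1) ≤ 1 := by
            have hsm : Summable fun j : ℕ => (1 / 2 : ℝ) ^ (j + 1) :=
              (summable_nat_add_iff 1).mpr
                (summable_geometric_of_lt_one (by norm_num) (by norm_num))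
            have h4 := hsm.sum_le_tsum F (fun i _ => by positivity)
            have h5 : ∑' j : ℕ, (1 / 2 : ℝ) ^ (j + 1) = 1 := by
              simp only [pow_succ]
              rw [tsum_mul_right, tsum_geometric_of_lt_one (by norm_num) (by norm_num)]
              norm_num
            linarith
          gcongr
      _ = _ := by ring
  have hsum3 : ∑ j ∈ F, δ j ^ s ≤ 1 / (4 * C) := by
    have h2 : ENNReal.ofReal (∑ j ∈ F, δ j ^ s) ≤
        ∑' n, ⨆ _ : (t n).Nonempty, ediam (t n) ^ s := by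
      rw [ENNReal.ofReal_sum_of_nonneg (fun j _ => by have := hδ0 j; positivity)]
      refine le_trans ?_ (ENNReal.sum_le_tsum F)
      refine Finset.sum_le_sum fun j _ => ?_
      rcases (t j).eq_empty_or_nonempty with he | hne
      · have : δ j = 0 := by rw [hδ]; simp [he]
        rw [this, Real.zero_rpow hs.ne']; simp
      · rw [← ENNReal.ofReal_rpow_of_nonneg (hδ0 j) hs.le, hδ]
        simp only
        rw [ENNReal.ofReal_toReal (hfin j)]
        exact le_iSup (fun _ : (t j).Nonempty => ediam (t j) ^ s) hne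
    have h3 := h2.trans_lt hsum
    rw [ENNReal.ofReal_lt_ofReal_iff (by positivity)] at h3
    exact h3.le
  have hfinal : C * ∑ j ∈ F, δ j ^ s ≤ 1 / 4 := by
    calc C * ∑ j ∈ F, δ j ^ s ≤ C * (1 / (4 * C)) := by gcongr
      _ = 1 / 4 := by field_simp
  linarith

end Pool.Agent.Helper93.JD
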