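import Pool.Agent.Helper93.JD.Stage
import Pool.Agent.Helper93.JD.Tree

set_option autoImplicit false

namespace Pool.Agent.Helper93.JD

open Finset

variable {d m : ℕ}

/-- The inhomogeneous approximation condition. -/
def Good (A0 : Fin m → ℝ) (A1 : Fin d → Fin m → ℝ) (x : Fin d → ℝ)
    (θ : (Fin d → ℝ) × (Fin m → ℝ)) (q : ℕ) (ε : ℝ) : Prop :=
  NZ ε (fun i => q * x i - θ.1 i) ∧ NZ ε (fun j => q * (A0 j + ∑ i, x i * A1 i j) - θ.2 j)

lemma NZ.of_close {ι : Type*} {ε δ : ℝ} {y y' : ι → ℝ} (h : NZ ε y)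
    (hd : ∀ j, |y' j - y j| ≤ δ) : NZ (ε + δ) y' := by
  intro j
  obtain ⟨k, hk⟩ := h j
  refine ⟨k, ?_⟩
  have : y' j - k = (y j - k) + (y' j - y j) := by ring
  rw [this]
  exact (abs_add_le _ _).trans_lt (add_lt_add_of_lt_of_le hk (hd j))

lemma Good.stable {A0 : Fin m → ℝ} {A1 : Fin d → Fin m → ℝ} {x : Fin d → ℝ}
    {θ θ' : (Fin d → ℝ) × (Fin m → ℝ)} {q : ℕ} {ε δ : ℝ} (h : Good A0 A1 x θ q ε)
    (hd : dist θ' θ ≤ δ) : Good A0 A1 x θ' q (ε + δ) := by
  have hδ : 0 ≤ δ := dist_nonneg.trans hd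
  rw [Prod.dist_eq, max_le_iff, dist_pi_le_iff hδ, dist_pi_le_iff hδ] at hd
  refine ⟨h.1.of_close fun i => ?_, h.2.of_close fun j => ?_⟩
  · have := hd.1 i
    rw [Real.dist_eq] at this
    have e : (q : ℝ) * x i - θ'.1 i - (q * x i - θ.1 i) = -(θ'.1 i - θ.1 i) := by ring
    rw [e, abs_neg]; exact this
  · have := hd.2 j
    rw [Real.dist_eq] at this
    have e : (q : ℝ) * (A0 j + ∑ i, x i * A1 i j) - θ'.2 j -
      (q * (A0 j + ∑ i, x i * A1 i j) - θ.2 j) = -(θ'.2 j - θ.2 j) := by ring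
    rw [e, abs_neg]; exact this

/-- Admissible shifts. -/
def Adm (A0 : Fin m → ℝ) (A1 : Fin d → Fin m → ℝ) (θ : (Fin d → ℝ) × (Fin m → ℝ)) : Prop :=
  ∃ (b : ℤ × (Fin d → ℤ)) (k : Fin m → ℤ), ∀ j,
    θ.2 j = ev A0 A1 b j + ∑ i, θ.1 i * A1 i j + k j

open Classical in
/-- The statement of a stage, in metric form. -/
def StageProp (A0 : Fin m → ℝ) (A1 : Fin d → Fin m → ℝ) (s C : ℝ) : Prop :=
  ∀ (θ : (Fin d → ℝ) × (Fin m → ℝ)), Adm A0 A1 θ → ∀ (c : Fin d → ℝ) (ρ t ε : ℝ) (M0 : ℕ),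
    ‖c‖ ≤ 1 → 0 < ρ → ρ ≤ 1 → 0 < t → t ≤ 1 → 0 < ε →
    ∃ (θ' : (Fin d → ℝ) × (Fin m → ℝ)) (τ : ℝ) (R : ℕ) (ρ' : ℝ) (W : Finset (ℤ × (Fin d → ℤ)))
      (cc : ℤ × (Fin d → ℤ) → Fin d → ℝ), Adm A0 A1 θ' ∧ dist θ' θ ≤ t ∧ 0 < τ ∧ M0 ≤ R ∧
      1 ≤ R ∧ (8 * τ) ^ (m + s) * (10 * R) ^ (d + 1 - s) ≤ ε ∧ 0 < ρ' ∧ ρ' ≤ 2 / 7 * ρ ∧
      W.Nonempty ∧ (∀ w ∈ W, dist (cc w) c ≤ 5 / 7 * ρ) ∧
      (∀ (y : Fin d → ℝ) (r : ℝ), ρ' ≤ r → r < ρ →
          ((W.filter (fun w => dist (cc w) y ≤ 2 * r)).card : ℝ) ≤ C * W.card * (r / ρ) ^ s) ∧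
      (∀ y : Fin d → ℝ, ((W.filter (fun w => dist (cc w) y ≤ 2 * ρ')).card : ℝ) ≤
            W.card * (ρ' / ρ) ^ s) ∧
      ∀ w ∈ W, ∀ x : Fin d → ℝ, dist x (cc w) ≤ ρ' → ∃ q : ℕ, R ≤ q ∧ q ≤ 10 * R ∧
        Good A0 A1 x θ' q (2 * τ)

open Classical in
theorem stageProp {A0 : Fin m → ℝ} {A1 : Fin d → Fin m → ℝ} {w s η b0 s' : ℝ} (hs0 : 0 < s)
    (hη : 0 < η) (hb : 0 < b0) (hbw : b0 + η < w)
    (hb1 : b0 * (d + 1 - s) = (1 + η) * (m + s) - η / 2) (hss' : s < s') (hs'd : s' < d)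
    (hbs : b0 * (s' - s) ≤ η / 4) (hm : 1 ≤ m)
    (HQ : ∀ X0 : ℕ, ∃ (q : Fin m → ℤ) (Q : ℕ) (j0 : Fin m) (n0 : ℤ) (n1 : Fin d → ℤ), X0 ≤ Q ∧
      (∀ j, |q j| ≤ Q) ∧ |q j0| = Q ∧ |∑ j, A0 j * q j - n0| ≤ (Q : ℝ) ^ (-w) ∧
      ∀ i, |∑ j, A1 i j * q j - n1 i| ≤ (Q : ℝ) ^ (-w)) :
    ∃ C : ℝ, 1 ≤ C ∧ StageProp A0 A1 s C := by
  obtain ⟨C, hC, hstage⟩ := stage hs0 hη hb hbw hb1 hss' hs'd hbs hm HQ
  refine ⟨C, hC, ?_⟩
  intro θ hθ c ρ t ε M0 hc hρ hρ1 ht ht1 hε
  obtain ⟨b, k0, hθ2⟩ := hθ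
  have hc' : ∀ i, |c i| ≤ 1 := fun i => by
    rw [← Real.norm_eq_abs]; exact (norm_le_pi_norm c i).trans hc
  obtain ⟨τ, R, ρ', b2, θ2, W, cc, hτ, hτM, hMR, hsm, hθ', hNZ, hρ', hρ'ρ, hW, hcl, hc1, hc2,
    hsol⟩ := hstage b θ.1 c ρ t (max 1 (max M0 (1 / ε))) hc' hρ hρ1 ht ht1 (le_max_left _ _)
  choose k hk using hNZ
  refine ⟨(θ2, fun j => ev A0 A1 b2 j + ∑ i, θ2 i * A1 i j + ((k0 j - k j : ℤ) : ℝ)), τ, R, ρ', W,
    cc, ⟨b2, fun j => k0 j - k j, fun j => rfl⟩, ?_, hτ, ?_, ?_, ?_, hρ', hρ'ρ, hW, ?_, ?_, ?_, ?_⟩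
  · rw [Prod.dist_eq, max_le_iff, dist_pi_le_iff ht.le, dist_pi_le_iff ht.le]
    refine ⟨fun i => ?_, fun j => ?_⟩
    · rw [Real.dist_eq]; exact hθ' i
    · rw [Real.dist_eq, hθ2 j]
      have h1 := (hk j).le
      have e : ev A0 A1 b2 j + ∑ i, θ2 i * A1 i j + ((k0 j - k j : ℤ) : ℝ) -
          (ev A0 A1 b j + ∑ i, θ.1 i * A1 i j + k0 j)
          = (ev A0 A1 (b2 - b) + fun j => ∑ i, (θ2 i - θ.1 i) * A1 i j) j - k j := by
        rw [Pi.add_apply, map_sub, Pi.sub_apply]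
        simp only [sub_mul, Finset.sum_sub_distrib]
        push_cast
        ring
      simp only
      rw [e]; exact h1
  · have : (M0 : ℝ) ≤ R := ((le_max_left _ _).trans (le_max_right _ _)).trans hMR
    exact_mod_cast this
  · have : (1 : ℝ) ≤ R := (le_max_left _ _).trans hMR
    exact_mod_cast this
  · refine hsm.trans ?_
    have h1 : 1 / ε ≤ max 1 (max (M0 : ℝ) (1 / ε)) := (le_max_right _ _).trans (le_max_right _ _)
    have h2 : 0 < 1 / ε := by positivity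
    calc 1 / max 1 (max (M0 : ℝ) (1 / ε)) ≤ 1 / (1 / ε) :=
          div_le_div_of_nonneg_left (by norm_num) h2 h1
      _ = ε := by field_simp
  · intro w hw
    rw [dist_pi_le_iff (by positivity)]
    exact fun i => by rw [Real.dist_eq]; exact hcl w hw i
  · intro y r hr1 hr2
    have h1 := hc1 y r hr1 hr2
    have h2 : W.filter (fun w => dist (cc w) y ≤ 2 * r) =
        W.filter (fun w => ∀ i, |cc w i - y i| ≤ 2 * r) := by
      refine Finset.filter_congr fun w _ => ?_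
      rw [dist_pi_le_iff (by linarith)]
      simp only [Real.dist_eq]
    rw [h2]; exact h1
  · intro y
    have h1 := hc2 y
    have h2 : W.filter (fun w => dist (cc w) y ≤ 2 * ρ') =
        W.filter (fun w => ∀ i, |cc w i - y i| ≤ 2 * ρ') := by
      refine Finset.filter_congr fun w _ => ?_
      rw [dist_pi_le_iff (by linarith)]
      simp only [Real.dist_eq]
    rw [h2]; exact h1
  · intro w hw x hx
    rw [dist_pi_le_iff hρ'.le] at hx
    obtain ⟨q, hq1, hq2, hg1, hg2⟩ := hsol w hw x (fun i => by rw [← Real.dist_eq]; exact hx i)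
    refine ⟨q, hq1, hq2, hg1, fun j => ?_⟩
    obtain ⟨n, hn⟩ := hg2 j
    refine ⟨n - (k0 j - k j), ?_⟩
    have e : (q : ℝ) * (A0 j + ∑ i, x i * A1 i j) -
        (ev A0 A1 b2 j + ∑ i, θ2 i * A1 i j + ((k0 j - k j : ℤ) : ℝ)) -
        ((n - (k0 j - k j) : ℤ) : ℝ) =
        (q : ℝ) * (A0 j + ∑ i, x i * A1 i j) - (ev A0 A1 b2 j + ∑ i, θ2 i * A1 i j) - n := by
      push_cast; ring
    simp only
    rw [e]; exact hn

open Classical in
/-- The potential does not increase when a node is replaced by its children. -/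
lemma phi_children {s C : ℝ} (hC : 1 ≤ C) {c : Fin d → ℝ} {ρ wt ρ' : ℝ}
    (hρ : 0 < ρ) (hwt : 0 ≤ wt) (hρ' : 0 < ρ') (hρ'ρ : ρ' ≤ 2 / 7 * ρ) {ω : Type*}
    (W : Finset ω) (hW : W.Nonempty) (cc : ω → Fin d → ℝ)
    (hcl : ∀ w ∈ W, dist (cc w) c ≤ 5 / 7 * ρ)
    (hc1 : ∀ (y : Fin d → ℝ) (r : ℝ), ρ' ≤ r → r < ρ →
          ((W.filter (fun w => dist (cc w) y ≤ 2 * r)).card : ℝ) ≤ C * W.card * (r / ρ) ^ s)
    (hc2 : ∀ y : Fin d → ℝ, ((W.filter (fun w => dist (cc w) y ≤ 2 * ρ')).card : ℝ) ≤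
            W.card * (ρ' / ρ) ^ s) (y : Fin d → ℝ) {r : ℝ} (hr : 0 < r) :
    ∑ w ∈ W, phi C s y r ⟨cc w, ρ', wt / W.card⟩ ≤ phi C s y r ⟨c, ρ, wt⟩ := by
  have hW0 : (0 : ℝ) < W.card := by exact_mod_cast Finset.card_pos.mpr hW
  have hC0 : 0 ≤ C := by linarith
  have hsum : ∑ w ∈ W, phi C s y r ⟨cc w, ρ', wt / W.card⟩ =
      (wt / W.card * gg C s (r / ρ')) *
        ((W.filter (fun w => dist (cc w) y ≤ r + ρ')).card : ℝ) := by
    simp only [phi]
    rw [← Finset.sum_filter, Finset.sum_const, nsmul_eq_mul]; ring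
  rw [hsum]
  have hg' : 0 ≤ gg C s (r / ρ') := gg_nonneg hC0 (by positivity)
  by_cases hnear : dist c y ≤ r + ρ
  · have hphi : phi C s y r ⟨c, ρ, wt⟩ = wt * gg C s (r / ρ) := by
      rw [phi]; exact if_pos hnear
    rw [hphi]
    rcases le_or_gt ρ r with h1 | h1
    · -- `r ≥ ρ`
      have e1 : gg C s (r / ρ) = 1 := by
        rw [gg, if_neg]; rw [not_lt, le_div_iff₀ hρ]; linarith
      have e2 : gg C s (r / ρ') = 1 := by
        rw [gg, if_neg]; rw [not_lt, le_div_iff₀ hρ']; linarith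
      rw [e1, e2]
      have h2 : ((W.filter (fun w => dist (cc w) y ≤ r + ρ')).card : ℝ) ≤ W.card := by
        exact_mod_cast Finset.card_le_card (Finset.filter_subset _ _)
      calc wt / W.card * 1 * ((W.filter (fun w => dist (cc w) y ≤ r + ρ')).card : ℝ)
          ≤ wt / W.card * 1 * W.card := by gcongr
        _ = wt * 1 := by field_simp
    · rcases le_or_gt ρ' r with h2 | h2
      · have e1 : gg C s (r / ρ) = C * (r / ρ) ^ s := by
          rw [gg, if_pos]; rw [div_lt_one hρ]; exact h1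
        have e2 : gg C s (r / ρ') = 1 := by
          rw [gg, if_neg]; rw [not_lt, le_div_iff₀ hρ']; linarith
        rw [e1, e2]
        have h3 : ((W.filter (fun w => dist (cc w) y ≤ r + ρ')).card : ℝ) ≤
            C * W.card * (r / ρ) ^ s := by
          refine le_trans ?_ (hc1 y r h2 h1)
          have : W.filter (fun w => dist (cc w) y ≤ r + ρ') ⊆
              W.filter (fun w => dist (cc w) y ≤ 2 * r) := by
            intro w hw
            rw [Finset.mem_filter] at hw ⊢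
            exact ⟨hw.1, by linarith [hw.2]⟩
          exact_mod_cast Finset.card_le_card this
        calc wt / W.card * 1 * ((W.filter (fun w => dist (cc w) y ≤ r + ρ')).card : ℝ)
            ≤ wt / W.card * 1 * (C * W.card * (r / ρ) ^ s) := by gcongr
          _ = wt * (C * (r / ρ) ^ s) := by field_simp
      · have e1 : gg C s (r / ρ) = C * (r / ρ) ^ s := by
          rw [gg, if_pos]; rw [div_lt_one hρ]; exact h1
        have e2 : gg C s (r / ρ') = C * (r / ρ') ^ s := by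
          rw [gg, if_pos]; rw [div_lt_one hρ']; exact h2
        rw [e1, e2]
        have h3 : ((W.filter (fun w => dist (cc w) y ≤ r + ρ')).card : ℝ) ≤
            W.card * (ρ' / ρ) ^ s := by
          refine le_trans ?_ (hc2 y)
          have : W.filter (fun w => dist (cc w) y ≤ r + ρ') ⊆
              W.filter (fun w => dist (cc w) y ≤ 2 * ρ') := by
            intro w hw
            rw [Finset.mem_filter] at hw ⊢
            exact ⟨hw.1, by linarith [hw.2]⟩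
          exact_mod_cast Finset.card_le_card this
        have h4 : (r / ρ') ^ s * (ρ' / ρ) ^ s = (r / ρ) ^ s := by
          rw [← Real.mul_rpow (by positivity) (by positivity)]
          congr 1; field_simp
        calc wt / W.card * (C * (r / ρ') ^ s) *
              ((W.filter (fun w => dist (cc w) y ≤ r + ρ')).card : ℝ)
            ≤ wt / W.card * (C * (r / ρ') ^ s) * (W.card * (ρ' / ρ) ^ s) := by gcongr
          _ = wt * (C * ((r / ρ') ^ s * (ρ' / ρ) ^ s)) := by field_simp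
          _ = wt * (C * (r / ρ) ^ s) := by rw [h4]
  · have hempty : W.filter (fun w => dist (cc w) y ≤ r + ρ') = ∅ := by
      rw [Finset.filter_eq_empty_iff]
      intro w hw hle
      apply hnear
      have h1 := dist_triangle c (cc w) y
      rw [dist_comm c (cc w)] at h1
      linarith [hcl w hw]
    rw [hempty]
    simp only [Finset.card_empty, Nat.cast_zero, mul_zero]
    have : phi C s y r ⟨c, ρ, wt⟩ = 0 := by rw [phi]; exact if_neg hnear
    rw [this]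

/-- Valid nodes. -/
def Val (D : Node d) : Prop := 0 < D.ρ ∧ 0 ≤ D.wt ∧ ‖D.c‖ + D.ρ ≤ 1

/-- Summation bound for the block function. -/
lemma block_sum {p : ℝ} (hp : 0 < p) (M : ℕ) (v : ℝ) (hv : 0 ≤ v) (n : ℕ) :
    ∑ q ∈ Finset.range n, (if q ≤ M then v else 0) * (q : ℝ) ^ p ≤ v * (M : ℝ) ^ (p + 1) := by
  have h1 : ∀ q ∈ Finset.range n, (if q ≤ M then v else 0) * (q : ℝ) ^ p ≤
      if q ∈ Finset.Icc 1 M then v * (M : ℝ) ^ p else 0 := by
    intro q _
    by_cases hq : q ≤ M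
    · rcases Nat.eq_zero_or_pos q with h0 | h0
      · subst h0; simp [Real.zero_rpow hp.ne']
      · rw [if_pos hq, if_pos (Finset.mem_Icc.mpr ⟨h0, hq⟩)]
        have : (q : ℝ) ≤ M := by exact_mod_cast hq
        gcongr
    · rw [if_neg hq, zero_mul]
      split_ifs <;> positivity
  calc ∑ q ∈ Finset.range n, (if q ≤ M then v else 0) * (q : ℝ) ^ p
      ≤ ∑ q ∈ Finset.range n, (if q ∈ Finset.Icc 1 M then v * (M : ℝ) ^ p else 0) :=
        Finset.sum_le_sum h1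
    _ = ∑ q ∈ Finset.range n ∩ Finset.Icc 1 M, v * (M : ℝ) ^ p := Finset.sum_ite_mem _ _ _
    _ ≤ ∑ q ∈ Finset.Icc 1 M, v * (M : ℝ) ^ p :=
        Finset.sum_le_sum_of_subset_of_nonneg Finset.inter_subset_right
          (fun _ _ _ => by positivity)
    _ = v * (M : ℝ) ^ (p + 1) := by
        rw [Finset.sum_const, Nat.card_Icc, nsmul_eq_mul, Nat.add_sub_cancel]
        rcases Nat.eq_zero_or_pos M with h0 | h0
        · subst h0; simp [Real.zero_rpow (show p + 1 ≠ 0 by positivity)]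
        · have hM : (0 : ℝ) < M := by exact_mod_cast h0
          rw [Real.rpow_add hM, Real.rpow_one]; ring

open Classical in
/-- A round: all nodes of a list are replaced by children. -/
theorem round {A0 : Fin m → ℝ} {A1 : Fin d → Fin m → ℝ} {s C : ℝ} (hst : StageProp A0 A1 s C)
    (hC : 1 ≤ C) (hs : 0 < s) (hsd : s < d) (L : List (Node d)) :
    (∀ D ∈ L, Val D) → ∀ (θ : (Fin d → ℝ) × (Fin m → ℝ)), Adm A0 A1 θ → ∀ (t ε : ℝ) (M0 : ℕ),
      0 < t → t ≤ 1 → 0 < ε →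
      ∃ (L' : List (Node d)) (θ' : (Fin d → ℝ) × (Fin m → ℝ)) (t' : ℝ) (φ : ℕ → ℝ),
        Adm A0 A1 θ' ∧ dist θ' θ ≤ t ∧ 0 < t' ∧ Antitone φ ∧ (∀ q, 0 ≤ φ q) ∧ (∀ q, φ q ≤ ε) ∧
        (∀ n, ∑ q ∈ Finset.range n, φ q * (q : ℝ) ^ ((d : ℝ) - s) ≤ ε) ∧
        (∀ D' ∈ L', Val D' ∧ ∃ D ∈ L, dist D'.c D.c + D'.ρ ≤ D.ρ ∧ D'.ρ ≤ 2 / 7 * D.ρ) ∧
        (L'.map Node.wt).sum = (L.map Node.wt).sum ∧
        (∀ y r, 0 < r → Phi C s L' y r ≤ Phi C s L y r) ∧
        (∀ D' ∈ L', ∀ x, dist x D'.c ≤ D'.ρ → ∀ θ'', dist θ'' θ' ≤ t' →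
          ∃ q, M0 ≤ q ∧ ∃ δ : ℝ, 0 < δ ∧ Good A0 A1 x θ'' q δ ∧ δ ^ ((m : ℝ) + s) ≤ φ q) := by
  induction L with
  | nil =>
    intro _ θ hθ t ε M0 ht _ hε
    refine ⟨[], θ, t, fun _ => 0, hθ, by rw [dist_self]; exact ht.le, ht, antitone_const,
      fun _ => le_rfl, fun _ => hε.le, fun n => ?_, ?_, rfl, fun _ _ _ => le_rfl, ?_⟩
    · simp [hε.le]
    · intro D' hD'; exact absurd hD' List.not_mem_nil
    · intro D' hD'; exact absurd hD' List.not_mem_nil
  | cons D L ih =>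
    intro hval θ hθ t ε M0 ht ht1 hε
    have hD := hval D List.mem_cons_self
    have hL := fun D' (hD' : D' ∈ L) => hval D' (List.mem_cons_of_mem _ hD')
    have hDc : ‖D.c‖ ≤ 1 := by linarith [hD.1, hD.2.2]
    have hDρ1 : D.ρ ≤ 1 := by linarith [norm_nonneg D.c, hD.2.2]
    obtain ⟨θ1, τ, R, ρ', W, cc, hθ1, hdist1, hτ, hMR, hR1, hsm, hρ', hρ'ρ, hW, hcl, hc1, hc2,
      hsol⟩ := hst θ hθ D.c D.ρ (t / 2) (ε / 2) M0 hDc hD.1 hDρ1 (by linarith) (by linarith)
        (by linarith)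
    obtain ⟨L2, θ2, t2, φ2, hθ2, hdist2, ht2, hanti2, hφ20, hφ2ε, hsum2, hnest2, hwt2, hPhi2,
      hsol2⟩ := ih hL θ1 hθ1 (min (t / 2) (τ / 2)) (ε / 2) M0 (lt_min (by linarith) (by linarith))
        ((min_le_left _ _).trans (by linarith)) (by linarith)
    set v : ℝ := (8 * τ) ^ ((m : ℝ) + s) with hv
    have hv0 : 0 ≤ v := by positivity
    set M : ℕ := 10 * R with hM
    have hMr : (M : ℝ) = 10 * R := by rw [hM]; push_cast; ring
    have hM1 : (1 : ℝ) ≤ M := by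
      have : 1 ≤ M := by omega
      exact_mod_cast this
    have hvM : v * (M : ℝ) ^ ((d : ℝ) - s + 1) ≤ ε / 2 := by
      rw [hMr]
      refine le_trans (le_of_eq ?_) hsm
      congr 2; ring
    have hvε : v ≤ ε / 2 := by
      refine le_trans ?_ hvM
      have : (1 : ℝ) ≤ (M : ℝ) ^ ((d : ℝ) - s + 1) := Real.one_le_rpow hM1 (by linarith)
      nlinarith
    set wt' : ℝ := D.wt / W.card with hwt'
    have hW0 : (0 : ℝ) < W.card := by exact_mod_cast Finset.card_pos.mpr hW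
    have hwt'0 : 0 ≤ wt' := div_nonneg hD.2.1 hW0.le
    set child : ℤ × (Fin d → ℤ) → Node d := fun w => ⟨cc w, ρ', wt'⟩ with hchild
    refine ⟨W.toList.map child ++ L2, θ2, min t2 (τ / 2), fun q => (if q ≤ M then v else 0) + φ2 q,
      hθ2, ?_, lt_min ht2 (by linarith), ?_, ?_, ?_, ?_, ?_, ?_, ?_, ?_⟩
    · calc dist θ2 θ ≤ dist θ2 θ1 + dist θ1 θ := dist_triangle _ _ _
        _ ≤ t / 2 + t / 2 := add_le_add (hdist2.trans (min_le_left _ _)) hdist1
        _ = t := by ring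
    · intro a b hab
      refine add_le_add ?_ (hanti2 hab)
      by_cases hb : b ≤ M
      · rw [if_pos hb, if_pos (hab.trans hb)]
      · rw [if_neg hb]; split_ifs
        · exact hv0
        · exact le_rfl
    · intro q
      refine add_nonneg ?_ (hφ20 q)
      split_ifs
      · exact hv0
      · exact le_rfl
    · intro q
      have h1 : (if q ≤ M then v else 0) ≤ ε / 2 := by
        split_ifs
        · exact hvε
        · linarith
      have := hφ2ε q
      linarith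
    · intro n
      have h1 := block_sum (p := (d : ℝ) - s) (by linarith) M v hv0 n
      have h2 := hsum2 n
      simp only [add_mul, Finset.sum_add_distrib]
      linarith
    · intro D' hD'
      rw [List.mem_append] at hD'
      rcases hD' with hD' | hD'
      · rw [List.mem_map] at hD'
        obtain ⟨w, hw, rfl⟩ := hD'
        rw [Finset.mem_toList] at hw
        have h1 := hcl w hw
        refine ⟨⟨hρ', hwt'0, ?_⟩, D, List.mem_cons_self, ?_, hρ'ρ⟩
        · have h2 : ‖cc w‖ ≤ ‖D.c‖ + 5 / 7 * D.ρ := by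
            have := norm_le_norm_add_norm_sub' (cc w) D.c
            rw [dist_eq_norm] at h1
            linarith
          show ‖cc w‖ + ρ' ≤ 1
          linarith [hD.2.2]
        · show dist (cc w) D.c + ρ' ≤ D.ρ
          linarith
      · obtain ⟨hv', D0, hD0, h⟩ := hnest2 D' hD'
        exact ⟨hv', D0, List.mem_cons_of_mem _ hD0, h⟩
    · rw [List.map_append, List.sum_append, hwt2, List.map_cons, List.sum_cons, List.map_map]
      congr 1
      have : (W.toList.map (Node.wt ∘ child)).sum = ∑ w ∈ W, wt' := Finset.sum_map_toList _ _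
      rw [this, Finset.sum_const, nsmul_eq_mul, hwt']
      field_simp
    · intro y r hr
      have h1 := phi_children hC hD.1 hD.2.1 hρ' hρ'ρ W hW cc hcl hc1 hc2 y hr
      have h2 := hPhi2 y r hr
      simp only [Phi] at h2 ⊢
      rw [List.map_append, List.sum_append, List.map_cons, List.sum_cons, List.map_map]
      refine add_le_add ?_ h2
      have : (W.toList.map (phi C s y r ∘ child)).sum = ∑ w ∈ W, phi C s y r (child w) :=
        Finset.sum_map_toList _ _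
      rw [this]
      exact h1
    · intro D' hD' x hx θ'' hθ''
      rw [List.mem_append] at hD'
      rcases hD' with hD' | hD'
      · rw [List.mem_map] at hD'
        obtain ⟨w, hw, rfl⟩ := hD'
        rw [Finset.mem_toList] at hw
        obtain ⟨q, hq1, hq2, hg⟩ := hsol w hw x hx
        refine ⟨q, hMR.trans hq1, 2 * τ + τ, by linarith, hg.stable ?_, ?_⟩
        · calc dist θ'' θ1 ≤ dist θ'' θ2 + dist θ2 θ1 := dist_triangle _ _ _
            _ ≤ τ / 2 + τ / 2 :=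
              add_le_add (hθ''.trans (min_le_right _ _)) (hdist2.trans (min_le_right _ _))
            _ = τ := by ring
        · have h1 : (2 * τ + τ) ^ ((m : ℝ) + s) ≤ v :=
            Real.rpow_le_rpow (by linarith) (by linarith) (by positivity)
          have h2 := hφ20 q
          have h3 : (if q ≤ M then v else 0) = v := if_pos hq2
          simp only [h3]
          linarith
      · obtain ⟨q, hq, δ, hδ, hg, hle⟩ := hsol2 D' hD' x hx θ'' (hθ''.trans (min_le_left _ _))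
        refine ⟨q, hq, δ, hδ, hg, hle.trans ?_⟩
        have : 0 ≤ (if q ≤ M then v else 0) := by
          split_ifs
          · exact hv0
          · exact le_rfl
        simp only
        linarith

end Pool.Agent.Helper93.JD
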