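import Pool.Agent.Helper93.JD.Anchor

set_option autoImplicit false

namespace Pool.Agent.Helper93.JD

open Finset

variable {d m : ℕ}

open Classical in
/-- From pair counts to ball counts. -/
lemma ball_count {A0 : Fin m → ℝ} {A1 : Fin d → Fin m → ℝ} {c : Fin d → ℝ} {ρ : ℝ}
    (hρ : 0 < ρ) {τ : ℝ} {R : ℕ} {W : Finset (ℤ × (Fin d → ℤ))}
    (hW : W ⊆ HomF A0 A1 c ρ R τ) (hWN : (HomF A0 A1 c ρ R τ).card ≤ 2 * W.card)
    (cc : ℤ × (Fin d → ℤ) → Fin d → ℝ) {s'' C : ℝ} (hs''0 : 0 < s'') (hs''d : s'' ≤ d)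
    (hC : 0 ≤ C) {J : ℕ}
    (hX : ∀ w ∈ W, ∀ j < J, (2 ^ s'') ^ j *
        ((((HomF A0 A1 c ρ R τ).erase w).filter (fun w2 =>
          ∀ i, |cc w2 i - cc w i| ≤ 4 * ρ / 2 ^ j)).card : ℝ) ≤
        2 * (C * (HomF A0 A1 c ρ R τ).card))
    {ρ' : ℝ} (hJ : ρ / 2 ^ J < ρ') (hρ'ρ : ρ' ≤ ρ) (y : Fin d → ℝ) {r : ℝ} (hr1 : ρ' ≤ r)
    (hr2 : r < ρ) :
    ((W.filter (fun w => ∀ i, |cc w i - y i| ≤ 2 * r)).card : ℝ) ≤
      1 + 4 * C * 2 ^ d * W.card * (r / ρ) ^ s'' := by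
  set H := HomF A0 A1 c ρ R τ with hH
  have hρ'0 : 0 < ρ' := lt_trans (by positivity) hJ
  have hr0 : 0 < r := by linarith
  rcases Finset.eq_empty_or_nonempty (W.filter (fun w => ∀ i, |cc w i - y i| ≤ 2 * r)) with he | hne
  · rw [he]; simp only [Finset.card_empty, Nat.cast_zero]; positivity
  · obtain ⟨w, hw⟩ := hne
    rw [Finset.mem_filter] at hw
    have hex : ∃ n : ℕ, ρ / 2 ^ (n + 1) < r := by
      refine ⟨J, lt_of_le_of_lt ?_ (lt_of_lt_of_le hJ hr1)⟩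
      refine div_le_div_of_nonneg_left hρ.le (by positivity) ?_
      exact pow_le_pow_right₀ (by norm_num) (Nat.le_succ J)
    set j := Nat.find hex with hj
    have hj1 : ρ / 2 ^ (j + 1) < r := Nat.find_spec hex
    have hj2 : r ≤ ρ / 2 ^ j := by
      rcases Nat.eq_zero_or_pos j with h0 | h0
      · rw [h0, pow_zero, div_one]; exact hr2.le
      · have := Nat.find_min hex (m := j - 1) (by omega)
        rw [not_lt, Nat.sub_add_cancel h0] at this
        exact this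
    have hjJ : j < J := by
      by_contra hcon
      rw [not_lt] at hcon
      have h1 : ρ / 2 ^ j ≤ ρ / 2 ^ J :=
        div_le_div_of_nonneg_left hρ.le (by positivity) (pow_le_pow_right₀ (by norm_num) hcon)
      linarith
    have h1 : W.filter (fun w => ∀ i, |cc w i - y i| ≤ 2 * r) ⊆
        insert w ((H.erase w).filter (fun w2 => ∀ i, |cc w2 i - cc w i| ≤ 4 * ρ / 2 ^ j)) := by
      intro w2 hw2
      rw [Finset.mem_filter] at hw2
      rw [Finset.mem_insert]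
      by_cases hww : w2 = w
      · exact Or.inl hww
      · right
        rw [Finset.mem_filter, Finset.mem_erase]
        refine ⟨⟨hww, hW hw2.1⟩, fun i => ?_⟩
        have e1 : cc w2 i - cc w i = (cc w2 i - y i) - (cc w i - y i) := by ring
        rw [e1]
        refine (abs_sub _ _).trans ((add_le_add (hw2.2 i) (hw.2 i)).trans ?_)
        have e2 : 4 * ρ / 2 ^ j = 4 * (ρ / 2 ^ j) := by ring
        rw [e2]; linarith
    have h2 := (Finset.card_le_card h1).trans (Finset.card_insert_le _ _)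
    have h3 := hX w hw.1 j hjJ
    set Xc : ℝ := ((((H.erase w).filter (fun w2 =>
          ∀ i, |cc w2 i - cc w i| ≤ 4 * ρ / 2 ^ j)).card : ℕ) : ℝ) with hXc
    have h4 : ((W.filter (fun w => ∀ i, |cc w i - y i| ≤ 2 * r)).card : ℝ) ≤ Xc + 1 := by
      rw [hXc]; exact_mod_cast h2
    have h5 : (H.card : ℝ) ≤ 2 * W.card := by exact_mod_cast hWN
    have hpow : (0 : ℝ) < (2 ^ s'') ^ j := by positivity
    have h6 : Xc ≤ 4 * C * W.card * ((2 ^ s'') ^ j)⁻¹ := by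
      rw [← div_eq_mul_inv, le_div_iff₀ hpow]
      have : 2 * (C * (H.card : ℝ)) ≤ 2 * (C * (2 * W.card)) := by gcongr
      linarith
    have h7 : ((2 ^ s'') ^ j)⁻¹ ≤ 2 ^ d * (r / ρ) ^ s'' := by
      have e1 : (((2 : ℝ) ^ s'') ^ j)⁻¹ = (1 / 2 ^ j) ^ s'' := by
        rw [Real.div_rpow (by norm_num) (by positivity), Real.one_rpow, one_div,
          ← Real.rpow_natCast, ← Real.rpow_mul (by norm_num), ← Real.rpow_natCast,
          ← Real.rpow_mul (by norm_num), mul_comm]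
      have e2 : (1 : ℝ) / 2 ^ j ≤ 2 * (r / ρ) := by
        rw [div_le_iff₀ (by positivity)]
        rw [div_lt_iff₀ (by positivity), pow_succ] at hj1
        have e3 : 2 * (r / ρ) * 2 ^ j = (r * (2 ^ j * 2)) / ρ := by ring
        rw [e3, le_div_iff₀ hρ]; linarith
      have e4 : (2 : ℝ) ^ s'' ≤ 2 ^ d := by
        rw [← Real.rpow_natCast]
        exact Real.rpow_le_rpow_of_exponent_le (by norm_num) hs''d
      rw [e1]
      calc (1 / 2 ^ j : ℝ) ^ s'' ≤ (2 * (r / ρ)) ^ s'' :=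
            Real.rpow_le_rpow (by positivity) e2 hs''0.le
        _ = 2 ^ s'' * (r / ρ) ^ s'' := Real.mul_rpow (by norm_num) (by positivity)
        _ ≤ 2 ^ d * (r / ρ) ^ s'' := mul_le_mul_of_nonneg_right e4 (by positivity)
    calc ((W.filter (fun w => ∀ i, |cc w i - y i| ≤ 2 * r)).card : ℝ) ≤ Xc + 1 := h4
      _ ≤ 4 * C * W.card * ((2 ^ s'') ^ j)⁻¹ + 1 := by linarith
      _ ≤ 4 * C * W.card * (2 ^ d * (r / ρ) ^ s'') + 1 := by gcongr
      _ = 1 + 4 * C * 2 ^ d * W.card * (r / ρ) ^ s'' := by ring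

open Classical in
/-- One stage of the construction. -/
theorem stage {A0 : Fin m → ℝ} {A1 : Fin d → Fin m → ℝ} {w s η b0 s' : ℝ} (hs0 : 0 < s)
    (hη : 0 < η) (hb : 0 < b0) (hbw : b0 + η < w)
    (hb1 : b0 * (d + 1 - s) = (1 + η) * (m + s) - η / 2) (hss' : s < s') (hs'd : s' < d)
    (hbs : b0 * (s' - s) ≤ η / 4) (hm : 1 ≤ m)
    (HQ : ∀ X0 : ℕ, ∃ (q : Fin m → ℤ) (Q : ℕ) (j0 : Fin m) (n0 : ℤ) (n1 : Fin d → ℤ), X0 ≤ Q ∧
      (∀ j, |q j| ≤ Q) ∧ |q j0| = Q ∧ |∑ j, A0 j * q j - n0| ≤ (Q : ℝ) ^ (-w) ∧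
      ∀ i, |∑ j, A1 i j * q j - n1 i| ≤ (Q : ℝ) ^ (-w)) :
    ∃ C' : ℝ, 1 ≤ C' ∧ ∀ (b : ℤ × (Fin d → ℤ)) (θ : Fin d → ℝ) (c : Fin d → ℝ) (ρ t M : ℝ),
      (∀ i, |c i| ≤ 1) → 0 < ρ → ρ ≤ 1 → 0 < t → t ≤ 1 → 1 ≤ M →
      ∃ (τ : ℝ) (R : ℕ) (ρ' : ℝ) (b2 : ℤ × (Fin d → ℤ)) (θ2 : Fin d → ℝ)
        (W : Finset (ℤ × (Fin d → ℤ))) (cc : ℤ × (Fin d → ℤ) → Fin d → ℝ),
        0 < τ ∧ τ ≤ 1 / M ∧ M ≤ R ∧ (8 * τ) ^ (m + s) * (10 * R) ^ (d + 1 - s) ≤ 1 / M ∧
        (∀ i, |θ2 i - θ i| ≤ t) ∧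
        NZ t (ev A0 A1 (b2 - b) + fun j => ∑ i, (θ2 i - θ i) * A1 i j) ∧
        0 < ρ' ∧ ρ' ≤ 2 / 7 * ρ ∧ W.Nonempty ∧ (∀ w ∈ W, ∀ i, |cc w i - c i| ≤ 5 / 7 * ρ) ∧
        (∀ (y : Fin d → ℝ) (r : ℝ), ρ' ≤ r → r < ρ →
          ((W.filter (fun w => ∀ i, |cc w i - y i| ≤ 2 * r)).card : ℝ) ≤
            C' * W.card * (r / ρ) ^ s) ∧
        (∀ y : Fin d → ℝ, ((W.filter (fun w => ∀ i, |cc w i - y i| ≤ 2 * ρ')).card : ℝ) ≤
            W.card * (ρ' / ρ) ^ s) ∧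
        ∀ w ∈ W, ∀ x : Fin d → ℝ, (∀ i, |x i - cc w i| ≤ ρ') → ∃ q : ℕ, R ≤ q ∧ q ≤ 10 * R ∧
          NZ (2 * τ) (fun i => q * x i - θ2 i) ∧
          NZ (2 * τ) (fun j => q * (A0 j + ∑ i, x i * A1 i j) -
            (ev A0 A1 b2 j + ∑ i, θ2 i * A1 i j)) := by
  set s'' : ℝ := (s + s') / 2 with hs''
  set d' : ℝ := (s' + d) / 2 with hd'
  have hs''0 : 0 < s'' := by rw [hs'']; linarith
  have hs''s' : s'' < s' := by rw [hs'']; linarith
  have hss'' : s < s'' := by rw [hs'']; linarith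
  have hs'd' : s' < d' := by rw [hd']; linarith
  have hd'd : d' < d := by rw [hd']; linarith
  have hd'0 : 0 < d' := by linarith
  set C : ℝ := CT d m s' s'' d' with hC
  have hC0 : 0 < C := CT_pos d m hs''s' hs'd'
  set C1 : ℝ := 4 * C * 2 ^ d with hC1
  have hC10 : 0 < C1 := by positivity
  refine ⟨1 + C1, by linarith, ?_⟩
  intro b θ c ρ t M hc hρ hρ1 ht ht1 hM
  obtain ⟨R0, hanch⟩ := anchors (A0 := A0) (A1 := A1) hd'0 hd'd hρ hρ1 b θ ht ht1
  set SA : ℝ := ∑ i, ∑ j, |A1 i j| with hSA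
  have hSA0 : 0 ≤ SA := Finset.sum_nonneg fun i _ => Finset.sum_nonneg fun j _ => abs_nonneg _
  set cA : ℝ := 1 / (10 * (1 + SA)) with hcA
  have hcA0 : 0 < cA := by positivity
  have hcA1 : cA ≤ 1 / 10 := by
    rw [hcA]
    exact div_le_div_of_nonneg_left (by norm_num) (by norm_num) (by linarith)
  have hcASA : 10 * cA * SA ≤ 1 := by
    rw [hcA, mul_one_div, div_mul_eq_mul_div, div_le_one (by positivity)]
    linarith
  -- choice of M1
  set M1 : ℝ := max M (max R0 (max (4 / cA ^ s) (max ((2 * C1) ^ (1 / (s'' - s)) / ρ) (4 / ρ))))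
    with hM1
  have m1 : M ≤ M1 := le_max_left _ _
  have m2 : R0 ≤ M1 := (le_max_left _ _).trans (le_max_right _ _)
  have m3 : 4 / cA ^ s ≤ M1 :=
    (le_max_left _ _).trans ((le_max_right _ _).trans (le_max_right _ _))
  have m4 : (2 * C1) ^ (1 / (s'' - s)) / ρ ≤ M1 :=
    (le_max_left _ _).trans
      ((le_max_right _ _).trans ((le_max_right _ _).trans (le_max_right _ _)))
  have m5 : 4 / ρ ≤ M1 :=
    (le_max_right _ _).trans
      ((le_max_right _ _).trans ((le_max_right _ _).trans (le_max_right _ _)))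
  have hM1' : 1 ≤ M1 := hM.trans m1
  have hM10 : 0 < M1 := by linarith
  obtain ⟨τ, R, hτ0, hτM, hMR, hN, hsmall, hgr⟩ :=
    exists_params (A0 := A0) (A1 := A1) hs0 hη hb hbw hb1 hss' hs'd hbs hm HQ hc hρ hρ1 hM1'
  have hR1 : 1 ≤ R := by
    have : (1 : ℝ) ≤ R := hM1'.trans hMR
    exact_mod_cast this
  have hR0' : (0 : ℝ) < R := by exact_mod_cast hR1
  have hR1' : (1 : ℝ) ≤ R := by exact_mod_cast hR1
  set ρ' : ℝ := cA * τ / R with hρ'
  have hρ'0 : 0 < ρ' := by positivity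
  have hρ'τ : ρ' ≤ τ / 10 := by
    rw [hρ', div_le_iff₀ hR0']
    calc cA * τ ≤ 1 / 10 * τ := mul_le_mul_of_nonneg_right hcA1 hτ0.le
      _ ≤ τ / 10 * R := by
          have h0 := mul_le_mul_of_nonneg_left hR1' hτ0.le
          linarith only [h0]
  have hρ'ρ : ρ' ≤ 2 / 7 * ρ := by
    have h1 : 4 ≤ M1 * ρ := by rwa [div_le_iff₀ hρ] at m5
    have h2 : τ * M1 ≤ 1 := by rwa [le_div_iff₀ hM10] at hτM
    have h3 : 4 * τ ≤ ρ := by
      have : 4 * τ ≤ M1 * ρ * τ := mul_le_mul_of_nonneg_right h1 hτ0.le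
      have h5 := mul_le_mul_of_nonneg_left h2 hρ.le
      linarith only [this, h5]
    linarith
  have hρ'ltρ : ρ' < ρ := by linarith
  obtain ⟨J, hJ⟩ : ∃ J : ℕ, ρ / 2 ^ J < ρ' := by
    obtain ⟨J, hJ⟩ := pow_unbounded_of_one_lt (ρ / ρ') (one_lt_two)
    refine ⟨J, ?_⟩
    rw [div_lt_iff₀ hρ'0] at hJ
    rw [div_lt_iff₀ (by positivity)]; linarith
  have hh0 : 0 < 400 * ρ * R / 2 ^ J := by positivity
  obtain ⟨a0, A, a', hAne, h8, h9, hclose, hAC, hθ⟩ :=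
    hanch R hR1 (m2.trans hMR) c (400 * ρ * R / 2 ^ J) hh0
  have hAC' : ∀ (y : Fin d → ℝ) (h : ℝ), 400 * ρ * R / 2 ^ J ≤ h →
          ((A.filter (fun a => ∀ i, |a' a i - y i| ≤ h)).card : ℝ) ≤
            3 ^ d * (h / (ρ * R)) ^ d' * A.card := by
    intro y h hh
    convert hAC y h hh
  obtain ⟨a, haA, W, hWH, hWN, hX⟩ := cluster (A0 := A0) (A1 := A1) hc hρ hρ1 hR1 hs''0 hs''s'
    hs'd' hd'd.le hgr A hAne a' h8 h9 hclose hAC' J (by
      intro j hj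
      refine div_le_div_of_nonneg_left (by positivity) (by positivity) ?_
      exact pow_le_pow_right₀ (by norm_num) hj.le)
  obtain ⟨b', θ', ha', hθ', hNZ⟩ := hθ a haA
  have hHN : (0 : ℝ) < ((HomF A0 A1 c ρ R τ).card : ℝ) := by
    by_contra hcon
    have : ((HomF A0 A1 c ρ R τ).card : ℝ) = 0 := le_antisymm (not_lt.mp hcon) (by positivity)
    rw [this, zero_mul] at hN
    linarith
  have hWpos : 0 < W.card := by
    have : 0 < (HomF A0 A1 c ρ R τ).card := by exact_mod_cast hHN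
    omega
  have hW0 : (0 : ℝ) < W.card := by exact_mod_cast hWpos
  have hWN' : ((HomF A0 A1 c ρ R τ).card : ℝ) ≤ 2 * W.card := by exact_mod_cast hWN
  have hgain : 2 ≤ W.card * (ρ' / ρ) ^ s := by
    have h1 : (cA * (τ / R)) ^ s ≤ (ρ' / ρ) ^ s := by
      refine Real.rpow_le_rpow (by positivity) ?_ hs0.le
      rw [le_div_iff₀ hρ, hρ']
      have : cA * (τ / R) = cA * τ / R := by ring
      rw [this]
      have h2 : 0 ≤ cA * τ / R := by positivity
      exact mul_le_of_le_one_right h2 hρ1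
    rw [Real.mul_rpow hcA0.le (by positivity)] at h1
    rw [div_le_iff₀ (by positivity)] at m3
    have h3 : 4 ≤ 2 * (W.card : ℝ) * (τ / R) ^ s * cA ^ s := by
      calc (4 : ℝ) ≤ M1 * cA ^ s := m3
        _ ≤ (((HomF A0 A1 c ρ R τ).card : ℝ) * (τ / R) ^ s) * cA ^ s := by gcongr
        _ ≤ (2 * (W.card : ℝ) * (τ / R) ^ s) * cA ^ s := by gcongr
    have h4 : (W.card : ℝ) * (cA ^ s * (τ / R) ^ s) ≤ W.card * (ρ' / ρ) ^ s := by gcongr
    linarith
  have hball : ∀ (y : Fin d → ℝ) (r : ℝ), ρ' ≤ r → r < ρ →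
      ((W.filter (fun w => ∀ i, |pt a0 (a' a) w i - y i| ≤ 2 * r)).card : ℝ) ≤
        1 + C1 * W.card * (r / ρ) ^ s'' := by
    intro y r hr1 hr2
    exact ball_count (A0 := A0) (A1 := A1) hρ hWH hWN (fun w => pt a0 (a' a) w) hs''0
      (by linarith) hC0.le hX hJ hρ'ltρ.le y hr1 hr2
  refine ⟨τ, R, ρ', (a0, b'), θ', W, fun w => pt a0 (a' a) w, hτ0,
    hτM.trans (div_le_div_of_nonneg_left (by norm_num) (by linarith) m1), m1.trans hMR,
    hsmall.trans (div_le_div_of_nonneg_left (by norm_num) (by linarith) m1), hθ', hNZ, hρ'0, hρ'ρ,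
    Finset.card_pos.mp hWpos, ?_, ?_, ?_, ?_⟩
  · intro w hw i
    have hwH := (mem_HomF hc hρ1).mp (hWH hw)
    exact pt_close hρ hR0' h8 h9 (hclose a haA) hwH.1 i
  · intro y r hr1 hr2
    have hr0 : 0 < r := by linarith
    refine (hball y r hr1 hr2).trans ?_
    have hx0 : 0 < r / ρ := by positivity
    have hx1 : r / ρ ≤ 1 := by rw [div_le_one hρ]; exact hr2.le
    have h1 : (r / ρ) ^ s'' ≤ (r / ρ) ^ s :=
      Real.rpow_le_rpow_of_exponent_ge hx0 hx1 hss''.le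
    have h2 : (ρ' / ρ) ^ s ≤ (r / ρ) ^ s :=
      Real.rpow_le_rpow (by positivity) (div_le_div_of_nonneg_right hr1 hρ.le) hs0.le
    have h3 : 1 ≤ (W.card : ℝ) * (r / ρ) ^ s := by
      have : (W.card : ℝ) * (ρ' / ρ) ^ s ≤ W.card * (r / ρ) ^ s := by gcongr
      linarith
    calc 1 + C1 * W.card * (r / ρ) ^ s'' ≤ (W.card : ℝ) * (r / ρ) ^ s +
          C1 * W.card * (r / ρ) ^ s := by gcongr
      _ = (1 + C1) * W.card * (r / ρ) ^ s := by ring
  · intro y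
    refine (hball y ρ' le_rfl hρ'ltρ).trans ?_
    have hx0 : 0 < ρ' / ρ := by positivity
    have h1 : C1 * (ρ' / ρ) ^ s'' ≤ 1 / 2 * (ρ' / ρ) ^ s := by
      have e1 : (ρ' / ρ) ^ s'' = (ρ' / ρ) ^ (s'' - s) * (ρ' / ρ) ^ s := by
        rw [← Real.rpow_add hx0]; ring_nf
      rw [e1, ← mul_assoc]
      refine mul_le_mul_of_nonneg_right ?_ (by positivity)
      have hds : 0 < s'' - s := by linarith
      -- ρ'/ρ ≤ (1/(2 C1))^{1/(s''-s)}
      have e2 : ρ' / ρ ≤ ((2 * C1) ^ (1 / (s'' - s)))⁻¹ := by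
        have hp : 0 < (2 * C1) ^ (1 / (s'' - s)) := by positivity
        rw [div_le_iff₀ hρ] at m4
        rw [div_le_iff₀ hρ, inv_mul_eq_div, le_div_iff₀ hp]
        have h2 : τ * M1 ≤ 1 := by rwa [le_div_iff₀ hM10] at hτM
        have h3 : ρ' * M1 ≤ 1 := by
          have : ρ' * M1 ≤ τ * M1 := mul_le_mul_of_nonneg_right (by linarith) hM10.le
          linarith
        calc ρ' * (2 * C1) ^ (1 / (s'' - s)) ≤ ρ' * (M1 * ρ) := by gcongr
          _ = (ρ' * M1) * ρ := by ring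
          _ ≤ 1 * ρ := by gcongr
          _ = ρ := one_mul _
      have e3 : (ρ' / ρ) ^ (s'' - s) ≤ (2 * C1)⁻¹ := by
        calc (ρ' / ρ) ^ (s'' - s) ≤ (((2 * C1) ^ (1 / (s'' - s)))⁻¹) ^ (s'' - s) :=
              Real.rpow_le_rpow hx0.le e2 hds.le
          _ = (2 * C1)⁻¹ := by
              rw [Real.inv_rpow (by positivity), ← Real.rpow_mul (by positivity),
                one_div_mul_cancel hds.ne', Real.rpow_one]
      calc C1 * (ρ' / ρ) ^ (s'' - s) ≤ C1 * (2 * C1)⁻¹ := by gcongr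
        _ = 1 / 2 := by field_simp
    have h2 : C1 * W.card * (ρ' / ρ) ^ s'' ≤ 1 / 2 * (W.card * (ρ' / ρ) ^ s) := by
      calc C1 * W.card * (ρ' / ρ) ^ s'' = W.card * (C1 * (ρ' / ρ) ^ s'') := by ring
        _ ≤ W.card * (1 / 2 * (ρ' / ρ) ^ s) := by gcongr
        _ = _ := by ring
    linarith
  · intro w hw x hx
    have hwH := (mem_HomF hc hρ1).mp (hWH hw)
    have hD := denom_bounds h8 h9 hwH.1
    have hDpos : 0 < (a0 : ℝ) + w.1 := by linarith [hD.1]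
    have hDint : (0 : ℤ) < a0 + w.1 := by exact_mod_cast hDpos
    set q : ℕ := (a0 + w.1).toNat with hq
    have hqZ : (q : ℤ) = a0 + w.1 := Int.toNat_of_nonneg hDint.le
    have hqR : (q : ℝ) = a0 + w.1 := by exact_mod_cast hqZ
    have hεi : ∀ i, |(q : ℝ) * x i - θ' i - (b' i + w.2 i)| ≤ 10 * cA * τ := by
      intro i
      have h1 : (q : ℝ) * x i - θ' i - (b' i + w.2 i) = q * (x i - pt a0 (a' a) w i) := by
        rw [mul_sub, pt, ha' i, hqR, mul_div_cancel₀ _ hDpos.ne']; ring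
      rw [h1, abs_mul, abs_of_pos (by rw [hqR]; exact hDpos)]
      calc (q : ℝ) * |x i - pt a0 (a' a) w i| ≤ (10 * R) * ρ' := by
            refine mul_le_mul ?_ (hx i) (abs_nonneg _) (by positivity)
            rw [hqR]; exact hD.2
        _ = 10 * cA * τ := by rw [hρ']; field_simp
    refine ⟨q, ?_, ?_, ?_, ?_⟩
    · have : (R : ℝ) ≤ q := by rw [hqR]; linarith [hD.1]
      exact_mod_cast this
    · have : (q : ℝ) ≤ 10 * R := by rw [hqR]; exact hD.2
      exact_mod_cast this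
    · intro i
      refine ⟨b' i + w.2 i, ?_⟩
      push_cast
      have := hεi i
      have h2 : 10 * cA * τ ≤ τ := by
        have h0 := mul_le_mul_of_nonneg_right hcA1 hτ0.le
        linarith only [h0]
      linarith
    · intro j
      obtain ⟨k, hk⟩ := hwH.2 j
      refine ⟨k, ?_⟩
      have h1 : (q : ℝ) * (A0 j + ∑ i, x i * A1 i j) -
          (ev A0 A1 (a0, b') j + ∑ i, θ' i * A1 i j) - k
          = (ev A0 A1 w j - k) + ∑ i, ((q : ℝ) * x i - θ' i - (b' i + w.2 i)) * A1 i j := by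
        rw [ev_apply, ev_apply, hqR]
        simp only [sub_mul, add_mul, Finset.sum_sub_distrib, Finset.sum_add_distrib, mul_add,
          Finset.mul_sum]
        have e1 : ∀ (v : ℝ), ∑ i, v * (x i * A1 i j) = ∑ i, v * x i * A1 i j := fun v =>
          Finset.sum_congr rfl fun i _ => by ring
        simp only [e1]
        ring
      rw [h1]
      refine (abs_add_le _ _).trans_lt ?_
      have h2 : |∑ i, ((q : ℝ) * x i - θ' i - (b' i + w.2 i)) * A1 i j| ≤ 10 * cA * τ * SA := by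
        refine (Finset.abs_sum_le_sum_abs _ _).trans ?_
        rw [hSA, Finset.mul_sum]
        refine Finset.sum_le_sum fun i _ => ?_
        rw [abs_mul]
        refine mul_le_mul (hεi i) ?_ (abs_nonneg _) (by positivity)
        exact Finset.single_le_sum (f := fun j => |A1 i j|) (fun j _ => abs_nonneg _)
          (Finset.mem_univ j)
      have h3 : 10 * cA * τ * SA ≤ τ := by
        have h0 := mul_le_mul_of_nonneg_right hcASA hτ0.le
        linarith only [h0]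
      linarith

end Pool.Agent.Helper93.JD
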